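import Pool.Agent.PnLG.ApDens

/-!
# Equidistribution of the primes in residue classes, in terms of the index
-/

open Finset Filter
open scoped ArithmeticFunction.vonMangoldt Topology

namespace Pool.Agent.PnHL

open Pool.Agent.ANT
open Pool.Agent.PnPoly.NC (np np_prime np_strictMono)

/-- number of the indices `n < N` with `np n ≡ a (mod m)` -/
noncomputable def cls (m a N : ℕ) : ℝ := (((range N).filter (fun n => np n % m = a % m)).card : ℝ)

lemma cls_nonneg (m a N : ℕ) : 0 ≤ cls m a N := Nat.cast_nonneg _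

lemma pi_upper (δ : ℝ) (hδ : 0 < δ) : ∀ᶠ x : ℝ in atTop,
    (Nat.primeCounting ⌊x⌋₊ : ℝ) ≤ (1 + δ) * (x / Real.log x) := by
  obtain ⟨C, hC, hpsi⟩ := psi_pnt 1
  obtain ⟨K, hK, e2⟩ := Chebyshev.primeCounting_sub_theta_div_log_isBigO.exists_pos
  rw [Asymptotics.isBigOWith_iff] at e2
  filter_upwards [e2, eventually_ge_atTop 3,
    Real.tendsto_log_atTop.eventually_ge_atTop ((C + K) / δ + 1)] with x h2 h3 h4
  have hl1 : 1 ≤ Real.log x := by
    have : 0 ≤ (C + K) / δ := by positivity
    linarith
  have hl : 0 < Real.log x := by linarith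
  have hx0 : 0 < x := by linarith
  have h5 := hpsi x h3
  rw [pow_one] at h5
  have h6 : Chebyshev.psi x = ∑ n ∈ Finset.Icc 1 ⌊x⌋₊, Λ n := rfl
  rw [← h6] at h5
  have h7 := Chebyshev.theta_le_psi x
  have h8 : Chebyshev.theta x ≤ x + C * x / Real.log x := by
    have := (abs_le.mp h5).2
    linarith
  have h9 : (Nat.primeCounting ⌊x⌋₊ : ℝ) - Chebyshev.theta x / Real.log x ≤ K * (x / Real.log x ^ 2) := by
    refine (le_abs_self _).trans ?_
    have h10 := h2
    rw [Real.norm_eq_abs, Real.norm_eq_abs, abs_of_nonneg (show 0 ≤ x / Real.log x ^ 2 by positivity)] at h10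
    exact h10
  have h11 : Chebyshev.theta x / Real.log x ≤ (x + C * x / Real.log x) / Real.log x := by
    gcongr
  have h12 : (C + K) / Real.log x ≤ δ := by
    rw [div_le_iff₀ hl]
    have h13 : (C + K) / δ ≤ Real.log x := by linarith
    rw [div_le_iff₀ hδ] at h13
    linarith
  calc (Nat.primeCounting ⌊x⌋₊ : ℝ) ≤ (x + C * x / Real.log x) / Real.log x + K * (x / Real.log x ^ 2) := by
        linarith
    _ = (1 + (C + K) / Real.log x) * (x / Real.log x) := by
        field_simp
        ring
    _ ≤ (1 + δ) * (x / Real.log x) := by gcongr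

lemma tendsto_np : Tendsto (fun N : ℕ => ((np N : ℕ) : ℝ)) atTop atTop :=
  tendsto_natCast_atTop_atTop.comp np_strictMono.tendsto_atTop

lemma cls_lower (m a : ℕ) (hm : 1 ≤ m) (ha : Nat.Coprime a m) (δ : ℝ) (hδ : 0 < δ) :
    ∀ᶠ N : ℕ in atTop, (1 - δ) * (N / (m.totient : ℝ)) ≤ cls m a N := by
  have : NeZero m := ⟨by omega⟩
  obtain ⟨C, hC, hlow⟩ := pi_ap_lower 1 (ε := 1) one_pos
  have hm1 : (1 : ℝ) ≤ m := by exact_mod_cast hm
  have ht0 : (0 : ℝ) < m.totient := by exact_mod_cast Nat.totient_pos.mpr hm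
  rcases le_or_gt 1 δ with hδ1 | hδ1
  · refine Eventually.of_forall fun N => ?_
    refine le_trans ?_ (cls_nonneg m a N)
    have : 0 ≤ (N : ℝ) / (m.totient : ℝ) := by positivity
    nlinarith
  have ev3 : ∀ᶠ x : ℝ in atTop, (4 / δ) * (m.totient : ℝ) * Real.log x ≤ x := by
    have h1 := Real.isLittleO_log_id_atTop.bound
      (show (0 : ℝ) < ((4 / δ) * (m.totient : ℝ))⁻¹ by positivity)
    filter_upwards [h1, eventually_ge_atTop 1] with x hx hx1
    rw [id, Real.norm_of_nonneg (Real.log_nonneg hx1), Real.norm_of_nonneg (by linarith)] at hx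
    calc (4 / δ) * (m.totient : ℝ) * Real.log x ≤
        (4 / δ) * (m.totient : ℝ) * (((4 / δ) * (m.totient : ℝ))⁻¹ * x) :=
          mul_le_mul_of_nonneg_left hx (by positivity)
      _ = x := by field_simp
  filter_upwards [tendsto_np.eventually (pi_upper (δ / 4) (by positivity)),
    tendsto_np.eventually (Real.tendsto_log_atTop.eventually_ge_atTop
      (4 * C * (m : ℝ) * (m.totient : ℝ) / δ + 1)),
    tendsto_np.eventually ev3,
    tendsto_np.eventually (eventually_ge_atTop (3 : ℝ))] with N h1 h2 h3 h4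
  set x : ℝ := ((np N : ℕ) : ℝ) with hxdef
  have hx0 : 0 < x := by linarith
  have hCm : 0 ≤ 4 * C * (m : ℝ) * (m.totient : ℝ) / δ := by positivity
  have hl : 0 < Real.log x := by linarith
  have h5 := hlow m (a : ZMod m) ((ZMod.isUnit_iff_coprime a m).mpr ha) x h4
  have hfl : ⌊x⌋₊ = np N := Nat.floor_natCast _
  rw [hfl] at h1 h5
  have h6 : ((((Finset.Icc 1 (np N)).filter
      (fun p : ℕ => p.Prime ∧ (p : ZMod m) = (a : ZMod m))).card : ℕ) : ℝ) ≤ cls m a N + 1 := by
    unfold cls
    exact_mod_cast Pool.Agent.PnLG.ApDensAux.card_le m a N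
  have h7 : (N : ℝ) ≤ (1 + δ / 4) * (x / Real.log x) :=
    le_trans (by exact_mod_cast Pool.Agent.PnLG.ApDensAux.le_pi N) h1
  set u : ℝ := x / Real.log x with hu
  have hu0 : 0 < u := div_pos hx0 hl
  have h9 : x / (m.totient * Real.log x) = u / m.totient := by
    rw [hu, div_div, mul_comm (Real.log x)]
  have h10 : C * (m : ℝ) ^ (1 : ℝ) * x / Real.log x ^ (1 + 1) = C * m / Real.log x * u := by
    rw [Real.rpow_one, hu]
    field_simp
  rw [h9, h10] at h5
  have h11 : C * m / Real.log x * u ≤ δ / 4 * (u / m.totient) := by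
    have h12 : C * m / Real.log x ≤ δ / 4 / m.totient := by
      rw [div_le_div_iff₀ hl ht0]
      have h13 : 4 * C * (m : ℝ) * (m.totient : ℝ) / δ ≤ Real.log x := by linarith
      rw [div_le_iff₀ hδ] at h13
      linarith
    calc C * m / Real.log x * u ≤ δ / 4 / m.totient * u := by gcongr
      _ = _ := by ring
  have h12 : 1 ≤ δ / 4 * (u / m.totient) := by
    have h13 : (4 / δ) * (m.totient : ℝ) ≤ u := by
      rw [hu, le_div_iff₀ hl]
      exact h3
    have h14 : δ / 4 * (u / m.totient) ≥ δ / 4 * ((4 / δ) * (m.totient : ℝ) / m.totient) := by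
      gcongr
    refine le_trans (le_of_eq ?_) h14
    field_simp
  have h13 : (1 - δ / 2) * (u / m.totient) ≤ cls m a N := by
    have : (1 - δ / 2) * (u / m.totient) = u / m.totient - δ / 4 * (u / m.totient) -
      δ / 4 * (u / m.totient) := by ring
    rw [this]
    linarith
  refine le_trans ?_ h13
  have h14 : (1 - δ) * (N / (m.totient : ℝ)) ≤ (1 - δ) * ((1 + δ / 4) * u / (m.totient : ℝ)) := by
    have : 0 ≤ 1 - δ := by linarith
    gcongr
  refine h14.trans ?_
  have h15 : (1 - δ) * ((1 + δ / 4) * u / (m.totient : ℝ)) = ((1 - δ) * (1 + δ / 4)) * (u / m.totient) := by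
    ring
  rw [h15]
  have h16 : (1 - δ) * (1 + δ / 4) ≤ 1 - δ / 2 := by nlinarith
  have h17 : 0 ≤ u / (m.totient : ℝ) := by positivity
  exact mul_le_mul_of_nonneg_right h16 h17

/-- the indices split into the classes -/
lemma sum_cls (m : ℕ) (hm : 1 ≤ m) (N : ℕ) : ∑ a ∈ range m, cls m a N = N := by
  unfold cls
  have h1 : ∀ n ∈ range N, np n % m ∈ range m := fun n _ => mem_range.2 (Nat.mod_lt _ (by omega))
  have h2 := Finset.card_eq_sum_card_fiberwise (f := fun n => np n % m) (s := range N) (t := range m)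
    (fun n hn => h1 n hn)
  rw [card_range] at h2
  have h3 : ∑ a ∈ range m, ((range N).filter (fun n => np n % m = a % m)).card = N := by
    refine Eq.trans ?_ h2.symm
    refine Finset.sum_congr rfl fun a ha => ?_
    rw [Nat.mod_eq_of_lt (mem_range.1 ha)]
  exact_mod_cast h3

/-- sum of a periodic function over the primes, by classes -/
lemma sum_per (m : ℕ) (hm : 1 ≤ m) (F : ℕ → ℝ) (hF : ∀ k, F (k % m) = F k) (N : ℕ) :
    ∑ n ∈ range N, F (np n) = ∑ a ∈ range m, F a * cls m a N := by
  have h1 : ∀ n ∈ range N, np n % m ∈ range m := fun n _ => mem_range.2 (Nat.mod_lt _ (by omega))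
  rw [← Finset.sum_fiberwise_of_maps_to h1]
  refine Finset.sum_congr rfl fun a ha => ?_
  unfold cls
  rw [Nat.mod_eq_of_lt (mem_range.1 ha)]
  have h2 : ∀ n ∈ (range N).filter (fun n => np n % m = a), F (np n) = F a := by
    intro n hn
    rw [← hF (np n), (Finset.mem_filter.1 hn).2]
  rw [Finset.sum_congr rfl h2, Finset.sum_const, nsmul_eq_mul, mul_comm]

/-- **mean value of a periodic function over the primes** -/
theorem ap_mean (m : ℕ) (hm : 1 ≤ m) (F : ℕ → ℝ) (hF : ∀ k, F (k % m) = F k) (η : ℝ) (hη : 0 < η) :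
    ∀ᶠ N : ℕ in atTop, |∑ n ∈ range N, F (np n) -
      N / (m.totient : ℝ) * ∑ a ∈ (range m).filter (fun a => Nat.Coprime a m), F a| ≤ η * N := by
  classical
  have ht0 : (0 : ℝ) < m.totient := by exact_mod_cast Nat.totient_pos.mpr hm
  set A : ℝ := ∑ a ∈ range m, |F a| with hA
  have hA0 : 0 ≤ A := Finset.sum_nonneg fun a _ => abs_nonneg _
  set δ : ℝ := η / (A + 1) with hδ
  have hδ0 : 0 < δ := by positivity
  have hev : ∀ᶠ N : ℕ in atTop, ∀ a ∈ (range m).filter (fun a => Nat.Coprime a m),
      (1 - δ) * (N / (m.totient : ℝ)) ≤ cls m a N := by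
    rw [Filter.eventually_all_finset]
    intro a ha
    exact cls_lower m a hm (Finset.mem_filter.1 ha).2 δ hδ0
  filter_upwards [hev] with N hN
  set U := (range m).filter (fun a => Nat.Coprime a m) with hU
  have hcardU : (U.card : ℝ) = m.totient := by
    have : U.card = m.totient := by
      rw [hU, Nat.totient]
      congr 1
      refine Finset.filter_congr fun a _ => ?_
      exact Nat.coprime_comm
    exact_mod_cast this
  have hsum := sum_cls m hm N
  have hdev : ∀ a ∈ range m, |cls m a N - (if Nat.Coprime a m then (N : ℝ) / m.totient else 0)| ≤ δ * N := by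
    intro a ha
    -- lower bounds of the other classes give the upper bound
    have hsplit : ∑ b ∈ range m, cls m b N = cls m a N + ∑ b ∈ (range m).erase a, cls m b N :=
      (Finset.add_sum_erase _ _ ha).symm
    have hNn : (0 : ℝ) ≤ N := Nat.cast_nonneg _
    by_cases hc : Nat.Coprime a m
    · rw [if_pos hc]
      have haU : a ∈ U := Finset.mem_filter.2 ⟨ha, hc⟩
      have h1 := hN a haU
      have h2 : (((U.erase a).card : ℝ)) * ((1 - δ) * (N / (m.totient : ℝ))) ≤
          ∑ b ∈ (range m).erase a, cls m b N := by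
        rw [← nsmul_eq_mul]
        refine le_trans (Finset.card_nsmul_le_sum _ (fun b => cls m b N) _ fun b hb => hN b (Finset.mem_of_mem_erase hb)) ?_
        refine Finset.sum_le_sum_of_subset_of_nonneg ?_ fun b _ _ => cls_nonneg m b N
        exact Finset.erase_subset_erase _ (Finset.filter_subset _ _)
      have h3 : ((U.erase a).card : ℝ) = m.totient - 1 := by
        rw [Finset.card_erase_of_mem haU, Nat.cast_sub (Finset.card_pos.2 ⟨a, haU⟩), hcardU]
        simp
      rw [h3] at h2
      have h4 : ((m.totient : ℝ) - 1) * ((1 - δ) * (N / (m.totient : ℝ))) =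
          N - N / m.totient - δ * N + δ * (N / m.totient) := by
        field_simp
        ring
      rw [h4] at h2
      have h5 : 0 ≤ δ * ((N : ℝ) / m.totient) := by positivity
      have h6 : δ * ((N : ℝ) / m.totient) ≤ δ * N := by
        have h7 : (N : ℝ) / m.totient ≤ N := div_le_self hNn (by exact_mod_cast Nat.totient_pos.mpr hm)
        exact mul_le_mul_of_nonneg_left h7 hδ0.le
      rw [abs_le]
      constructor
      · have : (1 - δ) * ((N : ℝ) / (m.totient : ℝ)) = N / m.totient - δ * (N / m.totient) := by ring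
        linarith
      · linarith
    · rw [if_neg hc, sub_zero, abs_of_nonneg (cls_nonneg m a N)]
      have h2 : ((U.card : ℝ)) * ((1 - δ) * (N / (m.totient : ℝ))) ≤
          ∑ b ∈ (range m).erase a, cls m b N := by
        rw [← nsmul_eq_mul]
        refine le_trans (Finset.card_nsmul_le_sum _ (fun b => cls m b N) _ fun b hb => hN b hb) ?_
        refine Finset.sum_le_sum_of_subset_of_nonneg ?_ fun b _ _ => cls_nonneg m b N
        intro b hb
        rw [Finset.mem_erase]
        refine ⟨?_, (Finset.mem_filter.1 hb).1⟩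
        rintro rfl
        exact hc (Finset.mem_filter.1 hb).2
      rw [hcardU] at h2
      have h4 : (m.totient : ℝ) * ((1 - δ) * (N / (m.totient : ℝ))) = N - δ * N := by
        field_simp
      rw [h4] at h2
      linarith
  rw [sum_per m hm F hF N]
  have h1 : N / (m.totient : ℝ) * ∑ a ∈ U, F a =
      ∑ a ∈ range m, F a * (if Nat.Coprime a m then (N : ℝ) / m.totient else 0) := by
    rw [hU, Finset.sum_filter, Finset.mul_sum]
    refine Finset.sum_congr rfl fun a _ => ?_
    split_ifs
    · ring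
    · ring
  rw [h1, ← Finset.sum_sub_distrib]
  calc |∑ a ∈ range m, (F a * cls m a N - F a * (if Nat.Coprime a m then (N : ℝ) / m.totient else 0))|
      ≤ ∑ a ∈ range m, |F a * cls m a N - F a * (if Nat.Coprime a m then (N : ℝ) / m.totient else 0)| :=
        Finset.abs_sum_le_sum_abs _ _
    _ ≤ ∑ a ∈ range m, |F a| * (δ * N) := by
        refine Finset.sum_le_sum fun a ha => ?_
        rw [← mul_sub, abs_mul]
        exact mul_le_mul_of_nonneg_left (hdev a ha) (abs_nonneg _)
    _ = A * δ * N := by rw [← Finset.sum_mul, hA]; ring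
    _ ≤ η * N := by
        have h2 : A * δ ≤ η := by
          rw [hδ, mul_div_assoc', div_le_iff₀ (by positivity)]
          nlinarith
        exact mul_le_mul_of_nonneg_right h2 (Nat.cast_nonneg _)

end Pool.Agent.PnHL
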