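import Pool.Agent.PnHL.Sing

/-!
# The large prime factors of `c0 + b` contribute little to the Hardy-Littlewood constant, for almost all `b`
-/

open Finset Filter
open scoped Topology

namespace Pool.Agent.PnHL

open Pool.Agent.PnLG (Py)

lemma card_dvd_le (p H : ℕ) (hp : 1 ≤ p) (c0 : ℤ) :
    ((Icc 1 H).filter (fun b : ℕ => (p : ℤ) ∣ c0 + b)).card ≤ H / p + 1 := by
  have h : ((Icc 1 H).filter (fun b : ℕ => (p : ℤ) ∣ c0 + b)).card ≤ (range (H / p + 1)).card := by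
    apply Finset.card_le_card_of_injOn (fun b => b / p)
    · intro b hb
      rw [Finset.mem_coe, Finset.mem_filter, Finset.mem_Icc] at hb
      rw [Finset.mem_coe, Finset.mem_range]
      exact Nat.lt_succ_of_le (Nat.div_le_div_right hb.1.2)
    · intro b hb b' hb' hbb
      rw [Finset.mem_coe, Finset.mem_filter] at hb hb'
      have h1 : (p : ℤ) ∣ (b : ℤ) - b' := by
        have := dvd_sub hb.2 hb'.2
        have h6 : c0 + (b : ℤ) - (c0 + (b' : ℤ)) = (b : ℤ) - b' := by ring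
        rwa [h6] at this
      have h2 : b % p = b' % p := by
        have h3 : (b' : ℤ) ≡ b [ZMOD p] := Int.modEq_iff_dvd.2 h1
        have h4 := Int.natCast_modEq_iff.1 h3
        exact h4.symm
      simp only at hbb
      rw [← Nat.div_add_mod b p, ← Nat.div_add_mod b' p, hbb, h2]
  rwa [card_range] at h

lemma sum_inv_le (y M : ℕ) : ∑ p ∈ Ioc y M, 1 / (p : ℝ) ≤ 1 + Real.log M := by
  have h1 : ∑ p ∈ Ioc y M, 1 / (p : ℝ) ≤ ∑ p ∈ Icc 1 M, 1 / (p : ℝ) := by
    refine Finset.sum_le_sum_of_subset_of_nonneg ?_ fun _ _ _ => by positivity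
    intro p hp
    rw [mem_Ioc] at hp
    rw [mem_Icc]
    omega
  have h2 := harmonic_le_one_add_log M
  rw [harmonic_eq_sum_Icc] at h2
  push_cast at h2
  refine h1.trans (le_trans (le_of_eq ?_) h2)
  refine Finset.sum_congr rfl fun p _ => ?_
  rw [one_div]

/-- sum of `1/p` over the primes `p > y` dividing `h` -/
noncomputable def big (y : ℕ) (h : ℤ) : ℝ := ∑ p ∈ h.natAbs.primeFactors.filter (fun p => y < p), 1 / (p : ℝ)

lemma big_nonneg (y : ℕ) (h : ℤ) : 0 ≤ big y h := Finset.sum_nonneg fun _ _ => by positivity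

lemma sum_big (y : ℕ) (hy : 1 ≤ y) (c0 : ℤ) (H : ℕ) :
    ∑ b ∈ Icc 1 H, big y (c0 + (b : ℤ)) ≤ H / y + (1 + Real.log ((H + c0.natAbs : ℕ) : ℝ)) := by
  classical
  set M := H + c0.natAbs with hM
  have h1 : ∀ b ∈ Icc 1 H, big y (c0 + (b : ℤ)) ≤
      ∑ p ∈ Ioc y M, if (p : ℤ) ∣ c0 + b then 1 / (p : ℝ) else 0 := by
    intro b hb
    rw [mem_Icc] at hb
    unfold big
    rw [← Finset.sum_filter]
    refine Finset.sum_le_sum_of_subset_of_nonneg ?_ fun _ _ _ => by positivity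
    intro p hp
    rw [mem_filter, Nat.mem_primeFactors] at hp
    obtain ⟨⟨hpp, hd, hne⟩, hlt⟩ := hp
    rw [mem_filter, mem_Ioc]
    refine ⟨⟨hlt, ?_⟩, Int.natCast_dvd.2 hd⟩
    have h2 := Nat.le_of_dvd (Nat.pos_of_ne_zero hne) hd
    omega
  refine (Finset.sum_le_sum h1).trans ?_
  rw [Finset.sum_comm]
  have h2 : ∀ p ∈ Ioc y M, (∑ b ∈ Icc 1 H, if (p : ℤ) ∣ c0 + (b : ℤ) then 1 / (p : ℝ) else 0) ≤
      H * (1 / (p : ℝ) ^ 2) + 1 / (p : ℝ) := by
    intro p hp
    rw [mem_Ioc] at hp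
    have hp1 : 1 ≤ p := by omega
    have hp0 : (0 : ℝ) < p := by exact_mod_cast hp1
    rw [← Finset.sum_filter, Finset.sum_const, nsmul_eq_mul]
    have h3 : (((Icc 1 H).filter (fun b : ℕ => (p : ℤ) ∣ c0 + b)).card : ℝ) ≤ H / p + 1 := by
      have h4 := card_dvd_le p H hp1 c0
      have h5 : (((Icc 1 H).filter (fun b : ℕ => (p : ℤ) ∣ c0 + b)).card : ℝ) ≤ ((H / p + 1 : ℕ) : ℝ) := by
        exact_mod_cast h4
      refine h5.trans ?_
      push_cast
      have := @Nat.cast_div_le ℝ _ _ _ H p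
      linarith
    calc _ ≤ ((H : ℝ) / p + 1) * (1 / (p : ℝ)) := mul_le_mul_of_nonneg_right h3 (by positivity)
      _ = _ := by
        field_simp
  refine (Finset.sum_le_sum h2).trans ?_
  rw [Finset.sum_add_distrib, ← Finset.mul_sum]
  refine add_le_add ?_ (sum_inv_le y M)
  have h3 := Pool.Agent.HL26.sum_inv_sq_gt y hy (Ioc y M) (fun p hp => (mem_Ioc.1 hp).1)
  calc (H : ℝ) * ∑ p ∈ Ioc y M, 1 / (p : ℝ) ^ 2 ≤ H * (1 / (y : ℝ)) :=
        mul_le_mul_of_nonneg_left h3 (Nat.cast_nonneg _)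
    _ = _ := by ring

lemma log_small (c0 : ℤ) (κ : ℝ) (hκ : 0 < κ) :
    ∀ᶠ H : ℕ in atTop, 1 + Real.log ((H + c0.natAbs : ℕ) : ℝ) ≤ κ * H := by
  have h1 := Real.isLittleO_log_id_atTop.bound (show (0 : ℝ) < κ / 2 by positivity)
  have h2 : Tendsto (fun H : ℕ => ((H + c0.natAbs : ℕ) : ℝ)) atTop atTop :=
    tendsto_natCast_atTop_atTop.comp (tendsto_add_atTop_nat c0.natAbs)
  have h3 : Tendsto (fun H : ℕ => κ / 2 * (H : ℝ)) atTop atTop :=
    tendsto_natCast_atTop_atTop.const_mul_atTop (by positivity)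
  filter_upwards [h2.eventually h1, h3.eventually_ge_atTop (1 + κ / 2 * c0.natAbs),
    eventually_ge_atTop 1] with H h4 h5 h6
  have h7 : (1 : ℝ) ≤ ((H + c0.natAbs : ℕ) : ℝ) := by exact_mod_cast (show 1 ≤ H + c0.natAbs by omega)
  rw [id, Real.norm_of_nonneg (Real.log_nonneg h7), Real.norm_of_nonneg (by linarith)] at h4
  push_cast at h4 ⊢
  linarith

/-- **for almost all `b` the constant of `c0 + b` is close to its partial product** -/
theorem hl_avg (η : ℝ) (hη : 0 < η) : ∃ y1 : ℕ, ∀ y : ℕ, y1 ≤ y → ∀ c0 : ℤ, ∀ᶠ H : ℕ in atTop,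
    (((Icc 1 H).filter (fun b : ℕ => η < |hlY y (c0 + (b : ℤ)) - hlC (c0 + (b : ℤ))|)).card : ℝ) ≤
      η * H := by
  classical
  have ht : Tendsto (fun y : ℕ => Real.sqrt (Real.sqrt (y : ℝ))) atTop atTop :=
    Real.tendsto_sqrt_atTop.comp (Real.tendsto_sqrt_atTop.comp tendsto_natCast_atTop_atTop)
  obtain ⟨y1, hy1⟩ := eventually_atTop.1 (ht.eventually_ge_atTop (40 / η + 4 / η + 3))
  refine ⟨max y1 1, fun y hy c0 => ?_⟩
  have hy1' := hy1 y ((le_max_left _ _).trans hy)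
  have hyy : 1 ≤ y := (le_max_right _ _).trans hy
  have hy0 : (0 : ℝ) < y := by exact_mod_cast hyy
  set s : ℝ := Real.sqrt y with hs
  set u : ℝ := Real.sqrt s with hu
  have hu1 : 40 / η ≤ u := by
    have : 0 < 4 / η := by positivity
    linarith
  have hu2 : 4 / η ≤ u := by
    have : 0 < 40 / η := by positivity
    linarith
  have hu3 : 3 ≤ u := by
    have h1 : 0 < 40 / η := by positivity
    have h2 : 0 < 4 / η := by positivity
    linarith
  have hu0 : 0 < u := by linarith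
  have hsu : s = u ^ 2 := (Real.sq_sqrt (Real.sqrt_nonneg _)).symm
  have hyu : (y : ℝ) = u ^ 4 := by
    have h1 : (y : ℝ) = s ^ 2 := (Real.sq_sqrt hy0.le).symm
    rw [h1, hsu]
    ring
  set σ : ℝ := 1 / u ^ 3 with hσ
  have hσ0 : 0 < σ := by positivity
  have hσ1 : 3 * σ ≤ 1 := by
    rw [hσ, mul_one_div, div_le_one (by positivity)]
    have h1 : (3 : ℝ) ^ 3 ≤ u ^ 3 := pow_le_pow_left₀ (by norm_num) hu3 3
    linarith
  filter_upwards [log_small c0 (1 / (y : ℝ)) (by positivity),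
    tendsto_natCast_atTop_atTop.eventually_ge_atTop (2 / η)] with H hlog hH
  have hH0 : (0 : ℝ) ≤ H := Nat.cast_nonneg _
  have hsum : ∑ b ∈ Icc 1 H, big y (c0 + (b : ℤ)) ≤ 2 * (H / (y : ℝ)) := by
    refine (sum_big y hyy c0 H).trans ?_
    have : 1 / (y : ℝ) * H = H / y := by ring
    rw [this] at hlog
    linarith
  set T : Finset ℕ := (Icc 1 H).filter (fun b : ℕ => σ < big y (c0 + (b : ℤ))) with hT
  have hTc : (T.card : ℝ) * σ ≤ 2 * (H / (y : ℝ)) := by
    refine le_trans ?_ hsum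
    calc (T.card : ℝ) * σ = ∑ _b ∈ T, σ := by rw [Finset.sum_const, nsmul_eq_mul]
      _ ≤ ∑ b ∈ T, big y (c0 + (b : ℤ)) :=
          Finset.sum_le_sum fun b hb => (Finset.mem_filter.1 hb).2.le
      _ ≤ ∑ b ∈ Icc 1 H, big y (c0 + (b : ℤ)) :=
          Finset.sum_le_sum_of_subset_of_nonneg (Finset.filter_subset _ _) fun _ _ _ => big_nonneg _ _
  have hTc2 : (T.card : ℝ) ≤ η / 2 * H := by
    have h1 : (T.card : ℝ) ≤ 2 * (H / (y : ℝ)) / σ := by
      rw [le_div_iff₀ hσ0]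
      exact hTc
    have h2 : 2 * (H / (y : ℝ)) / σ = 2 / u * H := by
      rw [hσ, hyu]
      field_simp
    rw [h2] at h1
    refine h1.trans ?_
    have h3 : 2 / u ≤ η / 2 := by
      rw [div_le_iff₀ hu0]
      rw [div_le_iff₀ hη] at hu2
      linarith
    exact mul_le_mul_of_nonneg_right h3 hH0
  have hZ : (((Icc 1 H).filter (fun b : ℕ => c0 + (b : ℤ) = 0)).card : ℝ) ≤ 1 := by
    have : ((Icc 1 H).filter (fun b : ℕ => c0 + (b : ℤ) = 0)).card ≤ 1 := by
      rw [Finset.card_le_one]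
      intro a ha b hb
      have h1 := (Finset.mem_filter.1 ha).2
      have h2 := (Finset.mem_filter.1 hb).2
      omega
    exact_mod_cast this
  have hsub : (Icc 1 H).filter (fun b : ℕ => η < |hlY y (c0 + (b : ℤ)) - hlC (c0 + (b : ℤ))|) ⊆
      T ∪ (Icc 1 H).filter (fun b : ℕ => c0 + (b : ℤ) = 0) := by
    intro b hb
    by_contra hcon
    rw [mem_filter] at hb
    simp only [mem_union, hT, mem_filter, not_or, not_and, not_lt] at hcon
    have h1 := hl_diff y hyy (c0 + (b : ℤ)) (hcon.2 hb.1) σ hσ1 (hcon.1 hb.1)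
    have h2 : 16 / Real.sqrt y + 24 * Real.sqrt y * σ ≤ η := by
      rw [← hs, hσ, hsu]
      have h3 : 24 * u ^ 2 * (1 / u ^ 3) = 24 / u := by field_simp
      have h4 : 16 / u ^ 2 ≤ 16 / u := by
        apply div_le_div_of_nonneg_left (by norm_num) hu0
        nlinarith
      have h5 : 40 / u ≤ η := by
        rw [div_le_iff₀ hu0]
        rw [div_le_iff₀ hη] at hu1
        linarith
      rw [h3]
      have h6 : 16 / u + 24 / u = 40 / u := by ring
      linarith
    linarith [hb.2]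
  calc _ ≤ ((T ∪ (Icc 1 H).filter (fun b : ℕ => c0 + (b : ℤ) = 0)).card : ℝ) := by
        exact_mod_cast card_le_card hsub
    _ ≤ (T.card : ℝ) + (((Icc 1 H).filter (fun b : ℕ => c0 + (b : ℤ) = 0)).card : ℝ) := by
        exact_mod_cast card_union_le _ _
    _ ≤ η / 2 * H + 1 := by gcongr
    _ ≤ η * H := by
        have h1 : 1 ≤ η / 2 * (H : ℝ) := by
          rw [div_le_iff₀ hη] at hH
          linarith
        linarith

end Pool.Agent.PnHL
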