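import Pool.Agent.PnHL.Var

/-!
# Variance of the number of primes in one residue class of pairs
-/

open Finset Filter

namespace Pool.Agent.PnHL

open Pool.Agent.PnPoly Pool.Agent.PnMaynard Pool.Agent.PnMaynard2

/-- variance in one class -/
theorem class_var (n0 C0 g N N' K X : ℕ) (E : ℝ) (Q R : ℕ → ℕ) (α β : ℕ) (S : Finset ℕ)
    (D2 : ℝ) (hmono : ∀ m n, n0 ≤ m → m < n → R m < R n) (hpos : ∀ n, n0 ≤ n → 1 ≤ R n)
    (hle : ∀ n, n0 ≤ n → R n ≤ n ^ C0) (hg0 : 1 ≤ g) (hg2 : 2 ∣ g) (hN : 1 ≤ N)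
    (hN' : N ^ C0 ≤ N') (hE : 0 ≤ E) (hSW : SWH X (2 * g * N') E)
    (hS : ∀ n ∈ S, n0 ≤ n ∧ 1 ≤ n ∧ n ≤ N ∧ (pr n + 2 * (Q n + β + α * R n)).Coprime g)
    (hD2 : 0 ≤ D2)
    (hcorr : ∑ m ∈ S, ∑ n ∈ S, (if m = n then (0 : ℝ) else
      ∏ l ∈ (dd (R m) (R n)).primeFactors.filter (fun l => ¬ l ∣ g), ((l:ℝ) / ((l:ℝ) - 1))) ≤
      (S.card : ℝ) ^ 2 + D2)
    (hX : ∀ n ∈ S, pr n + 2 * (Q n + β + α * R n) + 2 * g * (K + K * R n) ≤ X) :
    ∑ t ∈ Ioc 0 K ×ˢ Ioc 0 K,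
      (∑ n ∈ S, w (pr n + 2 * (Q n + β + α * R n) + 2 * g * (t.1 + t.2 * R n)) -
        (((2 * g : ℕ) : ℝ) / (2 * g).totient) * S.card) ^ 2 ≤
      (((2 * g : ℕ) : ℝ) / (2 * g).totient) ^ 2 * (K:ℝ) ^ 2 * D2 +
      (S.card * Real.log X * (K * ((((2 * g : ℕ) : ℝ) / (2 * g).totient) * K + 2 * E)) +
        (S.card : ℝ) ^ 2 * ((((2 * g : ℕ) : ℝ) * (N' : ℝ) ^ 2 * K * (2 * E + Real.log X) +
          2 * E * (K * (1 + N')) * Real.log X) +
          4 * (((2 * g : ℕ) : ℝ) / (2 * g).totient) * E * K)) := by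
  classical
  have hlogX : 0 ≤ Real.log X := Real.log_natCast_nonneg X
  set G := 2 * g with hG
  have hG1 : 1 ≤ G := by omega
  set κ := (G:ℝ) / G.totient with hκ
  have hκ0 : 0 ≤ κ := by positivity
  rcases S.eq_empty_or_nonempty with hSe | hSne
  · subst hSe
    simp only [Finset.sum_empty, Finset.card_empty, Nat.cast_zero, mul_zero, sub_zero, zero_mul,
      ne_eq, OfNat.ofNat_ne_zero, not_false_eq_true, zero_pow, Finset.sum_const_zero, add_zero]
    positivity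
  have hcard0 : (0:ℝ) < S.card := by exact_mod_cast hSne.card_pos
  set η : ℝ := 1 / S.card with hη
  have hη0 : 0 ≤ η := by positivity
  set B : ℕ → ℕ := fun n => pr n + 2 * (Q n + β + α * R n) with hB
  have hSn0 : ∀ n ∈ S, n0 ≤ n := fun n hn => (hS n hn).1
  have hSR : ∀ n ∈ S, 1 ≤ R n ∧ R n ≤ N ^ C0 := by
    intro n hn
    have h1 := hS n hn
    exact ⟨hpos n h1.1, (hle n h1.1).trans (Nat.pow_le_pow_left h1.2.2.1 C0)⟩
  have hinj : Set.InjOn R (S : Set ℕ) := by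
    intro m hm n hn h
    have hm' := hSn0 m (mem_coe.1 hm)
    have hn' := hSn0 n (mem_coe.1 hn)
    rcases lt_trichotomy m n with h1 | h1 | h1
    · have := hmono m n hm' h1; omega
    · exact h1
    · have := hmono n m hn' h1; omega
  set φ : ℕ → ℕ := Function.invFunOn R (S : Set ℕ) with hφ
  have hφR : ∀ n ∈ S, φ (R n) = n := fun n hn => hinj.leftInvOn_invFunOn (mem_coe.2 hn)
  set J := S.image R with hJ
  set B' : ℕ → ℕ := fun s => B (φ s) with hB'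
  have hvv : ∀ t0 t1 : ℕ, ∀ n ∈ S, vv B' G t0 t1 (R n) = B n + G * (t0 + t1 * R n) := by
    intro t0 t1 n hn
    unfold vv
    simp only [hB']
    rw [hφR n hn]
  have hXJ : ∀ s ∈ J, B' s + G * (K + K * s) ≤ X := by
    intro s hs
    obtain ⟨n, hn, rfl⟩ := mem_image.1 hs
    simp only [hB']
    rw [hφR n hn]
    exact hX n hn
  have hBJ : ∀ s ∈ J, (B' s).Coprime G := by
    intro s hs
    obtain ⟨n, hn, rfl⟩ := mem_image.1 hs
    simp only [hB']
    rw [hφR n hn]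
    have h7 : (B n).Coprime g := (hS n hn).2.2.2
    have h8 : (B n).Coprime 2 := h7.coprime_dvd_right hg2
    exact Nat.Coprime.mul_right h8 h7
  have hJcard : J.card = S.card := card_image_of_injOn hinj
  have hJ1 : ∑ s ∈ J, (fun _ : ℕ => η) s = 1 := by
    rw [sum_const, nsmul_eq_mul, hJcard, hη, mul_one_div_cancel hcard0.ne']
  have hgsle : ∀ m ∈ S, ∀ n ∈ S, m ≠ n → gs G B' (R m) (R n) ≤
      ∏ l ∈ (dd (R m) (R n)).primeFactors.filter (fun l => ¬ l ∣ g), ((l:ℝ) / ((l:ℝ) - 1)) := by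
    intro m hm n hn hmn
    unfold gs
    have hcomm : (R n - R m) + (R m - R n) = dd (R m) (R n) := by
      unfold dd
      rw [add_comm]
    rw [hcomm]
    refine prod_mono_set ?_ fun l hl => ratio_ge_one
      (Nat.prime_of_mem_primeFactors (mem_filter.1 hl).1)
    intro l hl
    rw [mem_filter] at hl ⊢
    exact ⟨hl.1, fun h => hl.2.1 (h.mul_left 2)⟩
  have hΓ : ∑ m ∈ J, ∑ n ∈ J, (if m = n then 0 else (fun _ : ℕ => η) m * (fun _ : ℕ => η) n *
      gs G B' m n) ≤ 1 + D2 / (S.card : ℝ) ^ 2 := by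
    have h0 : ∑ m ∈ J, ∑ n ∈ J, (if m = n then 0 else (fun _ : ℕ => η) m * (fun _ : ℕ => η) n *
        gs G B' m n) ≤ η ^ 2 * ∑ m ∈ S, ∑ n ∈ S, (if m = n then (0 : ℝ) else
        ∏ l ∈ (dd (R m) (R n)).primeFactors.filter (fun l => ¬ l ∣ g),
          ((l:ℝ) / ((l:ℝ) - 1))) := by
      rw [hJ, sum_image hinj, mul_sum]
      refine sum_le_sum fun m hm => ?_
      rw [sum_image hinj, mul_sum]
      refine sum_le_sum fun n hn => ?_
      by_cases hmn : m = n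
      · rw [if_pos (by rw [hmn]), if_pos hmn, mul_zero]
      · rw [if_neg (fun h => hmn (hinj hm hn h)), if_neg hmn]
        simp only
        rw [← sq]
        exact mul_le_mul_of_nonneg_left (hgsle m hm n hn hmn) (sq_nonneg _)
    refine h0.trans ?_
    have h1 := mul_le_mul_of_nonneg_left hcorr (sq_nonneg η)
    refine h1.trans (le_of_eq ?_)
    rw [hη]
    field_simp
  have hN'1 : 1 ≤ N' := le_trans (Nat.one_le_pow _ _ (by omega)) hN'
  have hvar := var_le (K := K) (N := N') (X := X) (G := G) (E := E) (B := B') hE hSW hG1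
    hN'1 (I := J) (fun s hs => by
      obtain ⟨n, hn, rfl⟩ := mem_image.1 hs
      exact ⟨(hSR n hn).1, (hSR n hn).2.trans hN'⟩) (ν := fun _ => η) (fun n _ => hη0) hJ1
    (η := η) (fun n _ => le_rfl) hXJ hBJ hΓ
  rw [← hκ] at hvar
  have hFF : ∀ t : ℕ × ℕ, ∑ n ∈ S, w (pr n + 2 * (Q n + β + α * R n) + G * (t.1 + t.2 * R n)) -
      κ * S.card = S.card * (FF B' G J (fun _ => η) t - κ) := by
    intro t
    unfold FF
    rw [hJ, sum_image hinj, mul_sub, mul_sum]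
    have h1 : ∑ n ∈ S, w (pr n + 2 * (Q n + β + α * R n) + G * (t.1 + t.2 * R n)) =
        ∑ n ∈ S, (S.card : ℝ) * (η * w (vv B' G t.1 t.2 (R n))) := by
      refine sum_congr rfl fun n hn => ?_
      rw [hvv _ _ n hn, ← mul_assoc, hη, mul_one_div_cancel hcard0.ne', one_mul]
    rw [h1, mul_comm κ]
  simp only [hFF, mul_pow]
  rw [← mul_sum]
  have h2 := mul_le_mul_of_nonneg_left hvar (sq_nonneg (S.card : ℝ))
  refine h2.trans (le_of_eq ?_)
  have h3 : (1 + D2 / (S.card : ℝ) ^ 2 - 1) = D2 / (S.card : ℝ) ^ 2 := by ring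
  rw [h3, hη]
  field_simp
  ring

end Pool.Agent.PnHL
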