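import Pool.Agent.PnLG.Defs
import Pool.Agent.HL26.Sing

/-!
# The Hardy-Littlewood constant of the pair `p, p + 2h` and its partial products
-/

open Finset Filter
open scoped Topology

namespace Pool.Agent.PnHL

open Pool.Agent.PnLG (Py)

/-- factor of the twin prime constant -/
noncomputable def tw (p : ℕ) : ℝ := if p = 2 then 1 else 1 - 1 / ((p : ℝ) - 1) ^ 2

/-- factor at the primes dividing `h` -/
noncomputable def gw (p : ℕ) : ℝ := if p = 2 then 1 else ((p : ℝ) - 1) / ((p : ℝ) - 2)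

/-- the twin prime constant `∏_{p > 2} (1 - 1/(p-1)^2)` -/
noncomputable def TW : ℝ := ∏' p : Nat.Primes, tw (p : ℕ)

/-- the Hardy-Littlewood constant of the pair `p, p + 2h` -/
noncomputable def hlC (h : ℤ) : ℝ := 2 * TW * ∏ p ∈ h.natAbs.primeFactors, gw p

/-- its partial product over the primes `≤ y` -/
noncomputable def hlY (y : ℕ) (h : ℤ) : ℝ :=
  2 * (∏ p ∈ Py y, tw p) * ∏ p ∈ (Py y).filter (fun p : ℕ => (p : ℤ) ∣ h), gw p

lemma Py_prime {y p : ℕ} (hp : p ∈ Py y) : p.Prime := (Finset.mem_filter.1 hp).2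

/-- the deficit of `tw` -/
noncomputable def tdef (p : ℕ) : ℝ := if p = 2 then 0 else 1 / ((p : ℝ) - 1) ^ 2

lemma tw_eq (p : ℕ) : tw p = 1 - tdef p := by
  unfold tw tdef
  split_ifs <;> ring

lemma tdef_nonneg (p : ℕ) : 0 ≤ tdef p := by
  unfold tdef
  split_ifs
  · exact le_rfl
  · positivity

lemma tdef_le {p : ℕ} (hp : p.Prime) : tdef p ≤ 4 * (1 / (p : ℝ) ^ 2) := by
  unfold tdef
  split_ifs with h
  · positivity
  · have h2 : (2 : ℝ) ≤ p := by exact_mod_cast hp.two_le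
    rw [mul_one_div, div_le_div_iff₀ (by nlinarith) (by positivity)]
    nlinarith

lemma tdef_le_one {p : ℕ} (hp : p.Prime) : tdef p ≤ 1 := by
  refine (tdef_le hp).trans ?_
  have h2 : (2 : ℝ) ≤ p := by exact_mod_cast hp.two_le
  rw [mul_one_div, div_le_one (by positivity)]
  nlinarith

lemma tw_nonneg {p : ℕ} (hp : p.Prime) : 0 ≤ tw p := by
  rw [tw_eq]
  linarith [tdef_le_one hp]

lemma tw_le_one (p : ℕ) : tw p ≤ 1 := by
  rw [tw_eq]
  linarith [tdef_nonneg p]

lemma multipliable_tw : Multipliable (fun p : Nat.Primes => tw (p : ℕ)) := by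
  have h : Summable (fun p : Nat.Primes => tw (p : ℕ) - 1) := by
    refine Summable.of_norm_bounded (Pool.Agent.HL26.summable_primes_inv_sq.mul_left 4) fun p => ?_
    rw [tw_eq, Real.norm_eq_abs, show (1 : ℝ) - tdef p - 1 = -tdef p by ring, abs_neg,
      abs_of_nonneg (tdef_nonneg _)]
    exact tdef_le p.2
  have := Real.multipliable_one_add_of_summable h
  simpa using this

lemma exists_tail (y : ℕ) (s : Finset Nat.Primes)
    (hs : (Py y).preimage (fun p : Nat.Primes => (p : ℕ)) (fun a _ b _ hab => Subtype.ext hab) ⊆ s) :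
    ∃ T : Finset ℕ, (∀ p ∈ T, y < p) ∧ (∀ p ∈ T, p.Prime) ∧
      ∏ p ∈ s, tw (p : ℕ) = (∏ p ∈ Py y, tw p) * ∏ p ∈ T, tw p := by
  classical
  set S0 := (Py y).preimage (fun p : Nat.Primes => (p : ℕ)) (fun a _ b _ hab => Subtype.ext hab) with hS0
  refine ⟨(s \ S0).map ⟨fun p : Nat.Primes => (p : ℕ), fun _ _ hab => Subtype.ext hab⟩, ?_, ?_, ?_⟩
  · intro p hp
    rw [Finset.mem_map] at hp
    obtain ⟨q, hq, rfl⟩ := hp
    rw [Finset.mem_sdiff] at hq
    have h2 := hq.2
    rw [hS0, Finset.mem_preimage] at h2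
    unfold Py at h2
    rw [Finset.mem_filter, Finset.mem_Icc] at h2
    simp only [Function.Embedding.coeFn_mk]
    by_contra hcon
    exact h2 ⟨⟨q.2.one_lt.le, by omega⟩, q.2⟩
  · intro p hp
    rw [Finset.mem_map] at hp
    obtain ⟨q, hq, rfl⟩ := hp
    exact q.2
  · rw [Finset.prod_map]
    have h1 : (∏ p ∈ Py y, tw p) = ∏ p ∈ S0, tw (p : ℕ) := by
      rw [hS0]
      rw [Finset.prod_preimage (fun p : Nat.Primes => (p : ℕ)) (Py y) _ (fun n => tw n)]
      intro x hx hx2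
      exact absurd ⟨⟨x, Py_prime hx⟩, rfl⟩ hx2
    rw [h1, mul_comm]
    exact (Finset.prod_sdiff hs).symm

lemma prodPy_nonneg (y : ℕ) : 0 ≤ ∏ p ∈ Py y, tw p := Finset.prod_nonneg fun _ hp => tw_nonneg (Py_prime hp)

lemma prodPy_le_one (y : ℕ) : ∏ p ∈ Py y, tw p ≤ 1 :=
  Finset.prod_le_one (fun _ hp => tw_nonneg (Py_prime hp)) fun p _ => tw_le_one p

lemma TW_ge (y : ℕ) (hy : 1 ≤ y) : (∏ p ∈ Py y, tw p) - 4 / y ≤ TW := by
  have h := multipliable_tw.hasProd
  unfold HasProd at h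
  refine ge_of_tendsto h ?_
  rw [SummationFilter.unconditional_filter]
  filter_upwards [Filter.eventually_ge_atTop ((Py y).preimage (fun p : Nat.Primes => (p : ℕ))
    (fun a _ b _ hab => Subtype.ext hab))] with s hs
  obtain ⟨T, hT, hTp, heq⟩ := exists_tail y s hs
  rw [heq]
  have h1 : 1 - 4 / (y : ℝ) ≤ ∏ p ∈ T, tw p := by
    have h2 := Pool.Agent.HL26.one_sub_sum_le_prod T (fun p => tdef p) (fun p _ => tdef_nonneg p)
      (fun p hp => tdef_le_one (hTp p hp))
    have h3 : ∑ p ∈ T, tdef p ≤ 4 / (y : ℝ) := by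
      calc ∑ p ∈ T, tdef p ≤ ∑ p ∈ T, 4 * (1 / (p : ℝ) ^ 2) :=
            Finset.sum_le_sum fun p hp => tdef_le (hTp p hp)
        _ = 4 * ∑ p ∈ T, 1 / (p : ℝ) ^ 2 := by rw [Finset.mul_sum]
        _ ≤ 4 * (1 / (y : ℝ)) := by
            gcongr
            exact Pool.Agent.HL26.sum_inv_sq_gt y hy T hT
        _ = 4 / (y : ℝ) := by ring
    have h4 : ∏ p ∈ T, tw p = ∏ p ∈ T, (1 - tdef p) := Finset.prod_congr rfl fun p _ => tw_eq p
    rw [h4]
    linarith
  have h5 := prodPy_nonneg y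
  have h6 := prodPy_le_one y
  have h7 : (0 : ℝ) ≤ 4 / y := by positivity
  have h8 : (∏ p ∈ Py y, tw p) * (1 - 4 / (y : ℝ)) ≤ (∏ p ∈ Py y, tw p) * ∏ p ∈ T, tw p :=
    mul_le_mul_of_nonneg_left h1 h5
  nlinarith

lemma TW_le (y : ℕ) : TW ≤ ∏ p ∈ Py y, tw p := by
  have h := multipliable_tw.hasProd
  unfold HasProd at h
  refine le_of_tendsto h ?_
  rw [SummationFilter.unconditional_filter]
  filter_upwards [Filter.eventually_ge_atTop ((Py y).preimage (fun p : Nat.Primes => (p : ℕ))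
    (fun a _ b _ hab => Subtype.ext hab))] with s hs
  obtain ⟨T, hT, hTp, heq⟩ := exists_tail y s hs
  rw [heq]
  exact mul_le_of_le_one_right (prodPy_nonneg y)
    (Finset.prod_le_one (fun p hp => tw_nonneg (hTp p hp)) fun p _ => tw_le_one p)

lemma TW_nonneg : 0 ≤ TW := by
  have h := multipliable_tw.hasProd
  unfold HasProd at h
  refine ge_of_tendsto h (Eventually.of_forall fun s => ?_)
  exact Finset.prod_nonneg fun p _ => tw_nonneg p.2

lemma TW_le_one : TW ≤ 1 := (TW_le 1).trans (prodPy_le_one 1)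

lemma gw_ge_one {p : ℕ} (hp : p.Prime) : 1 ≤ gw p := by
  unfold gw
  split_ifs with h
  · exact le_rfl
  · have h2 : (3 : ℝ) ≤ p := by
      have := hp.two_le
      exact_mod_cast (show 3 ≤ p by omega)
    rw [le_div_iff₀ (by linarith)]
    linarith

lemma gw_le {p : ℕ} (hp : p.Prime) : gw p ≤ 1 + 3 / (p : ℝ) := by
  unfold gw
  split_ifs with h
  · have : (0 : ℝ) ≤ 3 / (p : ℝ) := by positivity
    linarith
  · have h2 : (3 : ℝ) ≤ p := by
      have := hp.two_le
      exact_mod_cast (show 3 ≤ p by omega)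
    rw [div_le_iff₀ (by linarith)]
    have h3 : (1 + 3 / (p : ℝ)) * ((p : ℝ) - 2) = (p : ℝ) + 1 - 6 / p := by
      field_simp
      ring
    rw [h3]
    have h4 : 6 / (p : ℝ) ≤ 2 := by
      rw [div_le_iff₀ (by linarith)]
      linarith
    linarith

lemma prod_step (g : ℕ → ℝ) (n : ℕ) : ∏ p ∈ Py (n + 1), g p =
    (∏ p ∈ Py n, g p) * (if (n + 1).Prime then g (n + 1) else 1) := by
  unfold Py
  rw [Finset.prod_filter, Finset.prod_filter, Finset.prod_Icc_succ_top (by omega)]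

/-- a crude bound for the full product over the primes `≤ y` -/
lemma prod_gw_odd (j : ℕ) : ∏ p ∈ Py (2 * j + 1), gw p ≤ 2 * Real.sqrt (2 * j + 1 / 2) := by
  induction j with
  | zero =>
    have h1 : Py (2 * 0 + 1) = ∅ := by decide
    rw [h1, Finset.prod_empty]
    have h2 : (1 / 2 : ℝ) ≤ Real.sqrt (2 * ((0 : ℕ) : ℝ) + 1 / 2) := by
      apply Real.le_sqrt_of_sq_le
      norm_num
    linarith
  | succ j ih =>
    have e1 : 2 * (j + 1) + 1 = (2 * j + 2) + 1 := by ring
    have e2 : 2 * j + 2 = (2 * j + 1) + 1 := by ring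
    rw [e1, prod_step, e2, prod_step]
    have h2 : (if (2 * j + 1 + 1).Prime then gw (2 * j + 1 + 1) else 1) = 1 := by
      split_ifs with h
      · have h3 : 2 * j + 1 + 1 = 2 := by
          rcases h.eq_two_or_odd with h4 | h4
          · exact h4
          · omega
        rw [h3]
        simp [gw]
      · rfl
    rw [h2, mul_one]
    have hM : 0 ≤ ∏ p ∈ Py (2 * j + 1), gw p :=
      Finset.prod_nonneg fun p hp => le_trans zero_le_one (gw_ge_one (Py_prime hp))
    have hn : (0 : ℝ) < 2 * (j : ℝ) + 1 := by positivity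
    have h3 : (if (2 * j + 1 + 1 + 1).Prime then gw (2 * j + 1 + 1 + 1) else 1) ≤
        (2 * (j : ℝ) + 2) / (2 * (j : ℝ) + 1) := by
      split_ifs with h
      · unfold gw
        rw [if_neg (by omega)]
        push_cast
        apply le_of_eq
        congr 1 <;> ring
      · rw [le_div_iff₀ hn]
        linarith
    refine (mul_le_mul ih h3 ?_ (by positivity)).trans ?_
    · split_ifs with h
      · exact le_trans zero_le_one (gw_ge_one h)
      · exact zero_le_one
    · have h4 : Real.sqrt (2 * (j : ℝ) + 1 / 2) * ((2 * (j : ℝ) + 2) / (2 * (j : ℝ) + 1)) ≤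
          Real.sqrt (2 * ((j + 1 : ℕ) : ℝ) + 1 / 2) := by
        apply Real.le_sqrt_of_sq_le
        rw [mul_pow, Real.sq_sqrt (by positivity), div_pow, mul_div_assoc', div_le_iff₀ (by positivity)]
        push_cast
        nlinarith
      calc 2 * Real.sqrt (2 * (j : ℝ) + 1 / 2) * ((2 * (j : ℝ) + 2) / (2 * (j : ℝ) + 1))
          = 2 * (Real.sqrt (2 * (j : ℝ) + 1 / 2) * ((2 * (j : ℝ) + 2) / (2 * (j : ℝ) + 1))) := by ring
        _ ≤ _ := by linarith

lemma prod_gw_le (y : ℕ) (hy : 1 ≤ y) : ∏ p ∈ Py y, gw p ≤ 2 * Real.sqrt y := by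
  rcases Nat.even_or_odd' y with ⟨j, hj | hj⟩
  · obtain ⟨i, rfl⟩ : ∃ i, j = i + 1 := ⟨j - 1, by omega⟩
    have e2 : y = (2 * i + 1) + 1 := by omega
    have h1 := prod_gw_odd i
    rw [e2, prod_step]
    have h2 : (if (2 * i + 1 + 1).Prime then gw (2 * i + 1 + 1) else 1) = 1 := by
      split_ifs with h
      · have h3 : 2 * i + 1 + 1 = 2 := by
          rcases h.eq_two_or_odd with h4 | h4
          · exact h4
          · omega
        rw [h3]
        simp [gw]
      · rfl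
    rw [h2, mul_one]
    refine h1.trans ?_
    have h3 : Real.sqrt (2 * (i : ℝ) + 1 / 2) ≤ Real.sqrt ((2 * i + 1 + 1 : ℕ) : ℝ) := by
      apply Real.sqrt_le_sqrt
      push_cast
      linarith
    linarith
  · rw [hj]
    refine (prod_gw_odd j).trans ?_
    have h3 : Real.sqrt (2 * (j : ℝ) + 1 / 2) ≤ Real.sqrt ((2 * j + 1 : ℕ) : ℝ) := by
      apply Real.sqrt_le_sqrt
      push_cast
      linarith
    linarith

lemma gy_le (y : ℕ) (hy : 1 ≤ y) (h : ℤ) :
    ∏ p ∈ (Py y).filter (fun p : ℕ => (p : ℤ) ∣ h), gw p ≤ 2 * Real.sqrt y := by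
  refine le_trans ?_ (prod_gw_le y hy)
  rw [Finset.prod_filter]
  refine Finset.prod_le_prod (fun p hp => ?_) fun p hp => ?_
  · split_ifs
    · exact le_trans zero_le_one (gw_ge_one (Py_prime hp))
    · exact zero_le_one
  · split_ifs
    · exact le_rfl
    · exact gw_ge_one (Py_prime hp)

lemma gy_nonneg (y : ℕ) (h : ℤ) : 0 ≤ ∏ p ∈ (Py y).filter (fun p : ℕ => (p : ℤ) ∣ h), gw p :=
  Finset.prod_nonneg fun p hp => le_trans zero_le_one (gw_ge_one (Py_prime (Finset.mem_filter.1 hp).1))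

/-- the primes dividing `h`, small and large -/
lemma split_factors (y : ℕ) (h : ℤ) (hh : h ≠ 0) :
    ∏ p ∈ h.natAbs.primeFactors, gw p = (∏ p ∈ (Py y).filter (fun p : ℕ => (p : ℤ) ∣ h), gw p) *
      ∏ p ∈ h.natAbs.primeFactors.filter (fun p => y < p), gw p := by
  have h1 := Finset.prod_filter_mul_prod_filter_not h.natAbs.primeFactors (fun p => ¬ y < p) gw
  rw [← h1]
  congr 1
  · refine Finset.prod_congr ?_ fun _ _ => rfl
    ext p
    rw [Finset.mem_filter, Finset.mem_filter, Nat.mem_primeFactors]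
    unfold Py
    rw [Finset.mem_filter, Finset.mem_Icc, Int.natCast_dvd]
    have : h.natAbs ≠ 0 := Int.natAbs_ne_zero.2 hh
    constructor
    · rintro ⟨⟨hp, hd, -⟩, hy⟩
      exact ⟨⟨⟨hp.one_lt.le, by omega⟩, hp⟩, hd⟩
    · rintro ⟨⟨⟨-, hy⟩, hp⟩, hd⟩
      exact ⟨⟨hp, hd, this⟩, by omega⟩
  · refine Finset.prod_congr ?_ fun _ _ => rfl
    ext p
    rw [Finset.mem_filter, Finset.mem_filter, not_not]

/-- comparison of the constant with its partial product -/
lemma hl_diff (y : ℕ) (hy : 1 ≤ y) (h : ℤ) (hh : h ≠ 0) (σ : ℝ) (hσ1 : 3 * σ ≤ 1)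
    (hσ : ∑ p ∈ h.natAbs.primeFactors.filter (fun p => y < p), 1 / (p : ℝ) ≤ σ) :
    |hlY y h - hlC h| ≤ 16 / Real.sqrt y + 24 * Real.sqrt y * σ := by
  set G := ∏ p ∈ (Py y).filter (fun p : ℕ => (p : ℤ) ∣ h), gw p with hG
  set E := ∏ p ∈ h.natAbs.primeFactors.filter (fun p => y < p), gw p with hE
  set T := ∏ p ∈ Py y, tw p with hT
  have hG0 : 0 ≤ G := gy_nonneg y h
  have hG1 : G ≤ 2 * Real.sqrt y := gy_le y hy h
  have hy0 : (0 : ℝ) < y := by exact_mod_cast hy
  have hs0 : 0 < Real.sqrt y := Real.sqrt_pos.2 hy0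
  have hσ0 : 0 ≤ σ := le_trans (Finset.sum_nonneg fun _ _ => by positivity) hσ
  have hprime : ∀ p ∈ h.natAbs.primeFactors.filter (fun p => y < p), p.Prime := fun p hp =>
    Nat.prime_of_mem_primeFactors (Finset.mem_filter.1 hp).1
  have hE1 : 1 ≤ E := by
    rw [hE]
    have := Finset.prod_le_prod (s := h.natAbs.primeFactors.filter (fun p => y < p)) (f := fun _ => (1 : ℝ))
      (g := gw) (fun _ _ => zero_le_one) (fun p hp => gw_ge_one (hprime p hp))
    simpa using this
  have hE2 : E ≤ 1 + 6 * σ := by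
    have h1 : E ≤ Real.exp (3 * σ) := by
      calc E ≤ ∏ p ∈ h.natAbs.primeFactors.filter (fun p => y < p), Real.exp (3 * (1 / (p : ℝ))) := by
            refine Finset.prod_le_prod (fun p hp => le_trans zero_le_one (gw_ge_one (hprime p hp)))
              fun p hp => ?_
            refine (gw_le (hprime p hp)).trans ?_
            have := Real.add_one_le_exp (3 * (1 / (p : ℝ)))
            rw [mul_one_div] at this ⊢
            linarith
        _ = Real.exp (∑ p ∈ h.natAbs.primeFactors.filter (fun p => y < p), 3 * (1 / (p : ℝ))) :=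
            (Real.exp_sum _ _).symm
        _ ≤ Real.exp (3 * σ) := by
            rw [← Finset.mul_sum]
            exact Real.exp_le_exp.2 (by linarith)
    have h2 : Real.exp (3 * σ) ≤ 1 + 2 * (3 * σ) := by
      have h3 := Real.abs_exp_sub_one_le (x := 3 * σ) (by rw [abs_of_nonneg (by positivity)]; exact hσ1)
      rw [abs_of_nonneg (show (0 : ℝ) ≤ 3 * σ by positivity)] at h3
      linarith [(abs_le.1 h3).2]
    linarith
  have e1 : hlC h = 2 * TW * (G * E) := by
    unfold hlC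
    rw [split_factors y h hh]
  have e2 : hlY y h = 2 * T * G := rfl
  have hTd1 := TW_ge y hy
  have hTd2 := TW_le y
  have hT0 := TW_nonneg
  have hT1 := TW_le_one
  rw [← hT] at hTd1 hTd2
  have hsq : Real.sqrt y * Real.sqrt y = y := Real.mul_self_sqrt hy0.le
  have h4 : 4 / (y : ℝ) * (2 * Real.sqrt y) = 8 / Real.sqrt y := by
    rw [div_mul_eq_mul_div, div_eq_div_iff hy0.ne' hs0.ne',
      show 4 * (2 * Real.sqrt y) * Real.sqrt y = 8 * (Real.sqrt y * Real.sqrt y) by ring, hsq]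
  have e3 : hlY y h - hlC h = 2 * (T - TW) * G - 2 * TW * G * (E - 1) := by
    rw [e1, e2]
    ring
  rw [e3]
  have b1 : 0 ≤ 2 * (T - TW) * G := by
    have : 0 ≤ T - TW := by linarith
    positivity
  have b2 : 2 * (T - TW) * G ≤ 16 / Real.sqrt y := by
    have h5 : (T - TW) * G ≤ 4 / (y : ℝ) * (2 * Real.sqrt y) :=
      mul_le_mul (by linarith) hG1 hG0 (by positivity)
    rw [h4] at h5
    calc 2 * (T - TW) * G = 2 * ((T - TW) * G) := by ring
      _ ≤ 2 * (8 / Real.sqrt y) := by linarith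
      _ = 16 / Real.sqrt y := by ring
  have b3 : 0 ≤ 2 * TW * G * (E - 1) := by
    have : 0 ≤ E - 1 := by linarith
    positivity
  have b4 : 2 * TW * G * (E - 1) ≤ 24 * Real.sqrt y * σ := by
    have h5 : TW * G ≤ 1 * (2 * Real.sqrt y) := mul_le_mul hT1 hG1 hG0 zero_le_one
    have h6 : TW * G * (E - 1) ≤ (1 * (2 * Real.sqrt y)) * (6 * σ) :=
      mul_le_mul h5 (by linarith) (by linarith) (by positivity)
    calc 2 * TW * G * (E - 1) = 2 * (TW * G * (E - 1)) := by ring
      _ ≤ 2 * ((1 * (2 * Real.sqrt y)) * (6 * σ)) := by linarith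
      _ = 24 * Real.sqrt y * σ := by ring
  rw [abs_le]
  constructor
  · have : (0 : ℝ) ≤ 16 / Real.sqrt y := by positivity
    linarith
  · have : (0 : ℝ) ≤ 24 * Real.sqrt y * σ := by positivity
    linarith

end Pool.Agent.PnHL
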