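import Pool.Agent.PnLG.CrtSum
import Pool.Agent.PnHL.Sing

/-!
# Local mean value: the partial product of the Hardy-Littlewood constant
-/

open Finset

namespace Pool.Agent.PnHL

open Pool.Agent.PnLG (Py Ly)

/-- local factor at `p`: both `k` and `k + 2c` prime to `p` -/
noncomputable def lf (c : ℤ) (p k : ℕ) : ℝ :=
  if p ∣ k then 0 else if (p : ℤ) ∣ (k : ℤ) + 2 * c then 0 else (1 - 1 / (p : ℝ))⁻¹

lemma lf_per (c : ℤ) (p k : ℕ) : lf c p (k + p) = lf c p k := by
  unfold lf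
  have h1 : p ∣ k + p ↔ p ∣ k := Nat.dvd_add_self_right
  have h2 : (p : ℤ) ∣ ((k + p : ℕ) : ℤ) + 2 * c ↔ (p : ℤ) ∣ (k : ℤ) + 2 * c := by
    push_cast
    rw [show (k : ℤ) + p + 2 * c = (k + 2 * c) + p by ring]
    exact dvd_add_self_right
  simp only [h1, h2]

lemma sum_lf_dvd (c : ℤ) (p : ℕ) (hp : p.Prime) (h : (p : ℤ) ∣ 2 * c) :
    ∑ k ∈ range p, lf c p k = ((p : ℝ) - 1) * (1 - 1 / (p : ℝ))⁻¹ := by
  rw [Finset.range_eq_Ico, Finset.sum_eq_sum_Ico_succ_bot hp.pos]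
  have h0 : lf c p 0 = 0 := by simp [lf]
  rw [h0, zero_add]
  have h1 : ∀ k ∈ Ico (0 + 1) p, lf c p k = (1 - 1 / (p : ℝ))⁻¹ := by
    intro k hk
    rw [mem_Ico] at hk
    have h2 : ¬ p ∣ k := Nat.not_dvd_of_pos_of_lt (by omega) hk.2
    have h3 : ¬ (p : ℤ) ∣ (k : ℤ) + 2 * c := by
      intro h4
      exact h2 (by exact_mod_cast (dvd_add_left h).1 h4)
    unfold lf
    rw [if_neg h2, if_neg h3]
  rw [Finset.sum_congr rfl h1, Finset.sum_const, Nat.card_Ico, nsmul_eq_mul, Nat.zero_add,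
    Nat.cast_sub hp.one_lt.le, Nat.cast_one]

lemma sum_lf_ndvd (c : ℤ) (p : ℕ) (hp : p.Prime) (h : ¬ (p : ℤ) ∣ 2 * c) :
    ∑ k ∈ range p, lf c p k = ((p : ℝ) - 2) * (1 - 1 / (p : ℝ))⁻¹ := by
  have hp0 : (0 : ℤ) < p := by exact_mod_cast hp.pos
  set w : ℝ := (1 - 1 / (p : ℝ))⁻¹ with hw
  obtain ⟨k0, hk0⟩ : ∃ k0 : ℕ, (k0 : ℤ) = (-(2 * c)) % (p : ℤ) :=
    ⟨((-(2 * c)) % (p : ℤ)).toNat, Int.toNat_of_nonneg (Int.emod_nonneg _ hp0.ne')⟩
  have hk1 : k0 < p := by
    have := Int.emod_lt_of_pos (-(2 * c)) hp0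
    omega
  have hk2 : (p : ℤ) ∣ (k0 : ℤ) + 2 * c := by
    have h1 : (p : ℤ) ∣ -(2 * c) - (-(2 * c)) % (p : ℤ) := Int.dvd_self_sub_emod
    rw [← hk0] at h1
    have h2 := (dvd_neg (a := (p : ℤ))).2 h1
    have h3 : -(-(2 * c) - (k0 : ℤ)) = (k0 : ℤ) + 2 * c := by ring
    rwa [h3] at h2
  have hk3 : k0 ≠ 0 := by
    rintro rfl
    apply h
    simpa using hk2
  have h1 : ∀ k ∈ range p, lf c p k = w - (if k = 0 then w else 0) - (if k = k0 then w else 0) := by
    intro k hk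
    rw [mem_range] at hk
    unfold lf
    by_cases e0 : k = 0
    · subst e0
      rw [if_pos (dvd_zero _), if_pos rfl, if_neg (fun h => hk3 h.symm)]
      ring
    · have h2 : ¬ p ∣ k := Nat.not_dvd_of_pos_of_lt (by omega) hk
      rw [if_neg h2, if_neg e0]
      by_cases e1 : k = k0
      · subst e1
        rw [if_pos hk2, if_pos rfl]
        ring
      · have h3 : ¬ (p : ℤ) ∣ (k : ℤ) + 2 * c := by
          intro h4
          have h5 : (p : ℤ) ∣ (k : ℤ) - k0 := by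
            have := dvd_sub h4 hk2
            have h6 : (k : ℤ) + 2 * c - ((k0 : ℤ) + 2 * c) = (k : ℤ) - k0 := by ring
            rwa [h6] at this
          apply e1
          have h6 := Int.eq_zero_of_abs_lt_dvd h5 (by
            rw [abs_lt]
            constructor <;> omega)
          omega
        rw [if_neg h3, if_neg e1]
        ring
  rw [Finset.sum_congr rfl h1, Finset.sum_sub_distrib, Finset.sum_sub_distrib, Finset.sum_ite_eq',
    Finset.sum_ite_eq', if_pos (mem_range.2 hp.pos), if_pos (mem_range.2 hk1), Finset.sum_const,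
    card_range, nsmul_eq_mul]
  ring

lemma ratio (c : ℤ) (p : ℕ) (hp : p.Prime) :
    ∑ k ∈ range p, lf c p k =
      ((p : ℝ) - 1) * ((if p = 2 then 2 else 1) * tw p * (if (p : ℤ) ∣ c then gw p else 1)) := by
  by_cases h2 : p = 2
  · subst h2
    rw [sum_lf_dvd c 2 hp ⟨c, by push_cast; ring⟩]
    have : gw 2 = 1 := by simp [gw]
    have ht : tw 2 = 1 := by simp [tw]
    rw [this, ht, ite_self, if_pos rfl]
    norm_num
  · have h3 : (3 : ℝ) ≤ p := by
      have := hp.two_le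
      exact_mod_cast (show 3 ≤ p by omega)
    have hpc : (p : ℤ) ∣ 2 * c ↔ (p : ℤ) ∣ c := by
      constructor
      · intro h
        rcases (Nat.prime_iff_prime_int.1 hp).dvd_or_dvd h with h4 | h4
        · exfalso
          have h5 : p ∣ 2 := by exact_mod_cast h4
          exact h2 ((Nat.prime_dvd_prime_iff_eq hp Nat.prime_two).1 h5)
        · exact h4
      · intro h
        exact Dvd.dvd.mul_left h 2
    rw [if_neg h2]
    have e1 : (p : ℝ) - 1 ≠ 0 := by
      intro h; linarith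
    have e2 : (p : ℝ) - 2 ≠ 0 := by
      intro h; linarith
    have e3 : (p : ℝ) ≠ 0 := by
      intro h; linarith
    have hw : (1 - 1 / (p : ℝ))⁻¹ = p / (p - 1) := by
      rw [one_sub_div e3, inv_div]
    by_cases h4 : (p : ℤ) ∣ c
    · rw [if_pos h4, sum_lf_dvd c p hp (hpc.2 h4), hw]
      unfold tw gw
      rw [if_neg h2, if_neg h2]
      field_simp
      ring
    · rw [if_neg h4, sum_lf_ndvd c p hp (fun h => h4 (hpc.1 h)), hw]
      unfold tw
      rw [if_neg h2]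
      field_simp
      ring

lemma coprime_P (y k : ℕ) : Nat.Coprime k (∏ p ∈ Py y, p) ↔ ∀ p ∈ Py y, ¬ p ∣ k := by
  rw [Nat.coprime_prod_right_iff]
  refine forall₂_congr fun p hp => ?_
  rw [Nat.coprime_comm, (Py_prime hp).coprime_iff_not_dvd]

lemma totient_P (y : ℕ) : ((∏ p ∈ Py y, p).totient : ℝ) = ∏ p ∈ Py y, ((p : ℝ) - 1) := by
  classical
  have h := Pool.Agent.PnLG.sum_prod_crt (Py y) (fun p hp => Py_prime hp)
    (fun p k => if p ∣ k then 0 else 1) (fun p _ k => by simp only [Nat.dvd_add_self_right])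
  have h1 : ∀ k : ℕ, ∏ p ∈ Py y, (if p ∣ k then (0 : ℝ) else 1) =
      if Nat.Coprime k (∏ p ∈ Py y, p) then 1 else 0 := by
    intro k
    by_cases hc : Nat.Coprime k (∏ p ∈ Py y, p)
    · rw [if_pos hc]
      refine Finset.prod_eq_one fun p hp => ?_
      rw [if_neg ((coprime_P y k).1 hc p hp)]
    · rw [if_neg hc]
      rw [coprime_P] at hc
      push Not at hc
      obtain ⟨p, hp, hd⟩ := hc
      exact Finset.prod_eq_zero hp (if_pos hd)
  have h2 : ∀ p ∈ Py y, ∑ k ∈ range p, (if p ∣ k then (0 : ℝ) else 1) = (p : ℝ) - 1 := by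
    intro p hp
    have hpp := Py_prime hp
    rw [Finset.range_eq_Ico, Finset.sum_eq_sum_Ico_succ_bot hpp.pos, if_pos (dvd_zero _), zero_add]
    have h3 : ∀ k ∈ Ico (0 + 1) p, (if p ∣ k then (0 : ℝ) else 1) = 1 := by
      intro k hk
      rw [mem_Ico] at hk
      rw [if_neg (Nat.not_dvd_of_pos_of_lt (by omega) hk.2)]
    rw [Finset.sum_congr rfl h3, Finset.sum_const, Nat.card_Ico, nsmul_eq_mul, Nat.zero_add,
      Nat.cast_sub hpp.one_lt.le, Nat.cast_one, mul_one]
  rw [Finset.prod_congr rfl h2] at h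
  rw [← h]
  simp only [h1]
  rw [Finset.sum_ite, Finset.sum_const_zero, add_zero, Finset.sum_const, nsmul_eq_mul, mul_one]
  have h4 : (∏ p ∈ Py y, p).totient = ((range (∏ p ∈ Py y, p)).filter
      (fun k => Nat.Coprime k (∏ p ∈ Py y, p))).card := by
    rw [Nat.totient]
    congr 1
    refine Finset.filter_congr fun a _ => ?_
    exact Nat.coprime_comm
  rw [h4]

/-- **the local mean** of `Λ_y(a + 2c)` over the reduced classes -/
theorem loc_sum (y : ℕ) (hy : 2 ≤ y) (c : ℤ) :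
    ∑ a ∈ (range (∏ p ∈ Py y, p)).filter (fun a => Nat.Coprime a (∏ p ∈ Py y, p)),
      Ly y ((a : ℤ) + 2 * c) = ((∏ p ∈ Py y, p).totient : ℝ) * hlY y c := by
  classical
  have h := Pool.Agent.PnLG.sum_prod_crt (Py y) (fun p hp => Py_prime hp) (lf c) (fun p _ k => lf_per c p k)
  have h1 : ∀ k : ℕ, ∏ p ∈ Py y, lf c p k =
      if Nat.Coprime k (∏ p ∈ Py y, p) then Ly y ((k : ℤ) + 2 * c) else 0 := by
    intro k
    by_cases hc : Nat.Coprime k (∏ p ∈ Py y, p)
    · rw [if_pos hc]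
      unfold Ly
      refine Finset.prod_congr rfl fun p hp => ?_
      unfold lf
      rw [if_neg ((coprime_P y k).1 hc p hp)]
    · rw [if_neg hc]
      rw [coprime_P] at hc
      push Not at hc
      obtain ⟨p, hp, hd⟩ := hc
      exact Finset.prod_eq_zero hp (by unfold lf; exact if_pos hd)
  rw [Finset.sum_filter]
  simp only [h1] at h
  rw [h, totient_P, Finset.prod_congr rfl (fun p hp => ratio c p (Py_prime hp)),
    Finset.prod_mul_distrib, Finset.prod_mul_distrib, Finset.prod_mul_distrib]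
  unfold hlY
  have h2 : (2 : ℕ) ∈ Py y := by
    unfold Py
    rw [Finset.mem_filter, Finset.mem_Icc]
    exact ⟨⟨by omega, hy⟩, Nat.prime_two⟩
  rw [Finset.prod_ite_eq' (Py y) 2 (fun _ => (2 : ℝ)), if_pos h2, Finset.prod_filter]

end Pool.Agent.PnHL
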