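import Pool.Agent.PnHL.Uni
import Pool.Agent.PnHL.ApMean
import Pool.Agent.PnHL.Mean
import Pool.Agent.PnHL.Avg

/-!
# Hardy-Littlewood constants for almost all constant terms
-/

open Finset Filter
open scoped Topology

namespace Pool.Agent.PnHL

open Pool.Agent.PnLG (Py Ly OK sv qv cntP IntVal)
open Pool.Agent.PnPoly.NC (np)

lemma Ly_congr_p (y : ℕ) (m m' : ℤ) (h : ∀ p ∈ Py y, (p : ℤ) ∣ m - m') : Ly y m = Ly y m' := by
  unfold Ly
  refine Finset.prod_congr rfl fun p hp => ?_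
  have : (p : ℤ) ∣ m ↔ (p : ℤ) ∣ m' := Int.dvd_iff_dvd_of_dvd_sub (h p hp)
  simp only [this]

lemma hlY_congr (y : ℕ) (c c' : ℤ) (h : ∀ p ∈ Py y, (p : ℤ) ∣ c - c') : hlY y c = hlY y c' := by
  unfold hlY
  congr 1
  refine Finset.prod_congr ?_ fun _ _ => rfl
  refine Finset.filter_congr fun p hp => ?_
  exact Int.dvd_iff_dvd_of_dvd_sub (h p hp)

/-- mean over the primes, for all the shifts at once -/
lemma mean_shift (y : ℕ) (hy : 2 ≤ y) (η : ℝ) (hη : 0 < η) : ∀ᶠ N : ℕ in atTop, ∀ c : ℤ,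
    |∑ n ∈ range N, Ly y ((np n : ℤ) + 2 * c) - N * hlY y c| ≤ η * N := by
  set P : ℕ := ∏ p ∈ Py y, p with hP
  have hPpos : 0 < P := Finset.prod_pos fun p hp => (Py_prime hp).pos
  have hdP : ∀ p ∈ Py y, (p : ℤ) ∣ (P : ℤ) := fun p hp => by
    rw [hP]
    exact_mod_cast Finset.dvd_prod_of_mem (fun p : ℕ => p) hp
  have ht0 : (P.totient : ℝ) ≠ 0 := by
    have := Nat.totient_pos.2 hPpos
    positivity
  have h1 : ∀ᶠ N : ℕ in atTop, ∀ c ∈ range P,
      |∑ n ∈ range N, Ly y ((np n : ℤ) + 2 * (c : ℤ)) - N * hlY y (c : ℤ)| ≤ η * N := by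
    rw [Filter.eventually_all_finset]
    intro c _
    filter_upwards [ap_mean P hPpos (fun a => Ly y ((a : ℤ) + 2 * (c : ℤ))) (by
      intro k
      refine Ly_congr_p y _ _ fun p hp => ?_
      have h2 : (((k % P : ℕ) : ℤ) + 2 * (c : ℤ)) - ((k : ℤ) + 2 * (c : ℤ)) = -((k : ℤ) - (k : ℤ) % (P : ℤ)) := by
        push_cast
        ring
      rw [h2, dvd_neg]
      exact (hdP p hp).trans Int.dvd_self_sub_emod) η hη] with N hN
    have h3 : (N : ℝ) / (P.totient : ℝ) * ∑ a ∈ (range P).filter (fun a => Nat.Coprime a P),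
        Ly y ((a : ℤ) + 2 * (c : ℤ)) = N * hlY y (c : ℤ) := by
      rw [hP, loc_sum y hy (c : ℤ), ← hP]
      field_simp
    rw [h3] at hN
    exact hN
  filter_upwards [h1] with N hN c
  have hPz : (0 : ℤ) < P := by exact_mod_cast hPpos
  obtain ⟨c', hc'⟩ : ∃ c' : ℕ, (c' : ℤ) = c % (P : ℤ) :=
    ⟨(c % (P : ℤ)).toNat, Int.toNat_of_nonneg (Int.emod_nonneg _ hPz.ne')⟩
  have hc2 : c' < P := by
    have := Int.emod_lt_of_pos c hPz
    omega
  have hd : ∀ p ∈ Py y, (p : ℤ) ∣ c - (c' : ℤ) := fun p hp => by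
    rw [hc']
    exact (hdP p hp).trans Int.dvd_self_sub_emod
  have h4 := hN c' (mem_range.2 hc2)
  rw [hlY_congr y c c' hd]
  have h5 : ∑ n ∈ range N, Ly y ((np n : ℤ) + 2 * c) = ∑ n ∈ range N, Ly y ((np n : ℤ) + 2 * (c' : ℤ)) := by
    refine Finset.sum_congr rfl fun n _ => Ly_congr_p y _ _ fun p hp => ?_
    have h6 : ((np n : ℤ) + 2 * c) - ((np n : ℤ) + 2 * (c' : ℤ)) = 2 * (c - c') := by ring
    rw [h6]
    exact Dvd.dvd.mul_left (hd p hp) 2
  rw [h5]
  exact h4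

/-- **Hardy-Littlewood asymptotics for almost all constant terms**, all polynomials of degree `≤ d` that are
constant modulo the primes `≤ y0(d, ε)`; and the local-to-global principle for all polynomials -/
theorem hl_asymptotic (d : ℕ) (ε : ℝ) (hε : 0 < ε) : ∃ y0 : ℕ,
    (∀ y : ℕ, y0 ≤ y → ∀ Q : Polynomial ℚ, IntVal Q → 0 ≤ Q.leadingCoeff → Q.natDegree ≤ d → ∀ C0 : ℕ,
      ∀ᶠ H : ℕ in atTop, ∀ N : ℕ, OK Q C0 H N →
        (((Icc 1 H).filter (fun b : ℕ => ε * (N / Real.log H) <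
          |(cntP Q N b : ℝ) - (1 / Real.log H) * ∑ n ∈ range N, Ly y (sv Q n + 2 * (b : ℤ))|)).card : ℝ) ≤
          ε * H) ∧
    (∀ Q : Polynomial ℚ, IntVal Q → 0 ≤ Q.leadingCoeff → Q.natDegree ≤ d → ∀ c0 : ℤ,
      (∀ p ∈ Py y0, ∀ n : ℕ, (p : ℤ) ∣ qv Q (n + 1) - c0) → ∀ C0 : ℕ,
      ∀ᶠ H : ℕ in atTop, ∀ N : ℕ, OK Q C0 H N →
        (((Icc 1 H).filter (fun b : ℕ => ε * (N / Real.log H) <
          |(cntP Q N b : ℝ) - hlC (c0 + (b : ℤ)) * (N / Real.log H)|)).card : ℝ) ≤ ε * H) := by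
  classical
  obtain ⟨y1, h1⟩ := local_global_u d (ε / 3) (by positivity)
  obtain ⟨y2, h2⟩ := hl_avg (ε / 3) (by positivity)
  refine ⟨max (max y1 y2) 2, ?_, ?_⟩
  · intro y hy Q hQ hlc hd C0
    have hy1 : y1 ≤ y := (le_max_left _ _).trans ((le_max_left _ _).trans hy)
    filter_upwards [h1 y hy1 Q hQ hlc hd C0, eventually_ge_atTop 3] with H hH hH3 N hN
    have hH0 : (0 : ℝ) ≤ H := Nat.cast_nonneg _
    have hL : 0 < Real.log H := Real.log_pos (by
      have : (3 : ℝ) ≤ H := by exact_mod_cast hH3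
      linarith)
    refine le_trans ?_ ((hH N hN).trans (by nlinarith))
    have hsub : (Icc 1 H).filter (fun b : ℕ => ε * (N / Real.log H) <
          |(cntP Q N b : ℝ) - (1 / Real.log H) * ∑ n ∈ range N, Ly y (sv Q n + 2 * (b : ℤ))|) ⊆
        (Icc 1 H).filter (fun b : ℕ => ε / 3 * (N / Real.log H) <
          |(cntP Q N b : ℝ) - (1 / Real.log H) * ∑ n ∈ range N, Ly y (sv Q n + 2 * (b : ℤ))|) := by
      intro b hb
      rw [mem_filter] at hb ⊢
      refine ⟨hb.1, lt_of_le_of_lt ?_ hb.2⟩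
      have : 0 ≤ (N : ℝ) / Real.log H := by positivity
      nlinarith
    exact_mod_cast card_le_card hsub
  · intro Q hQ hlc hd c0 hmod C0
    set y := max (max y1 y2) 2 with hydef
    have hy1 : y1 ≤ y := (le_max_left _ _).trans (le_max_left _ _)
    have hy2 : y2 ≤ y := (le_max_right _ _).trans (le_max_left _ _)
    have hy3 : 2 ≤ y := le_max_right _ _
    obtain ⟨N1, hN1⟩ := eventually_atTop.1 (mean_shift y hy3 (ε / 3) (by positivity))
    filter_upwards [h1 y hy1 Q hQ hlc hd C0, h2 y hy2 c0, Pool.Agent.PnLG.OK_facts Q C0 N1,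
      eventually_ge_atTop 3] with H hA hB hfacts hH3 N hN
    have hNN : N1 ≤ N := (hfacts N hN).1
    have hm := hN1 N hNN
    have hH0 : (0 : ℝ) ≤ H := Nat.cast_nonneg _
    set L := Real.log H with hLdef
    have hL : 0 < L := Real.log_pos (by
      have : (3 : ℝ) ≤ H := by exact_mod_cast hH3
      linarith)
    have hNL : 0 ≤ (N : ℝ) / L := by positivity
    set A : Finset ℕ := (Icc 1 H).filter (fun b : ℕ => ε / 3 * (N / L) <
          |(cntP Q N b : ℝ) - (1 / L) * ∑ n ∈ range N, Ly y (sv Q n + 2 * (b : ℤ))|) with hAdef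
    set B : Finset ℕ := (Icc 1 H).filter (fun b : ℕ =>
          ε / 3 < |hlY y (c0 + (b : ℤ)) - hlC (c0 + (b : ℤ))|) with hBdef
    have hsub : (Icc 1 H).filter (fun b : ℕ => ε * (N / L) <
          |(cntP Q N b : ℝ) - hlC (c0 + (b : ℤ)) * (N / L)|) ⊆ A ∪ B := by
      intro b hb
      by_contra hcon
      rw [mem_filter] at hb
      simp only [mem_union, hAdef, hBdef, mem_filter, not_or, not_and, not_lt] at hcon
      have g1 := hcon.1 hb.1
      have g2 := hcon.2 hb.1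
      have g3 := hm (c0 + (b : ℤ))
      have h5 : ∑ n ∈ range N, Ly y (sv Q n + 2 * (b : ℤ)) =
          ∑ n ∈ range N, Ly y ((np n : ℤ) + 2 * (c0 + (b : ℤ))) := by
        refine Finset.sum_congr rfl fun n _ => Ly_congr_p y _ _ fun p hp => ?_
        have h6 : (sv Q n + 2 * (b : ℤ)) - ((np n : ℤ) + 2 * (c0 + (b : ℤ))) = 2 * (qv Q (n + 1) - c0) := by
          unfold sv
          ring
        rw [h6]
        exact Dvd.dvd.mul_left (hmod p hp n) 2
      rw [h5] at g1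
      set S := ∑ n ∈ range N, Ly y ((np n : ℤ) + 2 * (c0 + (b : ℤ))) with hS
      set c := c0 + (b : ℤ) with hc
      have g4 : |(1 / L) * S - hlY y c * (N / L)| ≤ ε / 3 * (N / L) := by
        have e1 : (1 / L) * S - hlY y c * (N / L) = (S - N * hlY y c) / L := by
          field_simp
        rw [e1, abs_div, abs_of_pos hL, ← mul_div_assoc]
        gcongr
      have g5 : |hlY y c * (N / L) - hlC c * (N / L)| ≤ ε / 3 * (N / L) := by
        rw [← sub_mul, abs_mul, abs_of_nonneg hNL]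
        exact mul_le_mul_of_nonneg_right g2 hNL
      have g6 : |(cntP Q N b : ℝ) - hlC c * (N / L)| ≤ ε * (N / L) := by
        have e2 : (cntP Q N b : ℝ) - hlC c * (N / L) = ((cntP Q N b : ℝ) - (1 / L) * S) +
            (((1 / L) * S - hlY y c * (N / L)) + (hlY y c * (N / L) - hlC c * (N / L))) := by ring
        rw [e2]
        refine (abs_add_le _ _).trans ?_
        have e3 := abs_add_le ((1 / L) * S - hlY y c * (N / L)) (hlY y c * (N / L) - hlC c * (N / L))
        linarith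
      linarith [hb.2]
    calc _ ≤ ((A ∪ B).card : ℝ) := by exact_mod_cast card_le_card hsub
      _ ≤ (A.card : ℝ) + (B.card : ℝ) := by exact_mod_cast card_union_le _ _
      _ ≤ ε / 3 * H + ε / 3 * H := add_le_add (hA N hN) hB
      _ ≤ ε * H := by nlinarith

end Pool.Agent.PnHL
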