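import Pool.Agent.PnHL.PairsMain
import Pool.Agent.PnU.Fin
import Pool.Agent.PnU.Corr

/-!
# Asymptotics for almost all pairs: polynomials
-/

open Finset Filter Topology Polynomial

namespace Pool.Agent.PnHL

open Pool.Agent.PnPoly Pool.Agent.PnMaynard Pool.Agent.PnMaynard2 Pool.Agent.PnU
open Pool.Agent.PnLG (qv IntVal Py)

open Classical in
theorem pairs_fin (d n1 : ℕ) (R : Polynomial ℚ) (hR : IntVal R) (hlcR : 0 < R.leadingCoeff)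
    (hdeg : 1 ≤ R.natDegree) (ε : ℝ) (hε : 0 < ε) :
    ∃ y0 : ℕ, ∀ y : ℕ, y0 ≤ y → ∃ K0 : ℝ, 0 < K0 ∧ ∀ A D : ℝ, ∀ᶠ H : ℕ in atTop,
      ∀ Q : Polynomial ℚ, IntVal Q → Q.natDegree ≤ d →
      (∀ n : ℕ, n1 ≤ n → 0 ≤ Q.eval (n : ℚ)) →
      (∀ k : ℕ, k ≤ d → |((Q.eval (k : ℚ) : ℚ) : ℝ)| ≤ H * Real.log H ^ D) →
      ∀ N : ℕ, K0 * Real.log H ≤ N → (N : ℝ) ≤ Real.log H ^ A →
      (((Ioc 0 H ×ˢ Ioc 0 H).filter (fun v : ℕ × ℕ => BadP ε y N H (qv Q) R v.1 v.2)).card : ℝ) ≤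
        ε * (H:ℝ) ^ 2 ∧
      ∀ c : ℤ, c.natAbs ≤ H ^ 2 → (∀ p ∈ Py y, ∀ n : ℕ, (p : ℤ) ∣ qv Q (n + 1) - c) →
        (((Ioc 0 H ×ˢ Ioc 0 H).filter (fun v : ℕ × ℕ => PnT.PP y ∣ v.1 ∧
          ε * (N / Real.log H) < |(cntf (fab (qv Q) R (v.1 : ℤ) (v.2 : ℤ)) N : ℝ) -
            hlC (c + (v.2 : ℤ)) * (N / Real.log H)|)).card : ℝ) ≤ ε * (H:ℝ) ^ 2 / PnT.PP y := by
  have hRI : IntVal R := hR
  choose Y hY using hR
  have hqY : ∀ n : ℕ, qv R n = Y n := fun n => qv_eq hY n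
  obtain ⟨ΔR, n3, z0, e, C0, hΔR, hdir⟩ := exists_dir R Y hY hlcR hdeg
  set n0 := max n1 n3 with hn0
  have hdir' : Dir (1 * ΔR) n0 z0 e C0 (fun n => (Y n).toNat) := hdir.mono' (le_max_right _ _)
  have hdir2 : Dir (1 * ΔR) n0 z0 e C0 (fun n => (qv R n).toNat) := by
    have h : (fun n => (qv R n).toNat) = (fun n : ℕ => (Y n).toNat) := by
      funext n; rw [hqY]
    rw [h]; exact hdir'
  obtain ⟨y0, hy0⟩ := pairs_two (R := R) n0 C0 hdir2.mono hdir2.pos hdir2.le (corr_u hdir2) ε hε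
  refine ⟨y0, fun y hy => ?_⟩
  obtain ⟨K0, hK0, hA⟩ := hy0 y hy
  refine ⟨K0, hK0, fun A D => ?_⟩
  obtain ⟨A2, hA2⟩ := exists_nat_ge A
  filter_upwards [hA A (⌈D⌉₊ + A2 * d + 1), tendsto_log_nat.eventually_ge_atTop
    (((d:ℝ) + 1) * 2 ^ d + 1)] with H hH hLbig Q hQ hQd hQpos hQB N hN1 hN2
  have hQI : IntVal Q := hQ
  choose Z hZ using hQ
  have hZn : ∀ n : ℕ, Q.eval (n : ℚ) = ((Z (n : ℤ) : ℤ) : ℚ) := by
    intro n
    have := hZ (n : ℤ)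
    simpa using this
  have hqZ : ∀ n : ℕ, qv Q n = Z n := fun n => qv_eq hZ n
  have hZpos : ∀ n : ℕ, n0 ≤ n → 0 ≤ Z n := by
    intro n hn
    have h1 := hQpos n ((le_max_left _ _).trans hn)
    rw [hZn] at h1
    exact_mod_cast h1
  set L := Real.log H with hL
  have hd0 : (0:ℝ) < ((d:ℝ) + 1) * 2 ^ d := by positivity
  have hL1 : 1 ≤ L := by linarith
  have hL0 : 0 < L := by linarith
  have hZB : ∀ k : ℕ, k ≤ d → |((Z k : ℤ) : ℝ)| ≤ H * L ^ D := by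
    intro k hk
    have h1 := hQB k hk
    rw [hZn] at h1
    simpa using h1
  exact hH (qv Q) (fun n hn => by rw [hqZ]; exact hZpos n hn) (by
    intro n hn
    have hn' : (n : ℝ) ≤ L ^ A2 := by
      refine hn.trans ?_
      rw [← Real.rpow_natCast]
      exact Real.rpow_le_rpow_of_exponent_le hL1 hA2
    have h1 := growth_uniform hZ hQd hZB (y := L ^ A2) (one_le_pow₀ hL1) n hn'
    rw [hqZ]
    refine (le_abs_self _).trans (h1.trans ?_)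
    have h3 : L ^ D ≤ L ^ ⌈D⌉₊ := by
      rw [← Real.rpow_natCast]
      exact Real.rpow_le_rpow_of_exponent_le hL1 (Nat.le_ceil D)
    calc ((d:ℝ) + 1) * 2 ^ d * (H * L ^ D) * (L ^ A2) ^ d
        ≤ L * (H * L ^ ⌈D⌉₊) * (L ^ A2) ^ d := by
          have h4 : ((d:ℝ) + 1) * 2 ^ d ≤ L := by linarith
          gcongr
      _ = H * L ^ (⌈D⌉₊ + A2 * d + 1) := by
          rw [pow_add, pow_add, ← pow_mul, pow_one]
          ring) N hN1 hN2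

end Pool.Agent.PnHL
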