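import Pool.Agent.PnHL.Two

/-!
# Asymptotics for almost all pairs
-/

open Finset Filter Topology

namespace Pool.Agent.PnHL

open Pool.Agent.PnPoly Pool.Agent.PnMaynard Pool.Agent.PnMaynard2 Pool.Agent.PnU
open Pool.Agent.PnLG (qv Ly Py)
open Pool.Agent.PnPoly.NC (np)

open Classical in
/-- asymptotics for almost all pairs: the local-to-global principle and the Hardy-Littlewood constants -/
theorem pairs_two {R : Polynomial ℚ} (n2 C0 : ℕ)
    (hmono : ∀ m n, n2 ≤ m → m < n → (qv R m).toNat < (qv R n).toNat)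
    (hpos : ∀ n, n2 ≤ n → 1 ≤ (qv R n).toNat)
    (hle : ∀ n, n2 ≤ n → (qv R n).toNat ≤ n ^ C0)
    (hcorr : CorrU n2 (fun n => (qv R n).toNat)) (ε : ℝ) (hε : 0 < ε) :
    ∃ y0 : ℕ, ∀ y : ℕ, y0 ≤ y → ∃ K0 : ℝ, 0 < K0 ∧ ∀ (A : ℝ) (D0 : ℕ), ∀ᶠ H : ℕ in atTop,
      ∀ q : ℕ → ℤ, (∀ n : ℕ, n2 ≤ n → 0 ≤ q n) →
      (∀ n : ℕ, (n:ℝ) ≤ Real.log H ^ A → (q n : ℝ) ≤ H * Real.log H ^ D0) →
      ∀ N : ℕ, K0 * Real.log H ≤ N → (N:ℝ) ≤ Real.log H ^ A →
      (((Ioc 0 H ×ˢ Ioc 0 H).filter (fun v : ℕ × ℕ => BadP ε y N H q R v.1 v.2)).card : ℝ) ≤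
        ε * (H:ℝ) ^ 2 ∧
      ∀ c : ℤ, c.natAbs ≤ H ^ 2 → (∀ p ∈ Py y, ∀ n : ℕ, (p : ℤ) ∣ q (n + 1) - c) →
        (((Ioc 0 H ×ˢ Ioc 0 H).filter (fun v : ℕ × ℕ => PnT.PP y ∣ v.1 ∧
          ε * (N / Real.log H) < |(cntf (fab q R (v.1 : ℤ) (v.2 : ℤ)) N : ℝ) -
            hlC (c + (v.2 : ℤ)) * (N / Real.log H)|)).card : ℝ) ≤ ε * (H:ℝ) ^ 2 / PnT.PP y := by
  set e : ℝ := ε / 4 with he
  have he0 : 0 < e := by positivity
  obtain ⟨y1, h1⟩ := class_two n2 C0 hmono hpos hle hcorr e he0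
  obtain ⟨y2, h2⟩ := Pool.Agent.PnHLs.hl_avg_u e he0
  refine ⟨max (max y1 y2) 2, fun y hy => ?_⟩
  have hy1 : y1 ≤ y := (le_max_left _ _).trans ((le_max_left _ _).trans hy)
  have hy2 : y2 ≤ y := (le_max_right _ _).trans ((le_max_left _ _).trans hy)
  have hy3 : 2 ≤ y := (le_max_right _ _).trans hy
  obtain ⟨K1, hK1, hcl⟩ := h1 y hy1
  obtain ⟨N1, hN1⟩ := eventually_atTop.1 (Pool.Agent.PnHLs.mean_shift y hy3 e he0)
  set g := PnT.PP y with hg
  have hg0 : 1 ≤ g := PnT.SZ.PP_pos y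
  have hgr : (1:ℝ) ≤ g := by exact_mod_cast hg0
  have hgr0 : (0:ℝ) < g := by linarith
  refine ⟨K1, hK1, fun A D0 => ?_⟩
  filter_upwards [hcl A D0, h2 y hy2, tendsto_log_nat.eventually_ge_atTop ((N1:ℝ) / K1 + 1),
    tendsto_natCast_atTop_atTop.eventually_ge_atTop (4 * (g:ℝ) ^ 2 / e)] with H hH hav hLN hHbig
  intro q hq0 hQ N hNK hNA
  have hclass := hH q hq0 hQ N hNK hNA
  set L := Real.log H with hL
  have hN1K : 0 ≤ (N1:ℝ) / K1 := by positivity
  have hL0 : 0 < L := by linarith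
  have hH0 : (0:ℝ) ≤ H := Nat.cast_nonneg H
  have hNN1 : N1 ≤ N := by
    have h3 : (N1:ℝ) / K1 ≤ L := by linarith
    rw [div_le_iff₀ hK1] at h3
    have : (N1:ℝ) ≤ N := by linarith
    exact_mod_cast this
  have hm := hN1 N hNN1
  have hNL : 0 ≤ (N:ℝ) / L := by positivity
  have h4g : 4 * (g:ℝ) ^ 2 ≤ e * H := by
    rw [div_le_iff₀ he0] at hHbig
    linarith
  have h4gH : 4 * (g:ℝ) * H ≤ e / g * (H:ℝ) ^ 2 := by
    have h3 : e / g * (H:ℝ) ^ 2 = (e * H) * H / g := by ring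
    rw [h3, le_div_iff₀ hgr0]
    calc 4 * (g:ℝ) * H * g = (4 * (g:ℝ) ^ 2) * H := by ring
      _ ≤ (e * H) * H := mul_le_mul_of_nonneg_right h4g hH0
  have hBmono : ∀ a b : ℕ, BadP ε y N H q R a b → BadP e y N H q R a b := by
    intro a b h
    unfold BadP at h ⊢
    refine lt_of_le_of_lt ?_ h
    rw [he]
    nlinarith
  constructor
  · have hcc := count_classes g H hg0 (fun a b => BadP e y N H q R a b)
    have hcc' : (((Ioc 0 H ×ˢ Ioc 0 H).filter (fun v => BadP e y N H q R v.1 v.2)).card : ℝ) ≤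
        ∑ α ∈ range g, ∑ β ∈ range g, (((Ioc 0 (H / g - 1) ×ˢ Ioc 0 (H / g - 1)).filter
          (fun t => BadP e y N H q R (α + g * t.2) (β + g * t.1))).card : ℝ) + 4 * g * H := by
      exact_mod_cast hcc
    have hsum : ∑ α ∈ range g, ∑ β ∈ range g, (((Ioc 0 (H / g - 1) ×ˢ Ioc 0 (H / g - 1)).filter
          (fun t => BadP e y N H q R (α + g * t.2) (β + g * t.1))).card : ℝ) ≤ e * (H:ℝ) ^ 2 := by
      calc _ ≤ ∑ _α ∈ range g, ∑ _β ∈ range g, e / (g:ℝ) ^ 2 * (H:ℝ) ^ 2 :=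
            sum_le_sum fun α hα => sum_le_sum fun β hβ =>
              hclass α (mem_range.1 hα) β (mem_range.1 hβ)
        _ = e * (H:ℝ) ^ 2 := by
            rw [sum_const, sum_const, card_range, nsmul_eq_mul, nsmul_eq_mul]
            field_simp
    have hsub : ((Ioc 0 H ×ˢ Ioc 0 H).filter (fun v : ℕ × ℕ => BadP ε y N H q R v.1 v.2)).card ≤
        ((Ioc 0 H ×ˢ Ioc 0 H).filter (fun v : ℕ × ℕ => BadP e y N H q R v.1 v.2)).card := by
      refine card_le_card fun v hv => ?_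
      rw [mem_filter] at hv ⊢
      exact ⟨hv.1, hBmono _ _ hv.2⟩
    have h5 : e / g * (H:ℝ) ^ 2 ≤ e * (H:ℝ) ^ 2 := by
      refine mul_le_mul_of_nonneg_right ?_ (by positivity)
      exact div_le_self he0.le hgr
    have h6 : e * (H:ℝ) ^ 2 + e * (H:ℝ) ^ 2 ≤ ε * (H:ℝ) ^ 2 := by
      have h7 : 0 ≤ (H:ℝ) ^ 2 := by positivity
      rw [he]
      nlinarith
    have h7 : (((Ioc 0 H ×ˢ Ioc 0 H).filter (fun v : ℕ × ℕ => BadP ε y N H q R v.1 v.2)).card : ℝ) ≤
        (((Ioc 0 H ×ˢ Ioc 0 H).filter (fun v : ℕ × ℕ => BadP e y N H q R v.1 v.2)).card : ℝ) := by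
      exact_mod_cast hsub
    linarith
  · intro c hc hmod
    have hcc := count_classes g H hg0 (fun a b => g ∣ a ∧ BadP e y N H q R a b)
    have hcc' : (((Ioc 0 H ×ˢ Ioc 0 H).filter (fun v => g ∣ v.1 ∧ BadP e y N H q R v.1 v.2)).card : ℝ) ≤
        ∑ α ∈ range g, ∑ β ∈ range g, (((Ioc 0 (H / g - 1) ×ˢ Ioc 0 (H / g - 1)).filter
          (fun t => g ∣ (α + g * t.2) ∧ BadP e y N H q R (α + g * t.2) (β + g * t.1))).card : ℝ) +
            4 * g * H := by
      exact_mod_cast hcc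
    have hsum : ∑ α ∈ range g, ∑ β ∈ range g, (((Ioc 0 (H / g - 1) ×ˢ Ioc 0 (H / g - 1)).filter
          (fun t => g ∣ (α + g * t.2) ∧ BadP e y N H q R (α + g * t.2) (β + g * t.1))).card : ℝ) ≤
          e / g * (H:ℝ) ^ 2 := by
      calc _ ≤ ∑ α ∈ range g, (if α = 0 then e / g * (H:ℝ) ^ 2 else 0) := by
            refine sum_le_sum fun α hα => ?_
            rw [mem_range] at hα
            split_ifs with h0
            · subst h0
              calc _ ≤ ∑ _β ∈ range g, e / (g:ℝ) ^ 2 * (H:ℝ) ^ 2 := by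
                    refine sum_le_sum fun β hβ => ?_
                    refine le_trans ?_ (hclass 0 hα β (mem_range.1 hβ))
                    have h3 : (Ioc 0 (H / g - 1) ×ˢ Ioc 0 (H / g - 1)).filter
                        (fun t : ℕ × ℕ => g ∣ (0 + g * t.2) ∧
                          BadP e y N H q R (0 + g * t.2) (β + g * t.1)) ⊆
                        (Ioc 0 (H / g - 1) ×ˢ Ioc 0 (H / g - 1)).filter
                        (fun t : ℕ × ℕ => BadP e y N H q R (0 + g * t.2) (β + g * t.1)) := by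
                      intro t ht
                      rw [mem_filter] at ht ⊢
                      exact ⟨ht.1, ht.2.2⟩
                    exact_mod_cast card_le_card h3
                _ = e / g * (H:ℝ) ^ 2 := by
                    rw [sum_const, card_range, nsmul_eq_mul]
                    field_simp
            · refine le_of_eq (sum_eq_zero fun β _ => ?_)
              have h3 : (Ioc 0 (H / g - 1) ×ˢ Ioc 0 (H / g - 1)).filter
                  (fun t : ℕ × ℕ => g ∣ (α + g * t.2) ∧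
                    BadP e y N H q R (α + g * t.2) (β + g * t.1)) = ∅ := by
                refine filter_eq_empty_iff.mpr fun t _ h4 => ?_
                have h5 : g ∣ α := (Nat.dvd_add_left (Dvd.intro _ rfl)).mp h4.1
                exact h0 (Nat.eq_zero_of_dvd_of_lt h5 hα)
              rw [h3, card_empty, Nat.cast_zero]
        _ = e / g * (H:ℝ) ^ 2 := by
            rw [sum_ite_eq' (range g) 0, if_pos (mem_range.2 (by omega))]
    set T1 := (Ioc 0 H ×ˢ Ioc 0 H).filter (fun v : ℕ × ℕ => g ∣ v.1 ∧ BadP e y N H q R v.1 v.2) with hT1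
    have c1 : (T1.card : ℝ) ≤ 2 * (e / g * (H:ℝ) ^ 2) := by linarith
    set Bb := (Icc 1 H).filter (fun b : ℕ => e < |hlY y (c + (b : ℤ)) - hlC (c + (b : ℤ))|) with hBb
    have hBbc : (Bb.card : ℝ) ≤ e * H := hav c hc
    set T2 := ((Ioc 0 H).filter (fun a : ℕ => g ∣ a)) ×ˢ Bb with hT2
    have c2 : (T2.card : ℝ) ≤ e / g * (H:ℝ) ^ 2 := by
      rw [hT2, card_product]
      have h3 : (((Ioc 0 H).filter (fun a : ℕ => g ∣ a)).card : ℝ) ≤ H / g := by
        have h4 : ((Ioc 0 H).filter (fun a : ℕ => g ∣ a)).card = H / g := Nat.Ioc_filter_dvd_card_eq_div H g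
        rw [h4]
        exact Nat.cast_div_le
      push_cast
      calc (((Ioc 0 H).filter (fun a : ℕ => g ∣ a)).card : ℝ) * (Bb.card : ℝ) ≤ (H / g) * (e * H) :=
            mul_le_mul h3 hBbc (Nat.cast_nonneg _) (by positivity)
        _ = e / g * (H:ℝ) ^ 2 := by ring
    have hsub : (Ioc 0 H ×ˢ Ioc 0 H).filter (fun v : ℕ × ℕ => g ∣ v.1 ∧
          ε * (N / L) < |(cntf (fab q R (v.1 : ℤ) (v.2 : ℤ)) N : ℝ) -
            hlC (c + (v.2 : ℤ)) * (N / L)|) ⊆ T1 ∪ T2 := by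
      intro v hv
      by_contra hcon
      rw [mem_filter] at hv
      obtain ⟨hvI, hga, hbad⟩ := hv
      have hvI2 := hvI
      rw [mem_product, mem_Ioc, mem_Ioc] at hvI2
      rw [mem_union, not_or] at hcon
      have g1 : ¬ BadP e y N H q R v.1 v.2 := fun h => hcon.1 (by
        rw [hT1, mem_filter]
        exact ⟨hvI, hga, h⟩)
      have g2 : ¬ e < |hlY y (c + (v.2 : ℤ)) - hlC (c + (v.2 : ℤ))| := fun h => hcon.2 (by
        rw [hT2, mem_product, mem_filter, mem_Ioc, hBb, mem_filter, mem_Icc]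
        exact ⟨⟨hvI2.1, hga⟩, ⟨hvI2.2.1, hvI2.2.2⟩, h⟩)
      have g3 := hm (c + (v.2 : ℤ))
      unfold BadP at g1
      rw [not_lt] at g1 g2
      have h5 : ∑ n ∈ range N, Ly y (sf (fab q R (v.1 : ℤ) (v.2 : ℤ)) n) =
          ∑ n ∈ range N, Ly y ((np n : ℤ) + 2 * (c + (v.2 : ℤ))) := by
        refine Finset.sum_congr rfl fun n _ => Pool.Agent.PnHLs.Ly_congr_p y _ _ fun p hp => ?_
        have h6 : sf (fab q R (v.1 : ℤ) (v.2 : ℤ)) n - ((np n : ℤ) + 2 * (c + (v.2 : ℤ))) =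
            2 * ((q (n + 1) - c) + (v.1 : ℤ) * qv R (n + 1)) := by
          unfold sf fab
          ring
        rw [h6]
        refine Dvd.dvd.mul_left (dvd_add (hmod p hp n) (Dvd.dvd.mul_right ?_ _)) 2
        exact_mod_cast (PnT.SZ.dvd_PP hp).trans hga
      rw [h5] at g1
      set S := ∑ n ∈ range N, Ly y ((np n : ℤ) + 2 * (c + (v.2 : ℤ))) with hS
      set c' := c + (v.2 : ℤ) with hc'
      set cn : ℝ := (cntf (fab q R (v.1 : ℤ) (v.2 : ℤ)) N : ℝ) with hcn
      have g4 : |(1 / L) * S - hlY y c' * (N / L)| ≤ e * (N / L) := by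
        have e1 : (1 / L) * S - hlY y c' * (N / L) = (S - N * hlY y c') / L := by
          field_simp
        rw [e1, abs_div, abs_of_pos hL0, ← mul_div_assoc]
        gcongr
      have g5 : |hlY y c' * (N / L) - hlC c' * (N / L)| ≤ e * (N / L) := by
        rw [← sub_mul, abs_mul, abs_of_nonneg hNL]
        exact mul_le_mul_of_nonneg_right g2 hNL
      have g6 : |cn - hlC c' * (N / L)| ≤ ε * (N / L) := by
        have e2 : cn - hlC c' * (N / L) = (cn - (1 / L) * S) +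
            (((1 / L) * S - hlY y c' * (N / L)) + (hlY y c' * (N / L) - hlC c' * (N / L))) := by ring
        rw [e2]
        refine (abs_add_le _ _).trans ?_
        have e3 := abs_add_le ((1 / L) * S - hlY y c' * (N / L)) (hlY y c' * (N / L) - hlC c' * (N / L))
        have e4 : 3 * (e * (N / L)) ≤ ε * (N / L) := by
          rw [he]
          nlinarith
        linarith
      exact absurd hbad (not_lt.mpr g6)
    calc _ ≤ ((T1 ∪ T2).card : ℝ) := by exact_mod_cast card_le_card hsub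
      _ ≤ (T1.card : ℝ) + T2.card := by exact_mod_cast card_union_le _ _
      _ ≤ 2 * (e / g * (H:ℝ) ^ 2) + e / g * (H:ℝ) ^ 2 := add_le_add c1 c2
      _ ≤ ε * (H:ℝ) ^ 2 / g := by
          have h7 : ε * (H:ℝ) ^ 2 / g = 4 * (e / g * (H:ℝ) ^ 2) := by
            rw [he]
            ring
          rw [h7]
          have h8 : 0 ≤ e / g * (H:ℝ) ^ 2 := by positivity
          linarith

end Pool.Agent.PnHL
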