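import Pool.Agent.PnHL.ApMean
import Pool.Agent.PnHL.Mean
import Pool.Agent.PnHL.Avg

/-!
# Mean over the primes for all shifts, and the average of the constants, uniformly
-/

open Finset Filter
open scoped Topology

namespace Pool.Agent.PnHLs

open Pool.Agent.PnHL
open Pool.Agent.PnLG (Py Ly)
open Pool.Agent.PnPoly.NC (np)

lemma Ly_congr_p (y : ℕ) (m m' : ℤ) (h : ∀ p ∈ Py y, (p : ℤ) ∣ m - m') : Ly y m = Ly y m' := by
  unfold Ly
  refine Finset.prod_congr rfl fun p hp => ?_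
  have : (p : ℤ) ∣ m ↔ (p : ℤ) ∣ m' := Int.dvd_iff_dvd_of_dvd_sub (h p hp)
  simp only [this]

lemma hlY_congr (y : ℕ) (c c' : ℤ) (h : ∀ p ∈ Py y, (p : ℤ) ∣ c - c') : hlY y c = hlY y c' := by
  unfold hlY
  congr 1
  refine Finset.prod_congr ?_ fun _ _ => rfl
  refine Finset.filter_congr fun p hp => ?_
  exact Int.dvd_iff_dvd_of_dvd_sub (h p hp)

/-- mean over the primes, for all the shifts at once -/
lemma mean_shift (y : ℕ) (hy : 2 ≤ y) (η : ℝ) (hη : 0 < η) : ∀ᶠ N : ℕ in atTop, ∀ c : ℤ,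
    |∑ n ∈ range N, Ly y ((np n : ℤ) + 2 * c) - N * hlY y c| ≤ η * N := by
  set P : ℕ := ∏ p ∈ Py y, p with hP
  have hPpos : 0 < P := Finset.prod_pos fun p hp => (Py_prime hp).pos
  have hdP : ∀ p ∈ Py y, (p : ℤ) ∣ (P : ℤ) := fun p hp => by
    rw [hP]
    exact_mod_cast Finset.dvd_prod_of_mem (fun p : ℕ => p) hp
  have ht0 : (P.totient : ℝ) ≠ 0 := by
    have := Nat.totient_pos.2 hPpos
    positivity
  have h1 : ∀ᶠ N : ℕ in atTop, ∀ c ∈ range P,
      |∑ n ∈ range N, Ly y ((np n : ℤ) + 2 * (c : ℤ)) - N * hlY y (c : ℤ)| ≤ η * N := by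
    rw [Filter.eventually_all_finset]
    intro c _
    filter_upwards [ap_mean P hPpos (fun a => Ly y ((a : ℤ) + 2 * (c : ℤ))) (by
      intro k
      refine Ly_congr_p y _ _ fun p hp => ?_
      have h2 : (((k % P : ℕ) : ℤ) + 2 * (c : ℤ)) - ((k : ℤ) + 2 * (c : ℤ)) = -((k : ℤ) - (k : ℤ) % (P : ℤ)) := by
        push_cast
        ring
      rw [h2, dvd_neg]
      exact (hdP p hp).trans Int.dvd_self_sub_emod) η hη] with N hN
    have h3 : (N : ℝ) / (P.totient : ℝ) * ∑ a ∈ (range P).filter (fun a => Nat.Coprime a P),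
        Ly y ((a : ℤ) + 2 * (c : ℤ)) = N * hlY y (c : ℤ) := by
      rw [hP, loc_sum y hy (c : ℤ), ← hP]
      field_simp
    rw [h3] at hN
    exact hN
  filter_upwards [h1] with N hN c
  have hPz : (0 : ℤ) < P := by exact_mod_cast hPpos
  obtain ⟨c', hc'⟩ : ∃ c' : ℕ, (c' : ℤ) = c % (P : ℤ) :=
    ⟨(c % (P : ℤ)).toNat, Int.toNat_of_nonneg (Int.emod_nonneg _ hPz.ne')⟩
  have hc2 : c' < P := by
    have := Int.emod_lt_of_pos c hPz
    omega
  have hd : ∀ p ∈ Py y, (p : ℤ) ∣ c - (c' : ℤ) := fun p hp => by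
    rw [hc']
    exact (hdP p hp).trans Int.dvd_self_sub_emod
  have h4 := hN c' (mem_range.2 hc2)
  rw [hlY_congr y c c' hd]
  have h5 : ∑ n ∈ range N, Ly y ((np n : ℤ) + 2 * c) = ∑ n ∈ range N, Ly y ((np n : ℤ) + 2 * (c' : ℤ)) := by
    refine Finset.sum_congr rfl fun n _ => Ly_congr_p y _ _ fun p hp => ?_
    have h6 : ((np n : ℤ) + 2 * c) - ((np n : ℤ) + 2 * (c' : ℤ)) = 2 * (c - c') := by ring
    rw [h6]
    exact Dvd.dvd.mul_left (hd p hp) 2
  rw [h5]
  exact h4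


lemma log_small_u (κ : ℝ) (hκ : 0 < κ) :
    ∀ᶠ H : ℕ in atTop, ∀ c0 : ℤ, c0.natAbs ≤ H ^ 2 →
      1 + Real.log ((H + c0.natAbs : ℕ) : ℝ) ≤ κ * H := by
  have h1 := Real.isLittleO_log_id_atTop.bound (show (0 : ℝ) < κ / 4 by positivity)
  have h3 : Tendsto (fun H : ℕ => κ / 2 * (H : ℝ)) atTop atTop :=
    tendsto_natCast_atTop_atTop.const_mul_atTop (by positivity)
  filter_upwards [tendsto_natCast_atTop_atTop.eventually h1, h3.eventually_ge_atTop 2,
    eventually_ge_atTop 1] with H h4 h5 h6 c0 hc0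
  have hH1 : (1 : ℝ) ≤ H := by exact_mod_cast h6
  rw [id, Real.norm_of_nonneg (Real.log_nonneg hH1), Real.norm_of_nonneg (by linarith)] at h4
  have h7 : ((H + c0.natAbs : ℕ) : ℝ) ≤ 2 * (H : ℝ) ^ 2 := by
    have h8 : (c0.natAbs : ℝ) ≤ (H : ℝ) ^ 2 := by exact_mod_cast hc0
    push_cast
    nlinarith
  have h9 : (0 : ℝ) < ((H + c0.natAbs : ℕ) : ℝ) := by exact_mod_cast (by omega : 0 < H + c0.natAbs)
  have h10 := Real.log_le_log h9 h7
  rw [Real.log_mul (by norm_num) (by positivity), Real.log_pow] at h10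
  have h11 : Real.log 2 ≤ 1 := by
    have := Real.log_le_sub_one_of_pos (by norm_num : (0:ℝ) < 2)
    linarith
  push_cast at h10 ⊢
  linarith

/-- **for almost all `b` the constant of `c0 + b` is close to its partial product** -/
theorem hl_avg_u (η : ℝ) (hη : 0 < η) : ∃ y1 : ℕ, ∀ y : ℕ, y1 ≤ y → ∀ᶠ H : ℕ in atTop, ∀ c0 : ℤ,
    c0.natAbs ≤ H ^ 2 →
    (((Icc 1 H).filter (fun b : ℕ => η < |hlY y (c0 + (b : ℤ)) - hlC (c0 + (b : ℤ))|)).card : ℝ) ≤
      η * H := by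
  classical
  have ht : Tendsto (fun y : ℕ => Real.sqrt (Real.sqrt (y : ℝ))) atTop atTop :=
    Real.tendsto_sqrt_atTop.comp (Real.tendsto_sqrt_atTop.comp tendsto_natCast_atTop_atTop)
  obtain ⟨y1, hy1⟩ := eventually_atTop.1 (ht.eventually_ge_atTop (40 / η + 4 / η + 3))
  refine ⟨max y1 1, fun y hy => ?_⟩
  have hy1' := hy1 y ((le_max_left _ _).trans hy)
  have hyy : 1 ≤ y := (le_max_right _ _).trans hy
  have hy0 : (0 : ℝ) < y := by exact_mod_cast hyy
  set s : ℝ := Real.sqrt y with hs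
  set u : ℝ := Real.sqrt s with hu
  have hu1 : 40 / η ≤ u := by
    have : 0 < 4 / η := by positivity
    linarith
  have hu2 : 4 / η ≤ u := by
    have : 0 < 40 / η := by positivity
    linarith
  have hu3 : 3 ≤ u := by
    have h1 : 0 < 40 / η := by positivity
    have h2 : 0 < 4 / η := by positivity
    linarith
  have hu0 : 0 < u := by linarith
  have hsu : s = u ^ 2 := (Real.sq_sqrt (Real.sqrt_nonneg _)).symm
  have hyu : (y : ℝ) = u ^ 4 := by
    have h1 : (y : ℝ) = s ^ 2 := (Real.sq_sqrt hy0.le).symm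
    rw [h1, hsu]
    ring
  set σ : ℝ := 1 / u ^ 3 with hσ
  have hσ0 : 0 < σ := by positivity
  have hσ1 : 3 * σ ≤ 1 := by
    rw [hσ, mul_one_div, div_le_one (by positivity)]
    have h1 : (3 : ℝ) ^ 3 ≤ u ^ 3 := pow_le_pow_left₀ (by norm_num) hu3 3
    linarith
  filter_upwards [log_small_u (1 / (y : ℝ)) (by positivity),
    tendsto_natCast_atTop_atTop.eventually_ge_atTop (2 / η)] with H hlogu hH c0 hc0
  have hlog := hlogu c0 hc0
  have hH0 : (0 : ℝ) ≤ H := Nat.cast_nonneg _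
  have hsum : ∑ b ∈ Icc 1 H, big y (c0 + (b : ℤ)) ≤ 2 * (H / (y : ℝ)) := by
    refine (sum_big y hyy c0 H).trans ?_
    have : 1 / (y : ℝ) * H = H / y := by ring
    rw [this] at hlog
    linarith
  set T : Finset ℕ := (Icc 1 H).filter (fun b : ℕ => σ < big y (c0 + (b : ℤ))) with hT
  have hTc : (T.card : ℝ) * σ ≤ 2 * (H / (y : ℝ)) := by
    refine le_trans ?_ hsum
    calc (T.card : ℝ) * σ = ∑ _b ∈ T, σ := by rw [Finset.sum_const, nsmul_eq_mul]
      _ ≤ ∑ b ∈ T, big y (c0 + (b : ℤ)) :=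
          Finset.sum_le_sum fun b hb => (Finset.mem_filter.1 hb).2.le
      _ ≤ ∑ b ∈ Icc 1 H, big y (c0 + (b : ℤ)) :=
          Finset.sum_le_sum_of_subset_of_nonneg (Finset.filter_subset _ _) fun _ _ _ => big_nonneg _ _
  have hTc2 : (T.card : ℝ) ≤ η / 2 * H := by
    have h1 : (T.card : ℝ) ≤ 2 * (H / (y : ℝ)) / σ := by
      rw [le_div_iff₀ hσ0]
      exact hTc
    have h2 : 2 * (H / (y : ℝ)) / σ = 2 / u * H := by
      rw [hσ, hyu]
      field_simp
    rw [h2] at h1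
    refine h1.trans ?_
    have h3 : 2 / u ≤ η / 2 := by
      rw [div_le_iff₀ hu0]
      rw [div_le_iff₀ hη] at hu2
      linarith
    exact mul_le_mul_of_nonneg_right h3 hH0
  have hZ : (((Icc 1 H).filter (fun b : ℕ => c0 + (b : ℤ) = 0)).card : ℝ) ≤ 1 := by
    have : ((Icc 1 H).filter (fun b : ℕ => c0 + (b : ℤ) = 0)).card ≤ 1 := by
      rw [Finset.card_le_one]
      intro a ha b hb
      have h1 := (Finset.mem_filter.1 ha).2
      have h2 := (Finset.mem_filter.1 hb).2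
      omega
    exact_mod_cast this
  have hsub : (Icc 1 H).filter (fun b : ℕ => η < |hlY y (c0 + (b : ℤ)) - hlC (c0 + (b : ℤ))|) ⊆
      T ∪ (Icc 1 H).filter (fun b : ℕ => c0 + (b : ℤ) = 0) := by
    intro b hb
    by_contra hcon
    rw [mem_filter] at hb
    simp only [mem_union, hT, mem_filter, not_or, not_and, not_lt] at hcon
    have h1 := hl_diff y hyy (c0 + (b : ℤ)) (hcon.2 hb.1) σ hσ1 (hcon.1 hb.1)
    have h2 : 16 / Real.sqrt y + 24 * Real.sqrt y * σ ≤ η := by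
      rw [← hs, hσ, hsu]
      have h3 : 24 * u ^ 2 * (1 / u ^ 3) = 24 / u := by field_simp
      have h4 : 16 / u ^ 2 ≤ 16 / u := by
        apply div_le_div_of_nonneg_left (by norm_num) hu0
        nlinarith
      have h5 : 40 / u ≤ η := by
        rw [div_le_iff₀ hu0]
        rw [div_le_iff₀ hη] at hu1
        linarith
      rw [h3]
      have h6 : 16 / u + 24 / u = 40 / u := by ring
      linarith
    linarith [hb.2]
  calc _ ≤ ((T ∪ (Icc 1 H).filter (fun b : ℕ => c0 + (b : ℤ) = 0)).card : ℝ) := by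
        exact_mod_cast card_le_card hsub
    _ ≤ (T.card : ℝ) + (((Icc 1 H).filter (fun b : ℕ => c0 + (b : ℤ) = 0)).card : ℝ) := by
        exact_mod_cast card_union_le _ _
    _ ≤ η / 2 * H + 1 := by gcongr
    _ ≤ η * H := by
        have h1 : 1 ≤ η / 2 * (H : ℝ) := by
          rw [div_le_iff₀ hη] at hH
          linarith
        linarith

end Pool.Agent.PnHLs
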