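import Pool.Agent.PnHL.TwoAux

/-!
# Two-sided estimate in one class of pairs
-/

open Finset Filter Topology

namespace Pool.Agent.PnHL

open Pool.Agent.PnPoly Pool.Agent.PnMaynard Pool.Agent.PnMaynard2 Pool.Agent.PnU
open Pool.Agent.PnLG (qv Ly Py)
open Pool.Agent.PnPoly.NC (np)

/-- choice of the modulus -/
lemma two_y {C δ ε : ℝ} (hC : 0 < C) (hδ : 0 < δ) (hε : 0 < ε) :
    ∀ᶠ y : ℕ in atTop, ((PnT.tw 0 y)⁻¹) ^ 2 * (C / y) / δ ^ 2 ≤ ε := by
  obtain ⟨C2, hC2, hth⟩ := Pool.Agent.HLT.th_lower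
  have e1 : Tendsto (fun H : ℕ => Real.log H ^ 2 / (H : ℝ)) atTop (𝓝 0) := log_sq_div_tendsto
  have hC20 : 0 < C2 := by linarith
  have hpos : 0 < ε * δ ^ 2 / (C2 ^ 2 * C) := by positivity
  filter_upwards [e1.eventually_le_const hpos, eventually_ge_atTop 2] with y h1 h2
  have hy0 : (0:ℝ) < y := by exact_mod_cast (by omega : 0 < y)
  have h4 : (PnT.tw 0 y)⁻¹ ≤ C2 * Real.log y := by
    rw [PnT.SZ.tw_eq_th]
    exact hth 0 y h2
  have h5 : 0 ≤ (PnT.tw 0 y)⁻¹ := inv_nonneg.mpr (PnT.SZ.tw_pos 0 y).le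
  have h6 : ((PnT.tw 0 y)⁻¹) ^ 2 ≤ (C2 * Real.log y) ^ 2 := pow_le_pow_left₀ h5 h4 2
  rw [div_le_iff₀ (by positivity)]
  calc ((PnT.tw 0 y)⁻¹) ^ 2 * (C / y) ≤ (C2 * Real.log y) ^ 2 * (C / y) :=
        mul_le_mul_of_nonneg_right h6 (by positivity)
    _ = (C2 ^ 2 * C) * (Real.log y ^ 2 / y) := by ring
    _ ≤ (C2 ^ 2 * C) * (ε * δ ^ 2 / (C2 ^ 2 * C)) := mul_le_mul_of_nonneg_left h1 (by positivity)
    _ = ε * δ ^ 2 := by field_simp

/-- the pair `(a, b)` is bad: the number of primes is not the one predicted modulo the primes `≤ y` -/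
def BadP (ε : ℝ) (y N H : ℕ) (q : ℕ → ℤ) (R : Polynomial ℚ) (a b : ℕ) : Prop :=
  ε * (N / Real.log H) < |(cntf (fab q R (a : ℤ) (b : ℤ)) N : ℝ) -
    (1 / Real.log H) * ∑ n ∈ range N, Ly y (sf (fab q R (a : ℤ) (b : ℤ)) n)|

open Classical in
/-- **two-sided estimate in a class** -/
theorem class_two {R : Polynomial ℚ} (n2 C0 : ℕ)
    (hmono : ∀ m n, n2 ≤ m → m < n → (qv R m).toNat < (qv R n).toNat)
    (hpos : ∀ n, n2 ≤ n → 1 ≤ (qv R n).toNat)
    (hle : ∀ n, n2 ≤ n → (qv R n).toNat ≤ n ^ C0)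
    (hcorr : CorrU n2 (fun n => (qv R n).toNat)) (ε : ℝ) (hε : 0 < ε) :
    ∃ y0 : ℕ, ∀ y : ℕ, y0 ≤ y → ∃ K0 : ℝ, 0 < K0 ∧ ∀ (A : ℝ) (D0 : ℕ), ∀ᶠ H : ℕ in atTop,
      ∀ q : ℕ → ℤ, (∀ n : ℕ, n2 ≤ n → 0 ≤ q n) →
      (∀ n : ℕ, (n:ℝ) ≤ Real.log H ^ A → (q n : ℝ) ≤ H * Real.log H ^ D0) →
      ∀ N : ℕ, K0 * Real.log H ≤ N → (N:ℝ) ≤ Real.log H ^ A →
      ∀ α < PnT.PP y, ∀ β < PnT.PP y,
      (((Ioc 0 (H / PnT.PP y - 1) ×ˢ Ioc 0 (H / PnT.PP y - 1)).filter (fun t : ℕ × ℕ =>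
        BadP ε y N H q R (α + PnT.PP y * t.2) (β + PnT.PP y * t.1))).card : ℝ) ≤
        ε / (PnT.PP y : ℝ) ^ 2 * (H:ℝ) ^ 2 := by
  obtain ⟨C, hC, y0, hy0⟩ := hcorr
  set δ : ℝ := ε / 4 with hδ
  have hδ0 : 0 < δ := by positivity
  obtain ⟨y1, hy1⟩ := eventually_atTop.1 (two_y hC hδ0 (show 0 < ε / 8 by positivity))
  refine ⟨max (max y0 y1) 2, fun y hy => ?_⟩
  have hyy0 : y0 ≤ y := (le_max_left _ _).trans ((le_max_left _ _).trans hy)
  have hyy1 : y1 ≤ y := (le_max_right _ _).trans ((le_max_left _ _).trans hy)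
  have hyy2 : 2 ≤ y := (le_max_right _ _).trans hy
  have hvy := hy1 y hyy1
  have hcor0 := hy0 y hyy0
  set g := PnT.PP y with hg
  have hg0 : 1 ≤ g := PnT.SZ.PP_pos y
  have hgr : (1:ℝ) ≤ g := by exact_mod_cast hg0
  have hgp : ∀ p : ℕ, p.Prime → p ≤ y → p ∣ g := fun p hp hpy =>
    PnT.SZ.dvd_PP (PnT.SZ.mem_Py.mpr ⟨hp, hpy⟩)
  have hg2 : 2 ∣ g := hgp 2 Nat.prime_two hyy2
  have htw : 0 < PnT.tw 0 y := PnT.SZ.tw_pos 0 y
  have hkap := kap y hyy2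
  rw [← hg] at hkap
  set κ : ℝ := (PnT.tw 0 y)⁻¹ with hκ
  have hκ0 : 0 < κ := inv_pos.mpr htw
  have hκG : κ ≤ 2 * g := by
    rw [← hkap]
    have h1 : (1:ℝ) ≤ (2 * g).totient := by exact_mod_cast Nat.totient_pos.2 (by omega)
    rw [div_le_iff₀ (by linarith)]
    push_cast
    nlinarith
  set θ : ℝ := min (ε / 8) 1 with hθ
  have hθ0 : 0 < θ := lt_min (by positivity) one_pos
  have hθ1 : θ ≤ 1 := min_le_right _ _
  have hθ2 : θ ≤ ε / 8 := min_le_left _ _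
  set C1 : ℝ := -Real.log θ with hC1
  have hC10 : 0 ≤ C1 := by
    rw [hC1]
    have := Real.log_nonpos hθ0.le hθ1
    linarith
  set K0 : ℝ := 32 * (g:ℝ) ^ 2 * (g + 1) / (ε * δ ^ 2) + n2 / δ + 1 with hK0
  have hK01 : 1 ≤ K0 := by
    have h1 : 0 ≤ 32 * (g:ℝ) ^ 2 * (g + 1) / (ε * δ ^ 2) := by positivity
    have h2 : 0 ≤ (n2:ℝ) / δ := by positivity
    linarith
  have hK02 : 32 * (g:ℝ) ^ 2 * (g + 1) / (ε * δ ^ 2) ≤ K0 := by
    have h2 : 0 ≤ (n2:ℝ) / δ := by positivity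
    linarith
  have hK03 : (n2:ℝ) / δ ≤ K0 := by
    have h1 : 0 ≤ 32 * (g:ℝ) ^ 2 * (g + 1) / (ε * δ ^ 2) := by positivity
    linarith
  have hK0p : 0 < K0 := by linarith
  refine ⟨K0, hK0p, fun A D0 => ?_⟩
  obtain ⟨N1, hN1⟩ := eventually_atTop.1 (hcor0.and (UMain.pr_sq.and
    (tendsto_natCast_atTop_atTop.eventually_ge_atTop (κ * n2 / δ))))
  set sn := ⌈A⌉₊ with hsn
  set b := sn * C0 with hb
  set D1 := D0 + b + 2 * sn + 4 with hD1
  have e1 : ∀ᶠ H : ℕ in atTop, Real.log H ^ (2 * b + 2) / Real.sqrt H ≤ 1 :=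
    (log_pow_div_tendsto (2 * b + 2)).eventually_le_const (by norm_num)
  have e2 : ∀ᶠ H : ℕ in atTop, Real.log (Real.log H) / Real.log H ≤
      min (1 / ((D1:ℝ) + 1)) (δ / (4 * (κ + δ) * ((D1:ℝ) + 1))) :=
    log_log_div_tendsto.eventually_le_const (lt_min (by positivity) (by positivity))
  filter_upwards [e1, e2, sw_uniform D1 (2 * b + 3),
    tendsto_log_nat.eventually_ge_atTop (9 + 4 * g + 8 * (g:ℝ) ^ 2 * (16 * g + 8) / (ε * δ ^ 2)),
    tendsto_log_nat.eventually_ge_atTop ((N1:ℝ) + 4 * (κ + δ) * C1 / δ + 2 * C1 + 1),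
    eventually_ge_atTop (4 * g)]
    with H h1 h2 hsw hLbig hLN hH4g
  intro q hq0 hQ N hNK hNA α hα β hβ
  set L := Real.log H with hLdef
  have hpos1 : 0 ≤ 8 * (g:ℝ) ^ 2 * (16 * g + 8) / (ε * δ ^ 2) := by positivity
  have hL9 : 9 + 4 * (g:ℝ) ≤ L := by linarith
  have hL1 : 1 ≤ L := by linarith
  have hL0 : 0 < L := by linarith
  have hLe : 8 * (g:ℝ) ^ 2 * (16 * g + 8) / (ε * δ ^ 2) ≤ L := by linarith
  have hH2 : 2 ≤ H := by omega
  have hH0 : (0:ℝ) < H := by exact_mod_cast (by omega : 0 < H)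
  have hH1 : (1:ℝ) ≤ H := by exact_mod_cast (by omega : 1 ≤ H)
  have hH4 : 4 * (g:ℝ) ≤ H := by exact_mod_cast hH4g
  have hsq1 : 1 ≤ Real.sqrt H := by
    rw [show (1:ℝ) = Real.sqrt 1 by simp]; exact Real.sqrt_le_sqrt hH1
  have hfr : 0 ≤ 4 * (κ + δ) * C1 / δ := by positivity
  have hN1r : (0:ℝ) ≤ N1 := Nat.cast_nonneg N1
  have hNL : L ≤ N := by
    refine le_trans ?_ hNK
    exact le_mul_of_one_le_left hL0.le hK01
  have hNN1 : N1 ≤ N := by
    have : (N1:ℝ) ≤ N := by linarith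
    exact_mod_cast this
  have hNpos : 1 ≤ N := by
    have : (1:ℝ) ≤ N := by linarith
    exact_mod_cast this
  have hNr0 : (0:ℝ) < N := by exact_mod_cast hNpos
  have hn2L : (n2:ℝ) * L ≤ δ * N := by
    have h3 : (n2:ℝ) / δ * L ≤ N := (mul_le_mul_of_nonneg_right hK03 hL0.le).trans hNK
    have h4 : (n2:ℝ) / δ * L = (n2 * L) / δ := by ring
    rw [h4, div_le_iff₀ hδ0] at h3
    linarith
  obtain ⟨hcor, hprsq, hκn⟩ := hN1 N hNN1
  have hκn2 : κ * n2 ≤ δ * N := by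
    rw [div_le_iff₀ hδ0] at hκn
    linarith
  have hNsn : (N:ℝ) ≤ L ^ sn := by
    refine hNA.trans ?_
    rw [← Real.rpow_natCast]
    exact Real.rpow_le_rpow_of_exponent_le hL1 (Nat.le_ceil A)
  set Qn : ℕ → ℕ := fun n => (q n).toNat with hQn
  set Rn : ℕ → ℕ := fun n => (qv R n).toNat with hRn
  set N' := N ^ C0 with hN'
  have hN'b : (N':ℝ) ≤ L ^ b := by
    rw [hN', hb, pow_mul]
    push_cast
    exact pow_le_pow_left₀ (by positivity) hNsn C0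
  have hHL : L ^ (2 * b + 2) ≤ H := by
    rw [div_le_one (by linarith)] at h1
    refine h1.trans ?_
    have h3 : Real.sqrt H * Real.sqrt H = H := Real.mul_self_sqrt hH0.le
    have h6 := mul_le_mul_of_nonneg_right hsq1 (Real.sqrt_nonneg H)
    linarith only [h3, h6]
  set X := XB D1 H with hX
  have hXH : H ≤ X := le_XB hL1
  have hXle : (X:ℝ) ≤ H * L ^ D1 := XB_le D1 H
  have hX0 : (0:ℝ) < X := lt_of_lt_of_le hH0 (by exact_mod_cast hXH)
  have hlogL0 : 0 ≤ Real.log L := Real.log_nonneg hL1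
  set l : ℝ := D1 * Real.log L with hl
  have hl0 : 0 ≤ l := by positivity
  have hlXl : Real.log X ≤ L + l := by
    have h3 : Real.log X ≤ Real.log (H * L ^ D1) := Real.log_le_log hX0 hXle
    rw [Real.log_mul hH0.ne' (by positivity), Real.log_pow] at h3
    exact h3
  have hlL : l ≤ L := by
    have h3 := h2.trans (min_le_left _ _)
    rw [div_le_div_iff₀ hL0 (by positivity)] at h3
    rw [hl]
    linarith only [h3, hlogL0]
  have hlδ : 2 * (κ + δ) * l ≤ δ * L / 2 := by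
    have h3 := h2.trans (min_le_right _ _)
    rw [div_le_div_iff₀ hL0 (by positivity)] at h3
    have h4 : 0 ≤ 4 * (κ + δ) * Real.log L := by positivity
    rw [hl]
    have h5 : Real.log L * (4 * (κ + δ) * (D1 + 1)) =
      2 * (2 * (κ + δ) * (D1 * Real.log L)) + 4 * (κ + δ) * Real.log L := by ring
    rw [h5] at h3
    linarith
  have hC1δ : 2 * (κ + δ) * C1 ≤ δ * L / 2 := by
    have h3 : 4 * (κ + δ) * C1 / δ ≤ L := by linarith
    rw [div_le_iff₀ hδ0] at h3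
    linarith
  have hC1L : 2 * C1 ≤ L := by linarith
  have hlX : Real.log X ≤ 2 * L := by linarith
  have hlX0 : 0 ≤ Real.log X := Real.log_natCast_nonneg X
  set K := H / g - 1 with hK
  have hgK : g * K ≤ H := (Nat.mul_le_mul_left g (Nat.sub_le _ _)).trans (Nat.mul_div_le H g)
  have hgKr : (g:ℝ) * K ≤ H := by exact_mod_cast hgK
  have hgK2 : H ≤ g * K + 2 * g := by
    have h3 := Nat.div_add_mod H g
    have h4 := Nat.mod_lt H (show 0 < g by omega)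
    have h5 : 1 ≤ H / g := (Nat.one_le_div_iff (by omega)).mpr (by omega)
    have h6 : g * K = g * (H / g) - g := by rw [hK, Nat.mul_sub, mul_one]
    have h7 : g ≤ g * (H / g) := Nat.le_mul_of_pos_right g (by omega)
    omega
  have hgK2r : (H:ℝ) ≤ g * K + 2 * g := by exact_mod_cast hgK2
  have hK1 : 1 ≤ K := by
    have h5 : 4 ≤ H / g := (Nat.le_div_iff_mul_le (by omega)).mpr hH4g
    omega
  have hKr : (0:ℝ) < K := by exact_mod_cast hK1
  have hKH : (K:ℝ) ≤ H := (le_mul_of_one_le_left (Nat.cast_nonneg K) hgr).trans hgKr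
  have hK2H : (K:ℝ) ^ 2 ≤ (H:ℝ) ^ 2 / (g:ℝ) ^ 2 := by
    rw [le_div_iff₀ (by positivity), ← mul_pow, mul_comm]
    exact pow_le_pow_left₀ (by positivity) hgKr 2
  set E := (H:ℝ) / L ^ (2 * b + 3) with hE
  have hE0 : 0 ≤ E := by positivity
  have hSW : SWH X (2 * g * N') E := by
    intro x hx r hr hrY a ha
    refine hsw x ?_ r hr ?_ a ha
    · exact le_trans (by exact_mod_cast hx) hXle
    · have h3 : (r:ℝ) ≤ 2 * g * N' := by exact_mod_cast hrY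
      refine h3.trans ?_
      calc 2 * (g:ℝ) * N' ≤ 2 * g * L ^ b := by gcongr
        _ ≤ L * L ^ b := by gcongr; linarith
        _ = L ^ (b + 1) := by ring
        _ ≤ L ^ D1 := pow_le_pow_right₀ hL1 (by omega)
  set S := UMain.SS Qn Rn n2 N g α β with hS
  have hSN : (S.card : ℝ) ≤ N := by
    have h3 : S.card ≤ (Icc 1 N).card := card_le_card (filter_subset _ _)
    rw [Nat.card_Icc] at h3
    exact_mod_cast (by omega : S.card ≤ N)
  have hS0 : (0:ℝ) ≤ S.card := Nat.cast_nonneg _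
  have hSmem : ∀ n ∈ S, n2 ≤ n ∧ 1 ≤ n ∧ n ≤ N ∧ (pr n + 2 * (Qn n + β + α * Rn n)).Coprime g := by
    intro n hn
    rw [hS] at hn
    unfold UMain.SS at hn
    rw [mem_filter, mem_Icc] at hn
    exact ⟨hn.2.1, hn.1.1, hn.1.2, hn.2.2⟩
  have hcorS := hcor S (fun n hn => mem_Icc.mpr ⟨(hSmem n hn).2.1, (hSmem n hn).2.2.1⟩)
        (fun n hn => (hSmem n hn).1) g hgp
  have hXX : ∀ n ∈ S, pr n + 2 * (Qn n + β + α * Rn n) + 2 * g * (K + K * Rn n) ≤ X := by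
    intro n hnS
    obtain ⟨hnn2, hn1, hnN, -⟩ := hSmem n hnS
    rw [hX]
    unfold XB
    refine Nat.le_floor ?_
    have hnNr : (n:ℝ) ≤ N := by exact_mod_cast hnN
    have hpr : (pr n:ℝ) ≤ L ^ (2 * sn) := by
      have h3 : (pr n : ℝ) ≤ (N:ℝ) ^ 2 := by exact_mod_cast hprsq n hnN
      refine h3.trans ?_
      rw [mul_comm 2 sn, pow_mul]
      exact pow_le_pow_left₀ hNr0.le hNsn 2
    have hRnn : (Rn n:ℝ) ≤ L ^ b := by
      have h3 : Rn n ≤ N' := (hle n hnn2).trans (Nat.pow_le_pow_left hnN C0)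
      exact le_trans (by exact_mod_cast h3) hN'b
    have hQnn : (Qn n : ℝ) ≤ H * L ^ D0 := by
      have h3 : ((Qn n : ℕ) : ℤ) = q n := Int.toNat_of_nonneg (hq0 n hnn2)
      have h4 : ((Qn n : ℕ) : ℝ) = (q n : ℝ) := by exact_mod_cast congrArg (fun z : ℤ => (z : ℝ)) h3
      rw [h4]
      exact hQ n (hnNr.trans hNA)
    have hαr : (α:ℝ) ≤ g := by exact_mod_cast hα.le
    have hβr : (β:ℝ) ≤ g := by exact_mod_cast hβ.le
    set m := L ^ (D0 + b + 2 * sn) with hm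
    have hm1 : 1 ≤ m := one_le_pow₀ hL1
    have hm2 : L ^ (2 * sn) ≤ m := pow_le_pow_right₀ hL1 (by omega)
    have hm3 : L ^ D0 ≤ m := pow_le_pow_right₀ hL1 (by omega)
    have hm4 : L ^ b ≤ m := pow_le_pow_right₀ hL1 (by omega)
    have hHm : m ≤ H * m := le_mul_of_one_le_left (by linarith) hH1
    push_cast
    calc (pr n:ℝ) + 2 * (Qn n + β + α * Rn n) + 2 * g * (K + K * Rn n) =
          pr n + 2 * Qn n + 2 * β + 2 * α * Rn n + 2 * (g * K) * (1 + Rn n) := by ring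
      _ ≤ m + 2 * (H * m) + 2 * g * m + 2 * g * m + 2 * H * (m + m) := by
          have h4 : (1:ℝ) + Rn n ≤ m + m := by linarith
          have h5 : (Rn n:ℝ) ≤ m := by linarith
          have h6 : (Qn n : ℝ) ≤ H * m := hQnn.trans (by gcongr)
          have h7 : (β:ℝ) ≤ g * m := hβr.trans (le_mul_of_one_le_right (Nat.cast_nonneg g) hm1)
          have h8 : (pr n:ℝ) ≤ m := by linarith
          have h9 : 2 * (α:ℝ) * Rn n ≤ 2 * g * m := by gcongr
          have h10 : 2 * ((g:ℝ) * K) * (1 + Rn n) ≤ 2 * H * (m + m) := by gcongr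
          linarith only [h6, h7, h8, h9, h10]
      _ ≤ (7 + 4 * g) * (H * m) := by
          have h4 := mul_le_mul_of_nonneg_left hHm (Nat.cast_nonneg (α := ℝ) g)
          linarith only [h4, hHm]
      _ ≤ L * (H * m) := by gcongr; linarith
      _ = H * L ^ (D0 + b + 2 * sn + 1) := by rw [hm]; ring
      _ ≤ H * L ^ D1 := by
          refine mul_le_mul_of_nonneg_left ?_ hH0.le
          exact pow_le_pow_right₀ hL1 (by omega)
  have hy0r : (0:ℝ) < y := by exact_mod_cast (by omega : 0 < y)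
  have hD2 : 0 ≤ C / y * (N:ℝ) ^ 2 := by positivity
  have hvar := class_var n2 C0 g N N' K X E Qn Rn α β S (C / y * (N:ℝ) ^ 2) hmono hpos hle hg0 hg2
    hNpos le_rfl hE0 hSW hSmem hD2 hcorS hXX
  rw [hkap] at hvar
  have h6 := err_le2 (g := g) (K := K) (b := b) (N' := (N':ℝ)) (E := E) hL1 hH0
      (show 0 ≤ Real.log X / N by positivity) hlX0 hlX (Nat.cast_nonneg _) hN'b hKH hHL hE
  set XS : ℕ × ℕ → ℝ := fun t => ∑ n ∈ S, w (pr n + 2 * (Qn n + β + α * Rn n) +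
    2 * g * (t.1 + t.2 * Rn n)) with hXS
  set W0 : ℝ := κ ^ 2 * (K:ℝ) ^ 2 * (C / y) + (2 * (g + 1) * (Real.log X / N) * (H:ℝ) ^ 2 +
    (16 * g + 8) * ((H:ℝ) ^ 2 / L)) with hW0
  have hV : ∑ t ∈ Ioc 0 K ×ˢ Ioc 0 K, (XS t - κ * S.card) ^ 2 ≤ (N:ℝ) ^ 2 * W0 := by
    refine hvar.trans ?_
    have h7 : (S.card : ℝ) * Real.log X * (K * (κ * K + 2 * E)) ≤
        (N:ℝ) ^ 2 * (Real.log X / N * (K * (2 * g * K + 2 * E))) := by
      have h8 : (N:ℝ) ^ 2 * (Real.log X / N * (K * (2 * g * K + 2 * E))) =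
          N * Real.log X * (K * (2 * g * K + 2 * E)) := by field_simp
      rw [h8]
      gcongr
    have h8 : (S.card : ℝ) ^ 2 * ((((2 * g : ℕ) : ℝ) * (N' : ℝ) ^ 2 * K * (2 * E + Real.log X) +
          2 * E * (K * (1 + N')) * Real.log X) + 4 * κ * E * K) ≤
        (N:ℝ) ^ 2 * ((2 * g * (N' : ℝ) ^ 2 * K * (2 * E + Real.log X) +
          2 * E * (K * (1 + N')) * Real.log X) + 4 * (2 * g) * E * K) := by
      push_cast
      gcongr
    have h9 := mul_le_mul_of_nonneg_left h6 (sq_nonneg (N:ℝ))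
    calc _ ≤ κ ^ 2 * (K:ℝ) ^ 2 * (C / y * (N:ℝ) ^ 2) +
          ((N:ℝ) ^ 2 * (Real.log X / N * (K * (2 * g * K + 2 * E))) +
          (N:ℝ) ^ 2 * ((2 * g * (N' : ℝ) ^ 2 * K * (2 * E + Real.log X) +
          2 * E * (K * (1 + N')) * Real.log X) + 4 * (2 * g) * E * K)) :=
          add_le_add le_rfl (add_le_add h7 h8)
      _ = κ ^ 2 * (K:ℝ) ^ 2 * (C / y * (N:ℝ) ^ 2) + (N:ℝ) ^ 2 *
          (Real.log X / N * (K * (2 * g * K + 2 * E)) +
          (2 * g * (N' : ℝ) ^ 2 * K * (2 * E + Real.log X) +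
          2 * E * (K * (1 + N')) * Real.log X) + 4 * (2 * g) * E * K) := by ring
      _ ≤ κ ^ 2 * (K:ℝ) ^ 2 * (C / y * (N:ℝ) ^ 2) + (N:ℝ) ^ 2 *
          (2 * (g + 1) * (Real.log X / N) * (H:ℝ) ^ 2 + (16 * g + 8) * ((H:ℝ) ^ 2 / L)) :=
          add_le_add le_rfl h9
      _ = _ := by rw [hW0]; ring
  have hg2r : (0:ℝ) < (g:ℝ) ^ 2 := by positivity
  have hW : W0 / δ ^ 2 ≤ 3 * (ε / 8 * ((H:ℝ) ^ 2 / (g:ℝ) ^ 2)) := by
    have t1 : κ ^ 2 * (K:ℝ) ^ 2 * (C / y) / δ ^ 2 ≤ ε / 8 * ((H:ℝ) ^ 2 / (g:ℝ) ^ 2) := by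
      calc κ ^ 2 * (K:ℝ) ^ 2 * (C / y) / δ ^ 2 = (κ ^ 2 * (C / y) / δ ^ 2) * (K:ℝ) ^ 2 := by ring
        _ ≤ ε / 8 * ((H:ℝ) ^ 2 / (g:ℝ) ^ 2) :=
          mul_le_mul hvy hK2H (by positivity) (by positivity)
    have t2 : 2 * ((g:ℝ) + 1) * (Real.log X / N) * (H:ℝ) ^ 2 / δ ^ 2 ≤
        ε / 8 * ((H:ℝ) ^ 2 / (g:ℝ) ^ 2) := by
      have h7 : Real.log X / N ≤ 2 / K0 := by
        rw [div_le_div_iff₀ hNr0 hK0p]
        calc Real.log X * K0 ≤ (2 * L) * K0 := by gcongr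
          _ = 2 * (K0 * L) := by ring
          _ ≤ 2 * N := by linarith
      have h8 : 2 * ((g:ℝ) + 1) * (2 / K0) / δ ^ 2 ≤ ε / 8 / (g:ℝ) ^ 2 := by
        rw [div_le_iff₀ (by positivity)] at hK02
        rw [div_div, div_le_div_iff₀ (by positivity) (by positivity)]
        have h9 : 2 * ((g:ℝ) + 1) * (2 / K0) * (8 * (g:ℝ) ^ 2) = 32 * (g:ℝ) ^ 2 * (g + 1) / K0 := by
          ring
        rw [h9, div_le_iff₀ hK0p]
        linarith
      calc 2 * ((g:ℝ) + 1) * (Real.log X / N) * (H:ℝ) ^ 2 / δ ^ 2 ≤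
            2 * ((g:ℝ) + 1) * (2 / K0) * (H:ℝ) ^ 2 / δ ^ 2 := by gcongr
        _ = (2 * ((g:ℝ) + 1) * (2 / K0) / δ ^ 2) * (H:ℝ) ^ 2 := by ring
        _ ≤ (ε / 8 / (g:ℝ) ^ 2) * (H:ℝ) ^ 2 := mul_le_mul_of_nonneg_right h8 (by positivity)
        _ = _ := by ring
    have t3 : (16 * (g:ℝ) + 8) * ((H:ℝ) ^ 2 / L) / δ ^ 2 ≤ ε / 8 * ((H:ℝ) ^ 2 / (g:ℝ) ^ 2) := by
      have h8 : (16 * (g:ℝ) + 8) / L / δ ^ 2 ≤ ε / 8 / (g:ℝ) ^ 2 := by
        rw [div_le_iff₀ (by positivity)] at hLe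
        rw [div_div, div_div, div_le_div_iff₀ (by positivity) (by positivity)]
        linarith
      calc (16 * (g:ℝ) + 8) * ((H:ℝ) ^ 2 / L) / δ ^ 2 = ((16 * (g:ℝ) + 8) / L / δ ^ 2) * (H:ℝ) ^ 2 := by
            ring
        _ ≤ (ε / 8 / (g:ℝ) ^ 2) * (H:ℝ) ^ 2 := mul_le_mul_of_nonneg_right h8 (by positivity)
        _ = _ := by ring
    rw [hW0, add_div, add_div]
    linarith
  set T1 := (Ioc 0 K ×ˢ Ioc 0 K).filter (fun t : ℕ × ℕ => (t.1 : ℝ) < θ * K) with hT1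
  set T2 := (Ioc 0 K ×ˢ Ioc 0 K).filter (fun t : ℕ × ℕ => δ * N < |XS t - κ * S.card|) with hT2
  have c2 : (T2.card : ℝ) ≤ 3 * (ε / 8 * ((H:ℝ) ^ 2 / (g:ℝ) ^ 2)) := by
    refine le_trans ?_ hW
    rw [le_div_iff₀ (by positivity)]
    have h7 : (T2.card : ℝ) * (δ * N) ^ 2 ≤ (N:ℝ) ^ 2 * W0 := by
      refine le_trans ?_ hV
      calc (T2.card : ℝ) * (δ * N) ^ 2 = ∑ _t ∈ T2, (δ * N) ^ 2 := by rw [sum_const, nsmul_eq_mul]
        _ ≤ ∑ t ∈ T2, (XS t - κ * S.card) ^ 2 := by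
            refine sum_le_sum fun t ht => ?_
            have h8 := (mem_filter.1 ht).2
            have h9 : 0 ≤ δ * N := by positivity
            calc (δ * N) ^ 2 ≤ |XS t - κ * S.card| ^ 2 := pow_le_pow_left₀ h9 h8.le 2
              _ = _ := sq_abs _
        _ ≤ _ := sum_le_sum_of_subset_of_nonneg (filter_subset _ _) fun t _ _ => sq_nonneg _
    have h8 : (N:ℝ) ^ 2 * ((T2.card : ℝ) * δ ^ 2) ≤ (N:ℝ) ^ 2 * W0 := by
      refine le_trans (le_of_eq ?_) h7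
      ring
    exact le_of_mul_le_mul_left h8 (by positivity)
  have c1 : (T1.card : ℝ) ≤ ε / 8 * ((H:ℝ) ^ 2 / (g:ℝ) ^ 2) := by
    have h7 : T1 ⊆ Ioc 0 ⌊θ * (K:ℝ)⌋₊ ×ˢ Ioc 0 K := by
      intro t ht
      rw [hT1, mem_filter, mem_product, mem_Ioc, mem_Ioc] at ht
      rw [mem_product, mem_Ioc, mem_Ioc]
      exact ⟨⟨ht.1.1.1, Nat.le_floor ht.2.le⟩, ht.1.2⟩
    have h8 : (T1.card : ℝ) ≤ (⌊θ * (K:ℝ)⌋₊ : ℝ) * K := by
      have h9 := card_le_card h7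
      rw [card_product, Nat.card_Ioc, Nat.card_Ioc, Nat.sub_zero, Nat.sub_zero] at h9
      exact_mod_cast h9
    calc (T1.card : ℝ) ≤ (⌊θ * (K:ℝ)⌋₊ : ℝ) * K := h8
      _ ≤ (θ * K) * K := by
          gcongr
          exact Nat.floor_le (by positivity)
      _ = θ * (K:ℝ) ^ 2 := by ring
      _ ≤ ε / 8 * ((H:ℝ) ^ 2 / (g:ℝ) ^ 2) := mul_le_mul hθ2 hK2H (by positivity) (by positivity)
  have hsub : (Ioc 0 K ×ˢ Ioc 0 K).filter (fun t : ℕ × ℕ =>
        BadP ε y N H q R (α + g * t.2) (β + g * t.1)) ⊆ T1 ∪ T2 := by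
    intro t ht
    by_contra hcon
    rw [mem_filter] at ht
    simp only [mem_union, hT1, hT2, mem_filter, not_or, not_and, not_lt] at hcon
    have g1 := hcon.1 ht.1
    have g2 := hcon.2 ht.1
    have htI := ht.1
    rw [mem_product, mem_Ioc, mem_Ioc] at htI
    obtain ⟨⟨ht1, ht1K⟩, ⟨ht2, ht2K⟩⟩ := htI
    set c : ℕ := ((Icc 1 N).filter (fun n => n2 ≤ n ∧
      (pr n + 2 * (Qn n + β + α * Rn n) + 2 * g * (t.1 + t.2 * Rn n)).Prime)).card with hc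
    have hsw2 := w_sandwich (n2 := n2) (N := N) (g := g) (α := α) (β := β) (Q := Qn) (R := Rn)
      (t := t) hg0 ht1 (A := L - C1) (B := L + l) (by
        intro n _
        have h7 : θ * H ≤ ((pr n + 2 * (Qn n + β + α * Rn n) + 2 * g * (t.1 + t.2 * Rn n) : ℕ) : ℝ) := by
          have h8 : ((2 * g * t.1 : ℕ) : ℝ) ≤
              ((pr n + 2 * (Qn n + β + α * Rn n) + 2 * g * (t.1 + t.2 * Rn n) : ℕ) : ℝ) := by
            have h9 : 2 * g * t.1 ≤ 2 * g * (t.1 + t.2 * Rn n) := Nat.mul_le_mul_left _ (by omega)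
            exact_mod_cast (by omega : 2 * g * t.1 ≤
              pr n + 2 * (Qn n + β + α * Rn n) + 2 * g * (t.1 + t.2 * Rn n))
          refine le_trans ?_ h8
          push_cast
          have h9 : θ * H ≤ θ * (2 * (g * K)) := by
            refine mul_le_mul_of_nonneg_left ?_ hθ0.le
            linarith
          calc θ * H ≤ θ * (2 * (g * K)) := h9
            _ = 2 * g * (θ * K) := by ring
            _ ≤ 2 * g * t.1 := by gcongr
        have h8 := Real.log_le_log (by positivity) h7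
        rw [Real.log_mul hθ0.ne' hH0.ne'] at h8
        rw [hC1]
        linarith) (by
        intro n hn
        have h7 := hXX n hn
        have h8 : pr n + 2 * (Qn n + β + α * Rn n) + 2 * g * (t.1 + t.2 * Rn n) ≤ X := by
          refine le_trans ?_ h7
          have h9 : t.1 + t.2 * Rn n ≤ K + K * Rn n :=
            add_le_add ht1K (Nat.mul_le_mul_right _ ht2K)
          have h10 := Nat.mul_le_mul_left (2 * g) h9
          omega
        have h9 : (0:ℝ) < ((pr n + 2 * (Qn n + β + α * Rn n) + 2 * g * (t.1 + t.2 * Rn n) : ℕ) : ℝ) := by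
          have h10 : 0 < 2 * g * (t.1 + t.2 * Rn n) := by positivity
          exact_mod_cast (by omega : 0 < pr n + 2 * (Qn n + β + α * Rn n) +
            2 * g * (t.1 + t.2 * Rn n))
        refine (Real.log_le_log h9 (by exact_mod_cast h8)).trans hlXl)
    rw [← hS, ← hc] at hsw2
    have hcore := two_core (c := (c:ℝ)) (X := XS t) (M := κ * S.card) (L := L) (l := l) (C1 := C1)
      (δ := δ) (κ := κ) (N := (N:ℝ)) (Nat.cast_nonneg _) hNr0.le hl0 hC10 hδ0.le hκ0.le hL0 hC1L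
      (mul_le_mul_of_nonneg_left hSN hκ0.le) hsw2.1 hsw2.2 g2 (by linarith)
    -- the two counts
    have hceq : ((Icc 1 N).filter (fun n => n2 ≤ n ∧
        (pr n + 2 * ((q n).toNat + (α + g * t.2) * (qv R n).toNat + (β + g * t.1))).Prime)).card = c := by
      rw [hc]
      congr 1
      refine filter_congr fun n _ => ?_
      have h7 : pr n + 2 * ((q n).toNat + (α + g * t.2) * (qv R n).toNat + (β + g * t.1)) =
          pr n + 2 * (Qn n + β + α * Rn n) + 2 * g * (t.1 + t.2 * Rn n) := by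
        rw [hQn, hRn]
        ring
      rw [h7]
    have k1 := cntf_ge (q := q) (R := R) hq0 hpos (α + g * t.2) (β + g * t.1) N
    have k2 := cntf_le (q := q) (R := R) hq0 hpos (α + g * t.2) (β + g * t.1) N
    rw [hceq] at k1 k2
    have k1r : (c:ℝ) ≤ (cntf (fab q R ((α + g * t.2 : ℕ) : ℤ) ((β + g * t.1 : ℕ) : ℤ)) N : ℝ) := by
      exact_mod_cast k1
    have k2r : (cntf (fab q R ((α + g * t.2 : ℕ) : ℤ) ((β + g * t.1 : ℕ) : ℤ)) N : ℝ) ≤ c + n2 := by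
      exact_mod_cast k2
    have m0 := sum_Ly_class q R y N α β t.1 t.2
    rw [← hg, UMain.sum_Ly (fab q R (α : ℤ) (β : ℤ)) y N] at m0
    have m1 := SS_le (R := R) hq0 hpos y N α β
    have m2 := UMain.copf_le (R := R) hq0 hpos y N α β
    have m1r : (S.card : ℝ) ≤ (copf (fab q R α β) y N : ℝ) := by
      have : S.card ≤ copf (fab q R α β) y N := m1
      exact_mod_cast this
    have m2r : (copf (fab q R α β) y N : ℝ) ≤ (S.card : ℝ) + n2 := m2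
    rw [← hκ] at m0
    have hbad := ht.2
    unfold BadP at hbad
    rw [m0] at hbad
    set cn : ℝ := (cntf (fab q R ((α + g * t.2 : ℕ) : ℤ) ((β + g * t.1 : ℕ) : ℤ)) N : ℝ) with hcn
    set cp : ℝ := (copf (fab q R α β) y N : ℝ) with hcp
    have hfin : |cn * L - cp * κ| ≤ 4 * (δ * N) := by
      have e := abs_le.1 hcore
      have f1 : (c:ℝ) * L ≤ cn * L := mul_le_mul_of_nonneg_right k1r hL0.le
      have f2 : cn * L ≤ c * L + n2 * L := by
        rw [← add_mul]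
        exact mul_le_mul_of_nonneg_right k2r hL0.le
      have f3 : κ * S.card ≤ cp * κ := by
        rw [mul_comm cp]
        exact mul_le_mul_of_nonneg_left m1r hκ0.le
      have f4 : cp * κ ≤ κ * S.card + κ * n2 := by
        rw [mul_comm cp, ← mul_add]
        exact mul_le_mul_of_nonneg_left m2r hκ0.le
      rw [abs_le]
      constructor <;> linarith [e.1, e.2]
    have hfin2 : |cn - 1 / L * (cp * κ)| ≤ ε * (N / L) := by
      have h7 : cn - 1 / L * (cp * κ) = (cn * L - cp * κ) / L := by field_simp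
      rw [h7, abs_div, abs_of_pos hL0, ← mul_div_assoc]
      refine div_le_div_of_nonneg_right ?_ hL0.le
      refine hfin.trans (le_of_eq ?_)
      rw [hδ]
      ring
    exact absurd hbad (not_lt.mpr hfin2)
  calc _ ≤ ((T1 ∪ T2).card : ℝ) := by exact_mod_cast card_le_card hsub
    _ ≤ (T1.card : ℝ) + T2.card := by exact_mod_cast card_union_le _ _
    _ ≤ ε / 8 * ((H:ℝ) ^ 2 / (g:ℝ) ^ 2) + 3 * (ε / 8 * ((H:ℝ) ^ 2 / (g:ℝ) ^ 2)) := add_le_add c1 c2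
    _ ≤ ε / (g:ℝ) ^ 2 * (H:ℝ) ^ 2 := by
        have h7 : ε / (g:ℝ) ^ 2 * (H:ℝ) ^ 2 = ε * ((H:ℝ) ^ 2 / (g:ℝ) ^ 2) := by ring
        rw [h7]
        have h8 : 0 ≤ ε * ((H:ℝ) ^ 2 / (g:ℝ) ^ 2) := by positivity
        linarith

end Pool.Agent.PnHL
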