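import Pool.Agent.PnHL.ClassVar
import Pool.Agent.PnHL.Shift
import Pool.Agent.PnU.Main

/-!
# Auxiliary lemmas for the two-sided estimate in a class
-/

open Finset Filter Topology

namespace Pool.Agent.PnHL

open Pool.Agent.PnPoly Pool.Agent.PnMaynard Pool.Agent.PnMaynard2 Pool.Agent.PnU
open Pool.Agent.PnLG (qv Ly Py)
open Pool.Agent.PnPoly.NC (np)

open Classical in
/-- number of the `n < N` such that `p_{n+1} + 2 f(n+1)` is prime -/
noncomputable def cntf (f : ℕ → ℤ) (N : ℕ) : ℕ :=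
  ((range N).filter (fun n => ∃ r : ℕ, r.Prime ∧ (r : ℤ) = sf f n)).card

lemma kap (y : ℕ) (hy : 2 ≤ y) :
    ((2 * PnT.PP y : ℕ) : ℝ) / (2 * PnT.PP y).totient = (PnT.tw 0 y)⁻¹ := by
  have h2 : 2 ∣ PnT.PP y := PnT.SZ.dvd_PP (PnT.SZ.mem_Py.mpr ⟨Nat.prime_two, hy⟩)
  rw [Nat.totient_mul_of_prime_of_dvd Nat.prime_two h2]
  have ht : ((PnT.PP y).totient : ℝ) = ∏ p ∈ Py y, ((p:ℝ) - 1) := totient_P y
  have hg : ((PnT.PP y : ℕ) : ℝ) = ∏ p ∈ Py y, (p:ℝ) := by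
    unfold PnT.PP
    push_cast
    rfl
  push_cast
  rw [mul_div_mul_left _ _ (two_ne_zero), ht, hg, ← Finset.prod_div_distrib]
  have h0 : Py y \ Py 0 = Py y := by
    ext p
    rw [PnT.SZ.mem_diff, PnT.SZ.mem_Py]
    constructor
    · rintro ⟨a, -, c⟩; exact ⟨a, c⟩
    · rintro ⟨a, c⟩; exact ⟨a, a.pos, c⟩
  unfold PnT.tw
  rw [h0, ← prod_inv_distrib]
  refine prod_congr rfl fun p hp => ?_
  have hpp : p.Prime := (PnT.SZ.mem_Py.mp hp).1
  have h2 : (2:ℝ) ≤ p := by exact_mod_cast hpp.two_le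
  have e1 : (p:ℝ) ≠ 0 := by intro h; linarith
  rw [one_sub_div e1, inv_div]

lemma value_eq {q : ℕ → ℤ} {R : Polynomial ℚ} {n2 : ℕ} (hq : ∀ n, n2 ≤ n → 0 ≤ q n)
    (hR : ∀ n, n2 ≤ n → 1 ≤ (qv R n).toNat) (a b n : ℕ) (hn : n2 ≤ n) (hn1 : 1 ≤ n) :
    sf (fab q R a b) (n - 1) =
      ((pr n + 2 * ((q n).toNat + a * (qv R n).toNat + b) : ℕ) : ℤ) := by
  unfold sf fab np pr
  have e1 : (((q n).toNat : ℕ) : ℤ) = q n := Int.toNat_of_nonneg (hq _ hn)
  have e2 : (((qv R n).toNat : ℕ) : ℤ) = qv R n := by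
    refine Int.toNat_of_nonneg ?_
    have := hR n hn
    omega
  rw [Nat.sub_add_cancel hn1]
  push_cast
  rw [e1, e2]

lemma cntf_ge {q : ℕ → ℤ} {R : Polynomial ℚ} {n2 : ℕ} (hq : ∀ n, n2 ≤ n → 0 ≤ q n)
    (hR : ∀ n, n2 ≤ n → 1 ≤ (qv R n).toNat) (a b N : ℕ) :
    ((Icc 1 N).filter (fun n => n2 ≤ n ∧
      (pr n + 2 * ((q n).toNat + a * (qv R n).toNat + b)).Prime)).card ≤ cntf (fab q R a b) N := by
  classical
  unfold cntf
  refine Finset.card_le_card_of_injOn (fun n => n - 1) ?_ ?_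
  · intro n hn
    rw [mem_coe, mem_filter, mem_Icc] at hn
    rw [mem_coe, mem_filter, mem_range]
    refine ⟨show n - 1 < N by omega, _, hn.2.2, ?_⟩
    exact (value_eq hq hR a b n hn.2.1 hn.1.1).symm
  · intro m hm n hn h
    rw [mem_coe, mem_filter, mem_Icc] at hm hn
    simp only at h
    omega

lemma cntf_le {q : ℕ → ℤ} {R : Polynomial ℚ} {n2 : ℕ} (hq : ∀ n, n2 ≤ n → 0 ≤ q n)
    (hR : ∀ n, n2 ≤ n → 1 ≤ (qv R n).toNat) (a b N : ℕ) :
    cntf (fab q R a b) N ≤ ((Icc 1 N).filter (fun n => n2 ≤ n ∧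
      (pr n + 2 * ((q n).toNat + a * (qv R n).toNat + b)).Prime)).card + n2 := by
  classical
  unfold cntf
  set T := (Icc 1 N).filter (fun n => n2 ≤ n ∧
      (pr n + 2 * ((q n).toNat + a * (qv R n).toNat + b)).Prime) with hT
  have h1 : ((range N).filter (fun n => ∃ r : ℕ, r.Prime ∧ (r : ℤ) = sf (fab q R a b) n)).image
      (fun n => n + 1) ⊆ T ∪ range n2 := by
    intro m hm
    rw [mem_image] at hm
    obtain ⟨n, hn, rfl⟩ := hm
    rw [mem_filter, mem_range] at hn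
    rw [mem_union, mem_range]
    by_cases h : n + 1 < n2
    · exact Or.inr h
    left
    rw [hT, mem_filter, mem_Icc]
    obtain ⟨hnN, r, hr, hr2⟩ := hn
    refine ⟨⟨by omega, by omega⟩, by omega, ?_⟩
    have h3 := value_eq hq hR a b (n + 1) (by omega) (by omega)
    rw [Nat.add_sub_cancel] at h3
    rw [h3] at hr2
    have h4 : r = pr (n + 1) + 2 * ((q (n + 1)).toNat + a * (qv R (n + 1)).toNat + b) := by
      exact_mod_cast hr2
    rw [← h4]
    exact hr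
  have h2 := card_le_card h1
  rw [card_image_of_injective _ (fun a b h => by simpa using h)] at h2
  refine h2.trans ((card_union_le _ _).trans ?_)
  rw [card_range]

lemma SS_le {q : ℕ → ℤ} {R : Polynomial ℚ} {n2 : ℕ} (hq : ∀ n, n2 ≤ n → 0 ≤ q n)
    (hR : ∀ n, n2 ≤ n → 1 ≤ (qv R n).toNat) (y N α β : ℕ) :
    (UMain.SS (fun n => (q n).toNat) (fun n => (qv R n).toNat) n2 N (PnT.PP y) α β).card ≤
      copf (fab q R α β) y N := by
  classical
  unfold copf UMain.SS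
  refine Finset.card_le_card_of_injOn (fun n => n - 1) ?_ ?_
  · intro n hn
    rw [mem_coe, mem_filter, mem_Icc] at hn
    rw [mem_coe, mem_filter, mem_range]
    refine ⟨show n - 1 < N by omega, fun p hp hd => ?_⟩
    have h1 := value_eq hq hR α β n hn.2.1 hn.1.1
    simp only at hd
    rw [h1] at hd
    have hpp : p.Prime := (PnT.SZ.mem_Py.mp hp).1
    have h2 : p ∣ pr n + 2 * ((q n).toNat + α * (qv R n).toNat + β) := by exact_mod_cast hd
    have h3 : pr n + 2 * ((q n).toNat + α * (qv R n).toNat + β) =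
        pr n + 2 * ((q n).toNat + β + α * (qv R n).toNat) := by ring
    rw [h3] at h2
    have h4 := Nat.dvd_gcd h2 (PnT.SZ.dvd_PP hp)
    have h5 : Nat.gcd (pr n + 2 * ((q n).toNat + β + α * (qv R n).toNat)) (PnT.PP y) = 1 := hn.2.2
    rw [h5] at h4
    exact hpp.one_lt.ne' (Nat.dvd_one.mp h4)
  · intro m hm n hn h
    rw [mem_coe, mem_filter, mem_Icc] at hm hn
    simp only at h
    omega

/-- the local sum depends on the class only -/
lemma sum_Ly_class (q : ℕ → ℤ) (R : Polynomial ℚ) (y N α β t1 t2 : ℕ) :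
    ∑ n ∈ range N, Ly y (sf (fab q R ((α + PnT.PP y * t2 : ℕ) : ℤ) ((β + PnT.PP y * t1 : ℕ) : ℤ)) n) =
      ∑ n ∈ range N, Ly y (sf (fab q R (α : ℤ) (β : ℤ)) n) := by
  refine Finset.sum_congr rfl fun n _ => ?_
  refine Pool.Agent.PnHLs.Ly_congr_p y _ _ fun p hp => ?_
  have h1 : (p : ℤ) ∣ ((PnT.PP y : ℕ) : ℤ) := by exact_mod_cast PnT.SZ.dvd_PP hp
  have h2 : sf (fab q R ((α + PnT.PP y * t2 : ℕ) : ℤ) ((β + PnT.PP y * t1 : ℕ) : ℤ)) n -
      sf (fab q R (α : ℤ) (β : ℤ)) n = ((PnT.PP y : ℕ) : ℤ) * (2 * ((t2 : ℤ) * qv R (n + 1) + t1)) := by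
    unfold sf fab
    push_cast
    ring
  rw [h2]
  exact Dvd.dvd.mul_right h1 _

/-- comparison of the weighted and the unweighted count -/
lemma w_sandwich {n2 N g α β : ℕ} {Q R : ℕ → ℕ} {t : ℕ × ℕ} (hg : 1 ≤ g) (ht : 1 ≤ t.1) {A B : ℝ}
    (hA : ∀ n, (pr n + 2 * (Q n + β + α * R n) + 2 * g * (t.1 + t.2 * R n)).Prime →
      A ≤ Real.log (pr n + 2 * (Q n + β + α * R n) + 2 * g * (t.1 + t.2 * R n) : ℕ))
    (hB : ∀ n ∈ UMain.SS Q R n2 N g α β,
      Real.log (pr n + 2 * (Q n + β + α * R n) + 2 * g * (t.1 + t.2 * R n) : ℕ) ≤ B) :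
    A * (((Icc 1 N).filter (fun n => n2 ≤ n ∧
      (pr n + 2 * (Q n + β + α * R n) + 2 * g * (t.1 + t.2 * R n)).Prime)).card : ℝ) ≤
      ∑ n ∈ UMain.SS Q R n2 N g α β,
        w (pr n + 2 * (Q n + β + α * R n) + 2 * g * (t.1 + t.2 * R n)) ∧
    ∑ n ∈ UMain.SS Q R n2 N g α β,
        w (pr n + 2 * (Q n + β + α * R n) + 2 * g * (t.1 + t.2 * R n)) ≤
      B * (((Icc 1 N).filter (fun n => n2 ≤ n ∧
      (pr n + 2 * (Q n + β + α * R n) + 2 * g * (t.1 + t.2 * R n)).Prime)).card : ℝ) := by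
  classical
  set v : ℕ → ℕ := fun n => pr n + 2 * (Q n + β + α * R n) + 2 * g * (t.1 + t.2 * R n) with hv
  have hT : (Icc 1 N).filter (fun n => n2 ≤ n ∧ (v n).Prime) =
      (UMain.SS Q R n2 N g α β).filter (fun n => (v n).Prime) := by
    ext n
    unfold UMain.SS
    rw [mem_filter, mem_filter, mem_filter]
    constructor
    · rintro ⟨h1, h2, h3⟩
      refine ⟨⟨h1, h2, ?_⟩, h3⟩
      by_contra hcon
      obtain ⟨p, hp, hp1, hp2⟩ := Nat.Prime.not_coprime_iff_dvd.mp hcon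
      have h4 : p ∣ v n := by
        rw [hv]
        simp only
        refine dvd_add hp1 ?_
        rw [mul_assoc]
        exact Dvd.dvd.mul_left (Dvd.dvd.mul_right hp2 _) 2
      have h5 : p = v n := (Nat.prime_dvd_prime_iff_eq hp h3).mp h4
      have h6 : p ≤ g := Nat.le_of_dvd (by omega) hp2
      have h7 : g < v n := by
        rw [hv]
        simp only
        have h8 : 2 * g * 1 ≤ 2 * g * (t.1 + t.2 * R n) := Nat.mul_le_mul_left _ (by omega)
        omega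
      omega
    · rintro ⟨⟨h1, h2, h3⟩, h4⟩
      exact ⟨h1, h2, h4⟩
  have hX : ∑ n ∈ UMain.SS Q R n2 N g α β, w (v n) =
      ∑ n ∈ (UMain.SS Q R n2 N g α β).filter (fun n => (v n).Prime), Real.log (v n : ℕ) := by
    rw [sum_filter]
    refine sum_congr rfl fun n _ => ?_
    unfold w
    rfl
  have e1 : (((Icc 1 N).filter (fun n => n2 ≤ n ∧ (v n).Prime)).card : ℝ) =
      (((UMain.SS Q R n2 N g α β).filter (fun n => (v n).Prime)).card : ℝ) := by rw [hT]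
  constructor
  · calc A * (((Icc 1 N).filter (fun n => n2 ≤ n ∧ (v n).Prime)).card : ℝ) =
          ∑ _n ∈ (UMain.SS Q R n2 N g α β).filter (fun n => (v n).Prime), A := by
            rw [e1, sum_const, nsmul_eq_mul, mul_comm]
      _ ≤ ∑ n ∈ (UMain.SS Q R n2 N g α β).filter (fun n => (v n).Prime), Real.log (v n : ℕ) :=
          sum_le_sum fun n hn => hA n (mem_filter.1 hn).2
      _ = _ := hX.symm
  · calc ∑ n ∈ UMain.SS Q R n2 N g α β, w (v n) =
          ∑ n ∈ (UMain.SS Q R n2 N g α β).filter (fun n => (v n).Prime), Real.log (v n : ℕ) := hX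
      _ ≤ ∑ _n ∈ (UMain.SS Q R n2 N g α β).filter (fun n => (v n).Prime), B :=
          sum_le_sum fun n hn => hB n (mem_filter.1 hn).1
      _ = B * (((Icc 1 N).filter (fun n => n2 ≤ n ∧ (v n).Prime)).card : ℝ) := by
            rw [e1, sum_const, nsmul_eq_mul, mul_comm]

/-- the real number core -/
lemma two_core {c X M L l C1 δ κ N : ℝ} (hc : 0 ≤ c) (hN : 0 ≤ N) (hl : 0 ≤ l) (hC1 : 0 ≤ C1)
    (hδ : 0 ≤ δ) (hκ : 0 ≤ κ) (hL0 : 0 < L) (hL1 : 2 * C1 ≤ L) (hM : M ≤ κ * N)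
    (h1 : (L - C1) * c ≤ X) (h2 : X ≤ (L + l) * c) (h3 : |X - M| ≤ δ * N)
    (h4 : 2 * (κ + δ) * (l + C1) ≤ δ * L) : |c * L - M| ≤ 2 * (δ * N) := by
  have h5 := abs_le.1 h3
  have hX : X ≤ (κ + δ) * N := by linarith
  have h6 : L / 2 * c ≤ X := by
    have : L / 2 ≤ L - C1 := by linarith
    exact (mul_le_mul_of_nonneg_right this hc).trans h1
  have h7 : (l + C1) * c ≤ δ * N := by
    have h8 : (l + C1) * (L / 2 * c) ≤ (l + C1) * ((κ + δ) * N) :=
      mul_le_mul_of_nonneg_left (h6.trans hX) (by linarith)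
    have h9 : (l + C1) * ((κ + δ) * N) ≤ (δ * L / 2) * N := by
      have : (l + C1) * (κ + δ) ≤ δ * L / 2 := by linarith
      calc (l + C1) * ((κ + δ) * N) = ((l + C1) * (κ + δ)) * N := by ring
        _ ≤ (δ * L / 2) * N := mul_le_mul_of_nonneg_right this hN
    have h10 : L / 2 * ((l + C1) * c) ≤ L / 2 * (δ * N) := by
      calc L / 2 * ((l + C1) * c) = (l + C1) * (L / 2 * c) := by ring
        _ ≤ (δ * L / 2) * N := h8.trans h9
        _ = L / 2 * (δ * N) := by ring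
    exact le_of_mul_le_mul_left h10 (by linarith)
  have h8 : 0 ≤ l * c := mul_nonneg hl hc
  have h9 : 0 ≤ C1 * c := mul_nonneg hC1 hc
  rw [abs_le]
  constructor <;> nlinarith

end Pool.Agent.PnHL
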