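import Pool.Agent.PnLG.LG

/-!
# Local-to-global principle for almost all constant terms, uniformly in the polynomial of given degree
-/

open Finset Filter Complex
open scoped ArithmeticFunction.Moebius ArithmeticFunction.vonMangoldt

namespace Pool.Agent.PnHL

open Pool.Agent.ANT
open Pool.Agent.PnLG
open Pool.Agent.PnPoly.NC (np)

/-- non-concentration with constants that depend on the degree only -/
theorem nonconc_sv_u (d : ℕ) : ∃ C c : ℝ, 0 < C ∧ 0 < c ∧ c ≤ 1 / 2 ∧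
    ∀ Q : Polynomial ℚ, IntVal Q → Q.natDegree ≤ d →
    ∀ N q : ℕ, 1 ≤ q → ∀ Z : ℝ, 1 ≤ Z → Z ≤ q → Z ≤ Real.log N → ∀ a : ℤ,
      (((range N).filter (fun n => (q : ℤ) ∣ sv Q n - a)).card : ℝ) ≤ C * N * Z ^ (-c) := by
  obtain ⟨C, hC, h⟩ := Pool.Agent.PnPoly.NC.nonconc d
  have hd : (0 : ℝ) ≤ d := Nat.cast_nonneg _
  refine ⟨C, 1 / (28 * ((d : ℝ) + 1) ^ 2), hC, by positivity, ?_, ?_⟩
  · rw [div_le_div_iff₀ (by positivity) (by norm_num)]
    nlinarith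
  intro Q hQ hQd N q hq Z hZ1 hZq hZN a
  refine h N q Z hq hZ1 hZq hZN
    (Polynomial.C 2 * Q.comp (Polynomial.X + Polynomial.C 1) - Polynomial.C (a : ℚ)) ?_
    _ (filter_subset _ _) ?_
  · refine (Polynomial.natDegree_sub_le _ _).trans ?_
    rw [Polynomial.natDegree_C, Nat.max_zero]
    refine (Polynomial.natDegree_C_mul_le _ _).trans ?_
    refine Polynomial.natDegree_comp_le.trans ?_
    rw [Polynomial.natDegree_X_add_C, mul_one]
    exact hQd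
  · intro n hn
    rw [mem_filter] at hn
    obtain ⟨z, hz⟩ := hn.2
    refine ⟨z, ?_⟩
    have h1 := sv_cast Q hQ n
    have h2 : ((sv Q n : ℤ) : ℚ) - a = q * z := by exact_mod_cast hz
    rw [Polynomial.eval_sub, Polynomial.eval_mul, Polynomial.eval_C, Polynomial.eval_C,
      Polynomial.eval_comp, Polynomial.eval_add, Polynomial.eval_X, Polynomial.eval_C]
    rw [← h2, h1]
    ring

/-- `V_R` versus `Λ_y` in mean square over the constant term -/
theorem second_moment_Ly_u (d : ℕ) (η : ℝ) (hη : 0 < η) : ∃ y0 : ℕ, ∀ y : ℕ, y0 ≤ y →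
    ∀ Q : Polynomial ℚ, IntVal Q → Q.natDegree ≤ d → ∀ n1 C0 B : ℕ, 1 ≤ B →
    ∀ᶠ H : ℕ in atTop, ∀ N : ℕ, OK Q C0 H N →
      ∑ c ∈ Icc 1 H, ‖∑ n ∈ Ico n1 N, (VR (RX B (3 * H)) (sv Q n + 2 * (c : ℤ)) -
        ((Ly y (sv Q n + 2 * (c : ℤ)) : ℝ) : ℂ))‖ ^ 2 ≤ η * H * (N : ℝ) ^ 2 := by
  obtain ⟨C, c, hC, hc, hc2, hncu⟩ := nonconc_sv_u d
  obtain ⟨C1, hC1, hpt⟩ := sum_phi_tail c hc
  obtain ⟨C2, hC2, hpl⟩ := sum_phi_log
  have hy1 : Tendsto (fun y : ℕ => (y : ℝ) ^ (-(c / 2))) atTop (nhds 0) :=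
    (tendsto_rpow_neg_atTop (by positivity)).comp tendsto_natCast_atTop_atTop
  have hy2 : ∀ᶠ y : ℕ in atTop, (y : ℝ) ^ (-(c / 2)) ≤ η / (2 * (144 * C * C1)) :=
    (hy1.eventually_lt_const (by positivity)).mono fun _ h => h.le
  obtain ⟨y0, hy0⟩ := eventually_atTop.1 (hy2.and (eventually_ge_atTop 1))
  refine ⟨y0, fun y hy Q hQ hQd n1 C0 B hB => ?_⟩
  have hnc := hncu Q hQ hQd
  set D : ℝ := ((max Q.natDegree 1 : ℕ) : ℝ) + 1 with hD
  have hD0 : 0 < D := by positivity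
  obtain ⟨hy3, hy4⟩ := hy0 y hy
  filter_upwards [MomLy_ev1 B hB (∏ p ∈ Py y, p), MomLy_ev2 B,
    MomLy_ev3 B hB hc (K := 144 * C * C2 * D ^ c) (ε := η / 2) (by positivity) (by positivity),
    OK_facts Q C0 3, eventually_ge_atTop 3] with H h1 h2 h3 h4 h5 N hOK
  obtain ⟨hN3, hlog, -, -⟩ := h4 N hOK
  have hH3 : (3 : ℝ) ≤ H := by exact_mod_cast h5
  refine (MomLy_core Q hC hnc hpt hpl hy4 h1 n1 H N hN3).trans ?_
  have hlogH : 0 < Real.log (H : ℝ) := Real.log_pos (by linarith)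
  have hR1 : (1 : ℝ) ≤ (RX B (3 * H) : ℕ) := by exact_mod_cast (MomLy_Ppos y).trans_le h1
  have hlR : 0 ≤ Real.log (RX B (3 * H) : ℕ) := Real.log_nonneg hR1
  have hlogN : Real.log (H : ℝ) / D ≤ Real.log N := by
    rw [div_le_iff₀ hD0, mul_comm]
    exact hlog
  have hlN : Real.log N ^ (-c) ≤ D ^ c * Real.log H ^ (-c) := by
    calc Real.log N ^ (-c) ≤ (Real.log (H : ℝ) / D) ^ (-c) :=
          Real.rpow_le_rpow_of_nonpos (by positivity) hlogN (by linarith)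
      _ = D ^ c * Real.log H ^ (-c) := by
          rw [Real.div_rpow hlogH.le hD0.le, Real.rpow_neg hD0.le, Real.rpow_neg hlogH.le]
          field_simp
  have g1 : 144 * C * C1 * (y : ℝ) ^ (-(c / 2)) ≤ η / 2 := by
    calc _ ≤ 144 * C * C1 * (η / (2 * (144 * C * C1))) := by gcongr
      _ = η / 2 := by field_simp
  have g2 : 144 * C * (Real.log N ^ (-c) * (C2 * (1 + Real.log (RX B (3 * H) : ℕ)))) ≤ η / 2 := by
    calc _ ≤ 144 * C * ((D ^ c * Real.log H ^ (-c)) * (C2 * (1 + Real.log (RX B (3 * H) : ℕ)))) := by gcongr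
      _ = 144 * C * C2 * D ^ c * ((1 + Real.log (RX B (3 * H) : ℕ)) * Real.log H ^ (-c)) := by ring
      _ ≤ _ := h3
  have hl0 : 0 ≤ Real.log N ^ (-c) := Real.rpow_nonneg ((div_nonneg hlogH.le hD0.le).trans hlogN) _
  calc _ ≤ 48 * (2 * H + H) * (C * (N : ℝ) ^ 2 * (C1 * (y : ℝ) ^ (-(c / 2)) +
        Real.log N ^ (-c) * (C2 * (1 + Real.log (RX B (3 * H) : ℕ))))) := by gcongr
    _ = H * (N : ℝ) ^ 2 * (144 * C * C1 * (y : ℝ) ^ (-(c / 2)) +
        144 * C * (Real.log N ^ (-c) * (C2 * (1 + Real.log (RX B (3 * H) : ℕ))))) := by ring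
    _ ≤ H * (N : ℝ) ^ 2 * (η / 2 + η / 2) := by gcongr
    _ = _ := by ring

/-- the main mean square estimate -/
theorem second_moment_u (d : ℕ) (η : ℝ) (hη : 0 < η) : ∃ y0 : ℕ, ∀ y : ℕ, y0 ≤ y →
    ∀ Q : Polynomial ℚ, IntVal Q → 0 ≤ Q.leadingCoeff → Q.natDegree ≤ d → ∀ n1 C0 : ℕ,
    (∀ n, n1 ≤ n → 0 ≤ qv Q (n + 1) ∧ sv Q n < sv Q (n + 1)) →
    ∀ᶠ H : ℕ in atTop, ∀ N : ℕ, OK Q C0 H N →
      ∑ c ∈ Icc 1 H, (∑ n ∈ Ico n1 N, (Λ (sv Q n + 2 * (c : ℤ)).toNat -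
        Ly y (sv Q n + 2 * (c : ℤ)))) ^ 2 ≤ η * H * (N : ℝ) ^ 2 := by
  obtain ⟨y0, hy0⟩ := second_moment_Ly_u d (η / 4) (by linarith)
  refine ⟨y0, fun y hy Q hQ hlc hQd n1 C0 hn1 => ?_⟩
  obtain ⟨B, hB, C, hC, hVR⟩ := second_moment_VR Q hQ hlc n1 hn1 C0
  have hlog : ∀ᶠ H : ℕ in atTop, 4 * C / η ≤ Real.log H ∧ 1 ≤ Real.log H := by
    have h1 : Tendsto (fun H : ℕ => Real.log (H : ℝ)) atTop atTop :=
      Real.tendsto_log_atTop.comp tendsto_natCast_atTop_atTop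
    exact (h1.eventually_ge_atTop (4 * C / η)).and (h1.eventually_ge_atTop 1)
  filter_upwards [hVR, hy0 y hy Q hQ hQd n1 C0 B hB, hlog] with H h1 h2 h3 N hN
  obtain ⟨h3, h4⟩ := h3
  have h5 := h1 N hN
  have h6 := h2 N hN
  have hterm : ∀ c ∈ Icc 1 H, (∑ n ∈ Ico n1 N, (Λ (sv Q n + 2 * (c : ℤ)).toNat -
        Ly y (sv Q n + 2 * (c : ℤ)))) ^ 2 ≤
      2 * ‖∑ n ∈ Ico n1 N, (((Λ (sv Q n + 2 * (c : ℤ)).toNat : ℝ) : ℂ) -
        VR (RX B (3 * H)) (sv Q n + 2 * (c : ℤ)))‖ ^ 2 +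
      2 * ‖∑ n ∈ Ico n1 N, (VR (RX B (3 * H)) (sv Q n + 2 * (c : ℤ)) -
        ((Ly y (sv Q n + 2 * (c : ℤ)) : ℝ) : ℂ))‖ ^ 2 := by
    intro c _
    have h7 : ((∑ n ∈ Ico n1 N, (Λ (sv Q n + 2 * (c : ℤ)).toNat -
        Ly y (sv Q n + 2 * (c : ℤ))) : ℝ) : ℂ) =
        ∑ n ∈ Ico n1 N, (((Λ (sv Q n + 2 * (c : ℤ)).toNat : ℝ) : ℂ) -
          VR (RX B (3 * H)) (sv Q n + 2 * (c : ℤ))) +
        ∑ n ∈ Ico n1 N, (VR (RX B (3 * H)) (sv Q n + 2 * (c : ℤ)) -
          ((Ly y (sv Q n + 2 * (c : ℤ)) : ℝ) : ℂ)) := by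
      rw [← Finset.sum_add_distrib, Complex.ofReal_sum]
      refine Finset.sum_congr rfl fun n _ => ?_
      rw [Complex.ofReal_sub]
      ring
    have h8 : (∑ n ∈ Ico n1 N, (Λ (sv Q n + 2 * (c : ℤ)).toNat -
        Ly y (sv Q n + 2 * (c : ℤ)))) ^ 2 =
        ‖((∑ n ∈ Ico n1 N, (Λ (sv Q n + 2 * (c : ℤ)).toNat -
        Ly y (sv Q n + 2 * (c : ℤ))) : ℝ) : ℂ)‖ ^ 2 := by
      rw [Complex.norm_real, Real.norm_eq_abs, sq_abs]
    rw [h8, h7]
    exact Mom_sq_add_le _ _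
  have hH : (0 : ℝ) ≤ H := Nat.cast_nonneg H
  have hHN : (0 : ℝ) ≤ H * (N : ℝ) ^ 2 := by positivity
  have h9 : C * H * (N : ℝ) ^ 2 / Real.log H ≤ η / 4 * (H * (N : ℝ) ^ 2) := by
    rw [div_le_iff₀ (by linarith)]
    have h10 : C ≤ η / 4 * Real.log H := by
      rw [div_le_iff₀ hη] at h3
      linarith
    calc C * H * (N : ℝ) ^ 2 = C * (H * (N : ℝ) ^ 2) := by ring
      _ ≤ (η / 4 * Real.log H) * (H * (N : ℝ) ^ 2) := mul_le_mul_of_nonneg_right h10 hHN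
      _ = η / 4 * (H * (N : ℝ) ^ 2) * Real.log H := by ring
  calc ∑ c ∈ Icc 1 H, (∑ n ∈ Ico n1 N, (Λ (sv Q n + 2 * (c : ℤ)).toNat -
        Ly y (sv Q n + 2 * (c : ℤ)))) ^ 2
      ≤ ∑ c ∈ Icc 1 H, (2 * ‖∑ n ∈ Ico n1 N, (((Λ (sv Q n + 2 * (c : ℤ)).toNat : ℝ) : ℂ) -
        VR (RX B (3 * H)) (sv Q n + 2 * (c : ℤ)))‖ ^ 2 +
      2 * ‖∑ n ∈ Ico n1 N, (VR (RX B (3 * H)) (sv Q n + 2 * (c : ℤ)) -
        ((Ly y (sv Q n + 2 * (c : ℤ)) : ℝ) : ℂ))‖ ^ 2) := Finset.sum_le_sum hterm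
    _ = 2 * ∑ c ∈ Icc 1 H, ‖∑ n ∈ Ico n1 N, (((Λ (sv Q n + 2 * (c : ℤ)).toNat : ℝ) : ℂ) -
        VR (RX B (3 * H)) (sv Q n + 2 * (c : ℤ)))‖ ^ 2 +
      2 * ∑ c ∈ Icc 1 H, ‖∑ n ∈ Ico n1 N, (VR (RX B (3 * H)) (sv Q n + 2 * (c : ℤ)) -
        ((Ly y (sv Q n + 2 * (c : ℤ)) : ℝ) : ℂ))‖ ^ 2 := by
        rw [Finset.sum_add_distrib, ← Finset.mul_sum, ← Finset.mul_sum]
    _ ≤ 2 * (η / 4 * (H * (N : ℝ) ^ 2)) + 2 * (η / 4 * H * (N : ℝ) ^ 2) := by
        gcongr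
        exact h5.trans h9
    _ = η * H * (N : ℝ) ^ 2 := by ring

/-- **local-to-global**: for almost all constant terms `b` the number of `n ≤ N` with `p_n + 2(Q(n)+b)` prime
is as predicted by the joint distribution of `(n, p_n)` modulo the small primes -/
theorem local_global_u (d : ℕ) (ε : ℝ) (hε : 0 < ε) : ∃ y0 : ℕ, ∀ y : ℕ, y0 ≤ y →
    ∀ Q : Polynomial ℚ, IntVal Q → 0 ≤ Q.leadingCoeff → Q.natDegree ≤ d → ∀ C0 : ℕ,
    ∀ᶠ H : ℕ in atTop, ∀ N : ℕ, OK Q C0 H N →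
      (((Icc 1 H).filter (fun b : ℕ => ε * (N / Real.log H) <
        |(cntP Q N b : ℝ) - (1 / Real.log H) * ∑ n ∈ range N, Ly y (sv Q n + 2 * (b : ℤ))|)).card : ℝ) ≤
        ε * H := by
  classical
  set δ : ℝ := ε / 8 with hδ
  have hδ0 : 0 < δ := by positivity
  obtain ⟨y0, hy0⟩ := second_moment_u d (δ ^ 2 * (ε / 4)) (by positivity)
  refine ⟨y0, fun y hy Q hQ hlc hQd C0 => ?_⟩
  obtain ⟨n1, hn1⟩ := sv_facts Q hQ hlc
  set Cy : ℝ := ∏ p ∈ Py y, (1 - 1 / (p : ℝ))⁻¹ with hCy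
  have hCy0 : 0 ≤ Cy := (Ly_nonneg y 0).trans (Ly_le y 0)
  set Cε : ℝ := Real.log 3 + |Real.log (ε / 2)| with hCε
  have hCε0 : 0 ≤ Cε := add_nonneg (Real.log_nonneg (by norm_num)) (abs_nonneg _)
  set K : ℕ := ⌈((n1 : ℝ) * (1 + Cy)) / δ⌉₊ + 1 with hK
  have hlog : Tendsto (fun H : ℕ => Real.log (H : ℝ)) atTop atTop :=
    Real.tendsto_log_atTop.comp tendsto_natCast_atTop_atTop
  filter_upwards [hy0 y hy Q hQ hlc hQd n1 C0 hn1, pp_small Q n1 hn1 C0 (δ * (ε / 4)) (by positivity),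
    OK_facts Q C0 K, hlog.eventually_ge_atTop (1 + 2 * Cε + 2 * Cε * (Cy + δ) / δ),
    eventually_ge_atTop 1] with H hsec hpp hfacts hLbig hH1 N hOK
  obtain ⟨hKN, -, -, hKL⟩ := hfacts N hOK
  have hsecN := hsec N hOK
  have hppN := hpp N hOK
  have hrange := OK_range Q n1 hn1 C0 H N hOK
  set L : ℝ := Real.log H with hL
  have hfrac : 0 ≤ 2 * Cε * (Cy + δ) / δ := by positivity
  have hL1 : 1 ≤ L := by linarith
  have hL0 : 0 < L := by linarith
  have hL2 : 2 * Cε ≤ L := by linarith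
  have hL3 : 2 * Cε * (Cy + δ) ≤ δ * L := by
    have : 2 * Cε * (Cy + δ) / δ ≤ L := by linarith
    rw [div_le_iff₀ hδ0] at this
    linarith
  have hK1 : 1 ≤ K := by omega
  have hN1 : 1 ≤ N := hK1.trans hKN
  have hNr : (1 : ℝ) ≤ N := by exact_mod_cast hN1
  have hHr : (1 : ℝ) ≤ H := by exact_mod_cast hH1
  have hn1N : (n1 : ℝ) * (1 + Cy) * L ≤ δ * N := by
    have h1 : ((n1 : ℝ) * (1 + Cy)) / δ ≤ K := by
      rw [hK]; push_cast
      have := Nat.le_ceil (((n1 : ℝ) * (1 + Cy)) / δ)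
      linarith
    rw [div_le_iff₀ hδ0] at h1
    calc (n1 : ℝ) * (1 + Cy) * L ≤ (K * δ) * L := by gcongr
      _ = δ * (K * L) := by ring
      _ ≤ δ * N := by gcongr
  -- the three exceptional sets
  set T1 : Finset ℕ := (Icc 1 H).filter (fun b : ℕ => (b : ℝ) < ε / 4 * H) with hT1
  set Sb : ℕ → ℝ := fun b => ∑ n ∈ Ico n1 N, (Λ (sv Q n + 2 * (b : ℤ)).toNat -
    Ly y (sv Q n + 2 * (b : ℤ))) with hSb
  set Pb : ℕ → ℝ := fun b => ∑ n ∈ Ico n1 N, (if (sv Q n + 2 * (b : ℤ)).toNat.Prime then 0 else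
    Λ (sv Q n + 2 * (b : ℤ)).toNat) with hPb
  set T2 : Finset ℕ := (Icc 1 H).filter (fun b : ℕ => δ * N < |Sb b|) with hT2
  set T3 : Finset ℕ := (Icc 1 H).filter (fun b : ℕ => δ * N < Pb b) with hT3
  have c1 : (T1.card : ℝ) ≤ ε / 4 * H := by
    have hsub : T1 ⊆ Icc 1 ⌊ε / 4 * (H : ℝ)⌋₊ := by
      intro b hb
      rw [hT1, mem_filter, mem_Icc] at hb
      rw [mem_Icc]
      exact ⟨hb.1.1, Nat.le_floor hb.2.le⟩
    calc (T1.card : ℝ) ≤ ((Icc 1 ⌊ε / 4 * (H : ℝ)⌋₊).card : ℝ) := by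
          exact_mod_cast card_le_card hsub
      _ = (⌊ε / 4 * (H : ℝ)⌋₊ : ℝ) := by simp
      _ ≤ ε / 4 * H := Nat.floor_le (by positivity)
  have c2 : (T2.card : ℝ) ≤ ε / 4 * H := by
    have := LG_markov (Icc 1 H) (fun b => Sb b ^ 2) (fun b _ => sq_nonneg _) ((δ * N) ^ 2)
      (δ ^ 2 * (ε / 4) * H * (N : ℝ) ^ 2) (by positivity) hsecN T2 (filter_subset _ _) (by
        intro b hb
        rw [hT2, mem_filter] at hb
        have h0 : 0 ≤ δ * N := by positivity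
        calc (δ * N) ^ 2 ≤ |Sb b| ^ 2 := by gcongr; exact hb.2.le
          _ = Sb b ^ 2 := sq_abs _)
    refine this.trans (le_of_eq ?_)
    field_simp
  have hPb0 : ∀ b ∈ Icc 1 H, 0 ≤ Pb b := by
    intro b _
    refine sum_nonneg fun n _ => ?_
    split_ifs
    · exact le_rfl
    · exact ArithmeticFunction.vonMangoldt_nonneg
  have c3 : (T3.card : ℝ) ≤ ε / 4 * H := by
    have := LG_markov (Icc 1 H) Pb hPb0 (δ * N)
      (δ * (ε / 4) * H * N) (by positivity) hppN T3 (filter_subset _ _) (by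
        intro b hb
        rw [hT3, mem_filter] at hb
        exact hb.2.le)
    refine this.trans (le_of_eq ?_)
    field_simp
  -- every other `b` is good
  have hsub : (Icc 1 H).filter (fun b : ℕ => ε * (N / L) <
      |(cntP Q N b : ℝ) - (1 / L) * ∑ n ∈ range N, Ly y (sv Q n + 2 * (b : ℤ))|) ⊆
      T1 ∪ (T2 ∪ T3) := by
    intro b hb
    by_contra hcon
    rw [mem_filter] at hb
    obtain ⟨hbI, hbad⟩ := hb
    rw [mem_Icc] at hbI
    simp only [mem_union, hT1, hT2, hT3, mem_filter, not_or, not_and, not_lt, mem_Icc] at hcon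
    obtain ⟨g1, g2, g3⟩ := hcon
    have g1' := g1 hbI
    have g2' := g2 hbI
    have g3' := g3 hbI
    have hmain := LG_perb (Ico n1 N) (fun n => (sv Q n + 2 * (b : ℤ)).toNat.Prime)
      (fun n => Λ (sv Q n + 2 * (b : ℤ)).toNat) (fun n => Ly y (sv Q n + 2 * (b : ℤ)))
      N L δ Cε Cy (by
        rw [Nat.card_Ico]
        exact_mod_cast Nat.sub_le N n1) hL0 hδ0 hCy0 hCε0 hL2 hL3 g2' g3'
      (fun n _ => ArithmeticFunction.vonMangoldt_nonneg) (fun n _ => Ly_le y _) (by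
        intro n hn hpr
        obtain ⟨s0, s1, -⟩ := hrange n hn
        rw [ArithmeticFunction.vonMangoldt_apply_prime hpr]
        exact LG_log ε hε H hH1 b hbI.2 g1' (sv Q n) s0 s1)
    -- compare the counting functions
    set R : ℕ → Prop := fun n => ∃ r : ℕ, r.Prime ∧ (r : ℤ) = sv Q n + 2 * (b : ℤ) with hR
    have hcnt : cntP Q N b = ((range N).filter R).card := LG_cnt Q hQ N b
    have hRI : (Ico n1 N).filter R =
        (Ico n1 N).filter (fun n => (sv Q n + 2 * (b : ℤ)).toNat.Prime) := by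
      refine filter_congr fun n hn => ?_
      obtain ⟨s0, -, -⟩ := hrange n hn
      have hpos : 0 ≤ sv Q n + 2 * (b : ℤ) := by positivity
      constructor
      · rintro ⟨r, hr, hr2⟩
        rw [← hr2, Int.toNat_natCast]; exact hr
      · intro h
        exact ⟨_, h, Int.toNat_of_nonneg hpos⟩
    have hk1 : ((Ico n1 N).filter R).card ≤ ((range N).filter R).card := by
      apply card_le_card
      intro n hn
      rw [mem_filter, mem_Ico] at hn
      rw [mem_filter, mem_range]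
      exact ⟨hn.1.2, hn.2⟩
    have hk2 : ((range N).filter R).card ≤ ((Ico n1 N).filter R).card + n1 := by
      have : (range N).filter R ⊆ (Ico n1 N).filter R ∪ range n1 := by
        intro n hn
        rw [mem_filter, mem_range] at hn
        rw [mem_union, mem_filter, mem_Ico, mem_range]
        by_cases h : n < n1
        · exact Or.inr h
        · exact Or.inl ⟨⟨by omega, hn.1⟩, hn.2⟩
      calc ((range N).filter R).card ≤ _ := card_le_card this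
        _ ≤ _ := card_union_le _ _
        _ = _ := by rw [card_range]
    set k : ℝ := (((Ico n1 N).filter (fun n => (sv Q n + 2 * (b : ℤ)).toNat.Prime)).card : ℝ)
      with hk
    have hcnt1 : k ≤ (cntP Q N b : ℝ) := by
      rw [hcnt, hk, ← hRI]; exact_mod_cast hk1
    have hcnt2 : (cntP Q N b : ℝ) ≤ k + n1 := by
      rw [hcnt, hk, ← hRI]; exact_mod_cast hk2
    set A : ℝ := ∑ n ∈ range N, Ly y (sv Q n + 2 * (b : ℤ)) with hA
    set A1 : ℝ := ∑ n ∈ Ico n1 N, Ly y (sv Q n + 2 * (b : ℤ)) with hA1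
    have hA_ge : A1 ≤ A := by
      refine sum_le_sum_of_subset_of_nonneg ?_ (fun n _ _ => Ly_nonneg y _)
      intro n hn
      rw [mem_Ico] at hn
      rw [mem_range]; exact hn.2
    have hA_le : A ≤ A1 + n1 * Cy := by
      have hsubs : range N ⊆ Ico n1 N ∪ range n1 := by
        intro n hn
        rw [mem_range] at hn
        rw [mem_union, mem_Ico, mem_range]
        omega
      calc A ≤ ∑ n ∈ Ico n1 N ∪ range n1, Ly y (sv Q n + 2 * (b : ℤ)) :=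
            sum_le_sum_of_subset_of_nonneg hsubs (fun n _ _ => Ly_nonneg y _)
        _ = A1 + ∑ n ∈ range n1, Ly y (sv Q n + 2 * (b : ℤ)) := by
            rw [sum_union]
            rw [disjoint_left]
            intro n h1 h2
            rw [mem_Ico] at h1
            rw [mem_range] at h2
            omega
        _ ≤ A1 + ∑ _n ∈ range n1, Cy := by
            gcongr with n _
            exact Ly_le y _
        _ = A1 + n1 * Cy := by rw [sum_const, nsmul_eq_mul, card_range]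
    have hn10 : (0 : ℝ) ≤ n1 := Nat.cast_nonneg _
    have hfin : |L * (cntP Q N b : ℝ) - A| ≤ ε * N := by
      have e := abs_le.mp hmain
      have e1 : L * k ≤ L * (cntP Q N b : ℝ) := mul_le_mul_of_nonneg_left hcnt1 hL0.le
      have e2 : L * (cntP Q N b : ℝ) ≤ L * k + L * n1 := by
        rw [← mul_add]; exact mul_le_mul_of_nonneg_left hcnt2 hL0.le
      have e3 : L * n1 ≤ δ * N := by
        refine le_trans ?_ hn1N
        have : 0 ≤ (n1 : ℝ) * Cy * L := by positivity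
        linarith only [this]
      have e4 : (n1 : ℝ) * Cy ≤ δ * N := by
        refine le_trans ?_ hn1N
        have h5 : (n1 : ℝ) * Cy ≤ (n1 : ℝ) * Cy * L := by
          have : 0 ≤ (n1 : ℝ) * Cy := by positivity
          exact le_mul_of_one_le_right this (by linarith)
        have : 0 ≤ (n1 : ℝ) * L := by positivity
        linarith only [this, h5]
      have e5 : 5 * (δ * N) ≤ ε * N := by
        rw [hδ]
        have : 0 ≤ ε * N := by positivity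
        linarith only [this]
      rw [abs_le]
      constructor <;> linarith [e.1, e.2]
    have : |(cntP Q N b : ℝ) - (1 / L) * A| ≤ ε * (N / L) := by
      have h6 : (cntP Q N b : ℝ) - (1 / L) * A = (L * (cntP Q N b : ℝ) - A) / L := by
        field_simp
      rw [h6, abs_div, abs_of_pos hL0, ← mul_div_assoc]
      gcongr
    exact absurd hbad (not_lt.mpr this)
  calc _ ≤ ((T1 ∪ (T2 ∪ T3)).card : ℝ) := by exact_mod_cast card_le_card hsub
    _ ≤ (T1.card : ℝ) + ((T2.card : ℝ) + (T3.card : ℝ)) := by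
        have h1 := card_union_le T1 (T2 ∪ T3)
        have h2 := card_union_le T2 T3
        exact_mod_cast h1.trans (by omega)
    _ ≤ ε / 4 * H + (ε / 4 * H + ε / 4 * H) := by gcongr
    _ ≤ ε * H := by
        have : 0 ≤ ε * H := by positivity
        linarith only [this]

end Pool.Agent.PnHL
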