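import Pool.Agent.PnU.Defs2
import Pool.Agent.PnMaynard2.Seq

/-!
# Variance of the number of primes in a two-parameter family
-/

open Finset

namespace Pool.Agent.PnHL

open Pool.Agent.PnPoly Pool.Agent.PnMaynard

section Env

variable {K N X G : ℕ} {E : ℝ} {B : ℕ → ℕ}

/-- variance of the weighted prime count -/
theorem var_le (hE : 0 ≤ E) (hSW : SWH X (G * N) E) (hG : 1 ≤ G) (hN : 1 ≤ N)
    {I : Finset ℕ} (hI : ∀ n ∈ I, 1 ≤ n ∧ n ≤ N) {ν : ℕ → ℝ} (hν : ∀ n ∈ I, 0 ≤ ν n)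
    (hν1 : ∑ n ∈ I, ν n = 1) {η : ℝ} (hη : ∀ n ∈ I, ν n ≤ η)
    (hX : ∀ n ∈ I, B n + G * (K + K * n) ≤ X) (hB : ∀ n ∈ I, (B n).Coprime G)
    {Γ : ℝ} (hΓ : ∑ m ∈ I, ∑ n ∈ I, (if m = n then 0 else ν m * ν n * gs G B m n) ≤ Γ) :
    ∑ t ∈ Ioc 0 K ×ˢ Ioc 0 K, (FF B G I ν t - (G:ℝ) / G.totient) ^ 2 ≤
      ((G:ℝ) / G.totient) ^ 2 * (K:ℝ) ^ 2 * (Γ - 1) +
      (η * Real.log X * (K * ((G:ℝ) / G.totient * K + 2 * E)) +
      (G * N ^ 2 * K * (2 * E + Real.log X) + 2 * E * (K * (1 + N)) * Real.log X) +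
      4 * ((G:ℝ) / G.totient) * E * K) := by
  classical
  have hlogX : 0 ≤ Real.log X := Real.log_natCast_nonneg X
  set κ := (G:ℝ) / G.totient with hκ
  have hκ0 : 0 ≤ κ := by positivity
  set Tt := Ioc 0 K ×ˢ Ioc 0 K with hTt
  have hTcard : (Tt.card : ℝ) = (K:ℝ) ^ 2 := by
    rw [hTt, card_product, Nat.card_Ioc]; simp only [Nat.sub_zero]; push_cast; ring
  set Err := (G * N ^ 2 * K * (2 * E + Real.log X) + 2 * E * (K * (1 + N)) * Real.log X) with hErr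
  have hErr0 : 0 ≤ Err := by positivity
  -- sums over t
  have hsumT : ∀ f : ℕ × ℕ → ℝ, ∑ t ∈ Tt, f t = ∑ t1 ∈ Ioc 0 K, ∑ t0 ∈ Ioc 0 K, f (t0, t1) := by
    intro f
    rw [hTt, sum_product_right]
  have hfirst : ∀ n ∈ I, |∑ t ∈ Tt, w (vv B G t.1 t.2 n) - κ * (K:ℝ) ^ 2| ≤ 2 * E * K := by
    intro n hn
    rw [hsumT]
    have h1 : ∑ t1 ∈ Ioc 0 K, ∑ t0 ∈ Ioc 0 K, w (vv B G t0 t1 n) - κ * (K:ℝ) ^ 2 =
        ∑ t1 ∈ Ioc 0 K, (∑ t0 ∈ Ioc 0 K, w (vv B G t0 t1 n) - κ * K) := by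
      rw [sum_sub_distrib, sum_const, Nat.card_Ioc, nsmul_eq_mul]
      simp only [Nat.sub_zero]
      ring
    simp only at h1 ⊢
    rw [h1]
    refine (abs_sum_le_sum_abs _ _).trans ?_
    calc ∑ t1 ∈ Ioc 0 K, |∑ t0 ∈ Ioc 0 K, w (vv B G t0 t1 n) - κ * K| ≤
          ∑ _t1 ∈ Ioc 0 K, 2 * E := by
          refine sum_le_sum fun t1 ht1 => ?_
          rw [mem_Ioc] at ht1
          exact first_sum hSW hG hN (hX n hn) (hB n hn) ht1.2
      _ = 2 * E * K := by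
          rw [sum_const, Nat.card_Ioc, nsmul_eq_mul]; simp only [Nat.sub_zero]; ring
  have hM1 : κ * (K:ℝ) ^ 2 - 2 * E * K ≤ ∑ t ∈ Tt, FF B G I ν t := by
    unfold FF
    rw [sum_comm]
    have h1 : ∀ n ∈ I, ν n * (κ * (K:ℝ) ^ 2 - 2 * E * K) ≤
        ∑ t ∈ Tt, ν n * w (vv B G t.1 t.2 n) := by
      intro n hn
      rw [← mul_sum]
      refine mul_le_mul_of_nonneg_left ?_ (hν n hn)
      have := (abs_le.1 (hfirst n hn)).1
      linarith
    calc κ * (K:ℝ) ^ 2 - 2 * E * K = ∑ n ∈ I, ν n * (κ * (K:ℝ) ^ 2 - 2 * E * K) := by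
          rw [← sum_mul, hν1, one_mul]
      _ ≤ _ := sum_le_sum h1
  -- second moment
  have hM2 : ∑ t ∈ Tt, FF B G I ν t ^ 2 ≤ κ ^ 2 * (K:ℝ) ^ 2 * Γ +
      (η * Real.log X * (K * (κ * K + 2 * E)) + Err) := by
    have h1 : ∀ t : ℕ × ℕ, FF B G I ν t ^ 2 = ∑ m ∈ I, ∑ n ∈ I,
        ν m * ν n * (w (vv B G t.1 t.2 m) * w (vv B G t.1 t.2 n)) := by
      intro t
      unfold FF
      rw [sq, sum_mul_sum]
      refine sum_congr rfl fun m _ => sum_congr rfl fun n _ => ?_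
      ring
    simp_rw [h1]
    rw [sum_comm]
    have h2 : ∀ m ∈ I, ∑ t ∈ Tt, ∑ n ∈ I,
        ν m * ν n * (w (vv B G t.1 t.2 m) * w (vv B G t.1 t.2 n)) =
        ∑ n ∈ I, ν m * ν n * ∑ t ∈ Tt, (w (vv B G t.1 t.2 m) * w (vv B G t.1 t.2 n)) := by
      intro m _
      rw [sum_comm]
      exact sum_congr rfl fun n _ => by rw [mul_sum]
    rw [sum_congr rfl h2]
    have h3 : ∀ m ∈ I, ∀ n ∈ I,
        ν m * ν n * ∑ t ∈ Tt, (w (vv B G t.1 t.2 m) * w (vv B G t.1 t.2 n)) ≤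
        κ ^ 2 * (K:ℝ) ^ 2 * (if m = n then 0 else ν m * ν n * gs G B m n) +
          ((if m = n then ν m * (η * Real.log X * (K * (κ * K + 2 * E))) else 0) +
            ν m * ν n * Err) := by
      intro m hm n hn
      have hνm := hν m hm
      have hνn := hν n hn
      have hEE : 0 ≤ ν m * ν n * Err := by positivity
      by_cases hmn : m = n
      · subst hmn
        rw [if_pos rfl, if_pos rfl, mul_zero, zero_add]
        have h4 : ∑ t ∈ Tt, (w (vv B G t.1 t.2 m) * w (vv B G t.1 t.2 m)) ≤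
            Real.log X * (K * (κ * K + 2 * E)) := by
          have h5 : ∑ t ∈ Tt, (w (vv B G t.1 t.2 m) * w (vv B G t.1 t.2 m)) ≤
              Real.log X * ∑ t ∈ Tt, w (vv B G t.1 t.2 m) := by
            rw [mul_sum]
            refine sum_le_sum fun t ht => ?_
            rw [hTt, mem_product, mem_Ioc, mem_Ioc] at ht
            exact mul_le_mul_of_nonneg_right (w_le_log (vv_le (hX m hm) ht.1.2 ht.2.2)) (w_nonneg _)
          have h6 := (abs_le.1 (hfirst m hm)).2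
          have h7 : ∑ t ∈ Tt, w (vv B G t.1 t.2 m) ≤ K * (κ * K + 2 * E) := by nlinarith
          exact h5.trans (mul_le_mul_of_nonneg_left h7 hlogX)
        have h5 : ν m * ν m * ∑ t ∈ Tt, (w (vv B G t.1 t.2 m) * w (vv B G t.1 t.2 m)) ≤
            ν m * η * (Real.log X * (K * (κ * K + 2 * E))) := by
          have h6 : 0 ≤ ∑ t ∈ Tt, (w (vv B G t.1 t.2 m) * w (vv B G t.1 t.2 m)) :=
            sum_nonneg fun t _ => mul_nonneg (w_nonneg _) (w_nonneg _)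
          have h7 : ν m * ν m ≤ ν m * η := mul_le_mul_of_nonneg_left (hη m hm) hνm
          exact mul_le_mul h7 h4 h6 (mul_nonneg hνm (hνm.trans (hη m hm)))
        have h6 : ν m * η * (Real.log X * (K * (κ * K + 2 * E))) =
            ν m * (η * Real.log X * (K * (κ * K + 2 * E))) := by ring
        linarith
      · rw [if_neg hmn, if_neg hmn, zero_add]
        have h4 : ∑ t ∈ Tt, (w (vv B G t.1 t.2 m) * w (vv B G t.1 t.2 n)) ≤
            κ ^ 2 * (K:ℝ) ^ 2 * gs G B m n + Err := by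
          rw [hsumT]
          rcases lt_or_gt_of_ne hmn with h | h
          · exact pair_total hE hSW hG (hX m hm) (hX n hn) (hB m hm) (hI m hm).1 h (hI n hn).2
          · have h5 := pair_total hE hSW hG (hX n hn) (hX m hm) (hB n hn) (hI n hn).1 h (hI m hm).2
            rw [gs_comm] at h5
            refine le_trans (le_of_eq ?_) h5
            refine sum_congr rfl fun t1 _ => sum_congr rfl fun t0 _ => ?_
            ring
        have h5 := mul_le_mul_of_nonneg_left h4 (mul_nonneg hνm hνn)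
        refine h5.trans (le_of_eq ?_)
        ring
    refine (sum_le_sum fun m hm => sum_le_sum fun n hn => h3 m hm n hn).trans ?_
    simp_rw [sum_add_distrib]
    have e1 : ∑ m ∈ I, ∑ n ∈ I, κ ^ 2 * (K:ℝ) ^ 2 *
        (if m = n then 0 else ν m * ν n * gs G B m n) ≤ κ ^ 2 * (K:ℝ) ^ 2 * Γ := by
      simp_rw [← mul_sum]
      exact mul_le_mul_of_nonneg_left hΓ (by positivity)
    have e2 : ∑ m ∈ I, ∑ n ∈ I,
        (if m = n then ν m * (η * Real.log X * (K * (κ * K + 2 * E))) else 0) =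
        η * Real.log X * (K * (κ * K + 2 * E)) := by
      have : ∀ m ∈ I, ∑ n ∈ I,
          (if m = n then ν m * (η * Real.log X * (K * (κ * K + 2 * E))) else 0) =
          ν m * (η * Real.log X * (K * (κ * K + 2 * E))) := by
        intro m hm
        rw [sum_ite_eq I m, if_pos hm]
      rw [sum_congr rfl this, ← sum_mul, hν1, one_mul]
    have e3 : ∑ m ∈ I, ∑ n ∈ I, ν m * ν n * Err = Err := by
      have : ∑ m ∈ I, ∑ n ∈ I, ν m * ν n * Err = (∑ m ∈ I, ν m) * (∑ n ∈ I, ν n) * Err := by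
        rw [sum_mul_sum, sum_mul]
        exact sum_congr rfl fun m _ => by rw [sum_mul]
      rw [this, hν1]; ring
    rw [e2, e3]
    linarith
  -- variance
  have hvar : ∑ t ∈ Tt, (FF B G I ν t - κ) ^ 2 ≤ κ ^ 2 * (K:ℝ) ^ 2 * (Γ - 1) +
      (η * Real.log X * (K * (κ * K + 2 * E)) + Err + 4 * κ * E * K) := by
    have h1 : ∑ t ∈ Tt, (FF B G I ν t - κ) ^ 2 =
        ∑ t ∈ Tt, FF B G I ν t ^ 2 - 2 * κ * ∑ t ∈ Tt, FF B G I ν t + κ ^ 2 * (K:ℝ) ^ 2 := by
      rw [← hTcard, mul_sum, ← sum_sub_distrib]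
      have : κ ^ 2 * (Tt.card : ℝ) = ∑ _t ∈ Tt, κ ^ 2 := by rw [sum_const, nsmul_eq_mul]; ring
      rw [this, ← sum_add_distrib]
      exact sum_congr rfl fun t _ => by ring
    rw [h1]
    have h2 := mul_le_mul_of_nonneg_left hM1 (show 0 ≤ 2 * κ by positivity)
    nlinarith
  exact hvar

end Env

end Pool.Agent.PnHL
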